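import Mathlib

namespace Pool.Agent.Lib.MP_234657_nt

open Finset Polynomial

theorem rootMultiplicity_eq_of_wronskian {Q₀ Q₁ : ℂ[X]} (h₀ : Q₀ ≠ 0) (h₁ : Q₁ ≠ 0)
    (h : Q₀ * derivative Q₁ = Q₁ * derivative Q₀) (z : ℂ) :
    Q₀.rootMultiplicity z = Q₁.rootMultiplicity z := by
  obtain ⟨u, hu, hu'⟩ := exists_eq_pow_rootMultiplicity_mul_and_not_dvd Q₀ h₀ z
  obtain ⟨v, hv, hv'⟩ := exists_eq_pow_rootMultiplicity_mul_and_not_dvd Q₁ h₁ z
  generalize Q₀.rootMultiplicity z = α at hu
  generalize Q₁.rootMultiplicity z = β at hv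
  have hd : ∀ (n : ℕ) (w : ℂ[X]), (X - C z) * derivative ((X - C z) ^ n * w) =
      (X - C z) ^ n * (C (n : ℂ) * w + (X - C z) * derivative w) := by
    intro n w
    rw [derivative_mul, derivative_X_sub_C_pow]
    cases n with
    | zero => simp
    | succ n =>
      rw [Nat.add_sub_cancel, pow_succ]
      ring
  have h2 : (X - C z) ^ α * (X - C z) ^ β * (u * (C (β : ℂ) * v + (X - C z) * derivative v)) =
      (X - C z) ^ α * (X - C z) ^ β * (v * (C (α : ℂ) * u + (X - C z) * derivative u)) := by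
    have e1 := hd α u
    have e2 := hd β v
    rw [hu, hv] at h
    linear_combination (X - C z) * h - (X - C z) ^ α * u * e2 + (X - C z) ^ β * v * e1
  have h3 := mul_left_cancel₀
    (mul_ne_zero (pow_ne_zero _ (X_sub_C_ne_zero z)) (pow_ne_zero _ (X_sub_C_ne_zero z))) h2
  have h4 := congrArg (eval z) h3
  simp only [eval_mul, eval_add, eval_C, eval_sub, eval_X, sub_self, zero_mul, add_zero] at h4
  have hu0 : u.eval z ≠ 0 := fun h => hu' (dvd_iff_isRoot.2 h)
  have hv0 : v.eval z ≠ 0 := fun h => hv' (dvd_iff_isRoot.2 h)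
  have h5 : ((α : ℂ) - β) * (u.eval z * v.eval z) = 0 := by linear_combination -h4
  rcases mul_eq_zero.1 h5 with h6 | h6
  · exact_mod_cast sub_eq_zero.1 h6
  · exact absurd h6 (mul_ne_zero hu0 hv0)

/-- Square roots of polynomials whose pairwise products are not squares are linearly
independent over the polynomial ring. -/
theorem indep_sqrt {ι : Type} [DecidableEq ι] (f : ι → PowerSeries ℂ) (P : ι → ℂ[X])
    (s : Finset ι) (hf : ∀ i ∈ s, f i ^ 2 = (P i : PowerSeries ℂ)) (hP0 : ∀ i ∈ s, P i ≠ 0)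
    (hP : ∀ i ∈ s, ∀ j ∈ s, i ≠ j →
      ∃ z, Odd ((P i).rootMultiplicity z + (P j).rootMultiplicity z))
    (a : ι → ℂ[X]) (h : ∑ i ∈ s, (a i : PowerSeries ℂ) * f i = 0) : ∀ i ∈ s, a i = 0 := by
  induction s using Finset.induction_on generalizing a with
  | empty => simp
  | insert i₀ s hi₀ ih =>
    have ih' := ih (fun i hi => hf i (mem_insert_of_mem hi)) (fun i hi => hP0 i (mem_insert_of_mem hi))
      (fun i hi j hj => hP i (mem_insert_of_mem hi) j (mem_insert_of_mem hj))
    have hf0 : f i₀ ≠ 0 := by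
      intro h0
      have h1 := hf i₀ (mem_insert_self _ _)
      rw [h0, zero_pow two_ne_zero] at h1
      exact hP0 i₀ (mem_insert_self _ _) (Polynomial.coe_eq_zero_iff.1 h1.symm)
    have hrest : ∀ i ∈ s, a i = 0 := by
      by_cases ha0 : a i₀ = 0
      · rw [sum_insert hi₀, ha0, Polynomial.coe_zero, zero_mul, zero_add] at h
        exact ih' a h
      set Pi : ℂ[X] := ∏ j ∈ insert i₀ s, P j with hPi
      have hPi0 : Pi ≠ 0 := prod_ne_zero_iff.2 hP0
      have hR : ∀ i, ∃ R : ℂ[X], i ∈ insert i₀ s → Pi = P i * R := by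
        intro i
        by_cases hi : i ∈ insert i₀ s
        · obtain ⟨R, hR⟩ := dvd_prod_of_mem P hi
          exact ⟨R, fun _ => hR⟩
        · exact ⟨0, fun h => absurd h hi⟩
      choose R hR using hR
      set A : ι → ℂ[X] := fun i => 2 * Pi * derivative (a i) + R i * derivative (P i) * a i with hA
      have hder : ∀ i ∈ insert i₀ s, (A i : PowerSeries ℂ) * f i =
          2 * (Pi : PowerSeries ℂ) * PowerSeries.derivative ℂ ((a i : PowerSeries ℂ) * f i) := by
        intro i hi
        have e1 := congrArg (PowerSeries.derivative ℂ) (hf i hi)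
        rw [Derivation.leibniz_pow, PowerSeries.derivative_coe] at e1
        rw [Derivation.leibniz, PowerSeries.derivative_coe]
        simp only [hA, hR i hi, Polynomial.coe_add, Polynomial.coe_mul, smul_eq_mul, nsmul_eq_mul,
          Nat.cast_ofNat] at e1 ⊢
        have e2 : ((2 : ℂ[X]) : PowerSeries ℂ) = 2 := by
          rw [← one_add_one_eq_two, Polynomial.coe_add, Polynomial.coe_one, one_add_one_eq_two]
        rw [e2, ← hf i hi, ← e1]
        ring
      have hsumA : ∑ i ∈ insert i₀ s, (A i : PowerSeries ℂ) * f i = 0 := by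
        rw [sum_congr rfl hder, ← mul_sum, ← map_sum, h, map_zero, mul_zero]
      have hcomb : ∑ i ∈ s, ((a i₀ * A i - A i₀ * a i : ℂ[X]) : PowerSeries ℂ) * f i = 0 := by
        have e1 : ∑ i ∈ insert i₀ s, ((a i₀ * A i - A i₀ * a i : ℂ[X]) : PowerSeries ℂ) * f i =
            (a i₀ : PowerSeries ℂ) * ∑ i ∈ insert i₀ s, (A i : PowerSeries ℂ) * f i -
              (A i₀ : PowerSeries ℂ) * ∑ i ∈ insert i₀ s, (a i : PowerSeries ℂ) * f i := by
          rw [mul_sum, mul_sum, ← sum_sub_distrib]
          refine sum_congr rfl fun i _ => ?_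
          rw [Polynomial.coe_sub, Polynomial.coe_mul, Polynomial.coe_mul]
          ring
        rw [hsumA, h, mul_zero, mul_zero, sub_zero, sum_insert hi₀, mul_comm (A i₀), sub_self,
          Polynomial.coe_zero, zero_mul, zero_add] at e1
        exact e1
      have hz := ih' _ hcomb
      intro i hi
      by_contra hai
      have hi' : i ∈ insert i₀ s := mem_insert_of_mem hi
      have hi0 : i₀ ∈ insert i₀ s := mem_insert_self _ _
      have e0 := hz i hi
      have hW : (a i₀ ^ 2 * P i₀) * derivative (a i ^ 2 * P i) =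
          (a i ^ 2 * P i) * derivative (a i₀ ^ 2 * P i₀) := by
        refine mul_left_cancel₀ hPi0 ?_
        have r1 := hR i hi'
        have r0 := hR i₀ hi0
        simp only [hA] at e0
        simp only [derivative_mul, derivative_sq, map_ofNat]
        linear_combination (P i₀ * P i * a i₀ * a i) * e0 +
          (a i₀ ^ 2 * P i₀ * derivative (P i) * a i ^ 2) * r1 -
          (a i ^ 2 * P i * derivative (P i₀) * a i₀ ^ 2) * r0
      obtain ⟨z, hz'⟩ := hP i₀ hi0 i hi' (fun e => hi₀ (e ▸ hi))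
      have n0 : a i₀ ^ 2 * P i₀ ≠ 0 := mul_ne_zero (pow_ne_zero _ ha0) (hP0 _ hi0)
      have n1 : a i ^ 2 * P i ≠ 0 := mul_ne_zero (pow_ne_zero _ hai) (hP0 _ hi')
      have hm := rootMultiplicity_eq_of_wronskian n0 n1 hW z
      rw [rootMultiplicity_mul n0, rootMultiplicity_mul n1, sq, sq,
        rootMultiplicity_mul (mul_ne_zero ha0 ha0), rootMultiplicity_mul (mul_ne_zero hai hai)] at hm
      obtain ⟨w, hw⟩ := hz'
      omega
    intro i hi
    rcases mem_insert.1 hi with rfl | hi
    · rw [sum_insert hi₀, sum_eq_zero fun j hj => by rw [hrest j hj, Polynomial.coe_zero, zero_mul],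
        add_zero] at h
      exact Polynomial.coe_eq_zero_iff.1 ((mul_eq_zero.1 h).resolve_right hf0)
    · exact hrest i hi

end Pool.Agent.Lib.MP_234657_nt
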