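import Pool.Agent.Lib.MP_234657_nt.Tri
import Pool.Agent.Lib.MP_234657_nt.Indep

namespace Pool.Agent.Lib.MP_234657_nt

open Finset Polynomial

/-- The coefficient of `X ^ e` in `((1 + (D - M) X) (1 - M X)) ^ (e + r)`. -/
noncomputable def cf (R : Type) [CommRing R] (D r M e : ℕ) : R :=
  (tri (1 : R) ((D : R) - 2 * M) (-((M : R) * (D - M))) ^ (e + r)).coeff e

theorem eval_Del (ζ a b D z : ℂ) (h : a ^ 2 - 4 * b = D ^ 2) :
    (Del ζ (ζ * a) (ζ * b)).eval z = 1 - 2 * a * (ζ * z) + D ^ 2 * (ζ * z) ^ 2 := by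
  simp only [Del, eval_sub, eval_pow, eval_mul, eval_C, eval_X, eval_one]
  linear_combination (ζ * z) ^ 2 * h

theorem eval_derivative_Del (ζ a b D z : ℂ) (h : a ^ 2 - 4 * b = D ^ 2) :
    (derivative (Del ζ (ζ * a) (ζ * b))).eval z = 2 * ζ * (D ^ 2 * (ζ * z) - a) := by
  simp only [Del, derivative_sub, derivative_sq, derivative_mul, derivative_C, derivative_X,
    derivative_one, eval_sub, eval_add, eval_mul, eval_C, eval_X, eval_one, eval_zero]
  linear_combination 2 * ζ * (ζ * z) * h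

theorem Del_ne_zero (c a b : ℂ) : Del c a b ≠ 0 := by
  intro h
  have := congrArg (eval 0) h
  simp [Del] at this

theorem exists_simple_root (ζ a b D : ℂ) (h : a ^ 2 - 4 * b = D ^ 2) (hζ : ζ ≠ 0) (hD : D ≠ 0)
    (ha : a ^ 2 ≠ D ^ 2) : ∃ z, (Del ζ (ζ * a) (ζ * b)).eval z = 0 ∧
      (Del ζ (ζ * a) (ζ * b)).rootMultiplicity z = 1 := by
  obtain ⟨s, hs⟩ := IsAlgClosed.exists_eq_mul_self (a ^ 2 - D ^ 2)
  have e : ζ * ((a + s) / D ^ 2 / ζ) = (a + s) / D ^ 2 := by field_simp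
  have h0 : (Del ζ (ζ * a) (ζ * b)).eval ((a + s) / D ^ 2 / ζ) = 0 := by
    rw [eval_Del ζ a b D _ h, e]
    field_simp
    linear_combination -hs
  refine ⟨_, h0, le_antisymm ?_ ((rootMultiplicity_pos (Del_ne_zero _ _ _)).2 h0)⟩
  by_contra hlt
  have h1 := ((one_lt_rootMultiplicity_iff_isRoot (Del_ne_zero _ _ _)).1 (not_le.1 hlt)).2
  rw [IsRoot, eval_derivative_Del ζ a b D _ h, e] at h1
  have e2 : D ^ 2 * ((a + s) / D ^ 2) - a = s := by field_simp; ring
  rw [e2] at h1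
  have hs0 : s = 0 := by simpa [hζ] using h1
  apply ha
  rw [hs0] at hs
  linear_combination hs

theorem no_common_root (a a' D : ℕ) (ha : Odd a) (ha' : Odd a') (hD : Odd D) (ζ ζ' z : ℂ)
    (hζ : ζ ^ 4 = 1) (hζ' : ζ' ^ 4 = 1) (hne : ζ = ζ' → a ≠ a')
    (h1 : 1 - 2 * (a : ℂ) * (ζ * z) + (D : ℂ) ^ 2 * (ζ * z) ^ 2 = 0)
    (h2 : 1 - 2 * (a' : ℂ) * (ζ' * z) + (D : ℂ) ^ 2 * (ζ' * z) ^ 2 = 0) : False := by
  have hz : z ≠ 0 := by
    rintro rfl
    simp at h1
  have hζ0 : ζ ≠ 0 := by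
    rintro rfl
    simp at hζ
  have h4 : (ζ - ζ') * (ζ + ζ') * (ζ ^ 2 + ζ' ^ 2) = 0 := by linear_combination hζ - hζ'
  rcases mul_eq_zero.1 h4 with h5 | h5
  · rcases mul_eq_zero.1 h5 with h6 | h6
    · have e : ζ = ζ' := sub_eq_zero.1 h6
      subst e
      have h7 : ((a : ℂ) - a') * (2 * ζ * z) = 0 := by linear_combination h2 - h1
      have h8 := (mul_eq_zero.1 h7).resolve_right (mul_ne_zero (mul_ne_zero two_ne_zero hζ0) hz)
      exact hne rfl (by exact_mod_cast sub_eq_zero.1 h8)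
    · have e : ζ' = -ζ := by linear_combination h6
      subst e
      have h7 : ((a : ℂ) + a') * (2 * ζ * z) = 0 := by linear_combination h2 - h1
      have h8 := (mul_eq_zero.1 h7).resolve_right (mul_ne_zero (mul_ne_zero two_ne_zero hζ0) hz)
      have h9 : a + a' = 0 := by exact_mod_cast h8
      obtain ⟨u, rfl⟩ := ha
      omega
  · have e1 : ((a : ℂ) * ζ + a' * ζ') * z = 1 := by
      linear_combination (-1 / 2) * (h1 + h2) + ((D : ℂ) ^ 2 * z ^ 2 / 2) * h5
    have e2 : ((D : ℂ) ^ 2 * ζ ^ 2 * z - (a * ζ - a' * ζ')) * z = 0 := by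
      linear_combination (1 / 2) * (h1 - h2) + ((D : ℂ) ^ 2 * z ^ 2 / 2) * h5
    have e3 := (mul_eq_zero.1 e2).resolve_right hz
    have e4 : ((D : ℂ) ^ 2 - a ^ 2 - a' ^ 2) * ζ ^ 2 = 0 := by
      linear_combination ((a : ℂ) * ζ + a' * ζ') * e3 - (D : ℂ) ^ 2 * ζ ^ 2 * e1 - (a' : ℂ) ^ 2 * h5
    have e5 := (mul_eq_zero.1 e4).resolve_right (pow_ne_zero _ hζ0)
    have e6 : D ^ 2 = a ^ 2 + a' ^ 2 := by
      have : ((D : ℂ)) ^ 2 = a ^ 2 + a' ^ 2 := by linear_combination e5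
      exact_mod_cast this
    obtain ⟨u, rfl⟩ := ha
    obtain ⟨u', rfl⟩ := ha'
    obtain ⟨v, rfl⟩ := hD
    have e7 : 4 * (v * v + v) + 1 = 4 * (u * u + u + u' * u' + u') + 2 := by
      linear_combination e6
    omega

theorem sum_I_pow (n : ℕ) (h : ¬ 4 ∣ n) : ∑ j ∈ range 4, (Complex.I ^ j) ^ n = 0 := by
  have h4 : ∀ j : ℕ, (Complex.I ^ j) ^ n = (Complex.I ^ j) ^ (n % 4) := by
    intro j
    conv_lhs => rw [← Nat.div_add_mod n 4, pow_add, pow_mul, ← pow_mul Complex.I j 4, mul_comm j 4,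
      pow_mul, Complex.I_pow_four, one_pow, one_pow, one_mul]
  rw [sum_congr rfl fun j _ => h4 j]
  have : n % 4 = 1 ∨ n % 4 = 2 ∨ n % 4 = 3 := by omega
  rcases this with h1 | h1 | h1 <;> rw [h1] <;> simp [sum_range_succ, pow_succ]

theorem I_pow_inj {j j' : ℕ} (hj : j < 4) (hj' : j' < 4) (h : Complex.I ^ j = Complex.I ^ j') :
    j = j' := by
  interval_cases j <;> interval_cases j' <;> first | rfl | (exfalso; revert h; norm_num [Complex.ext_iff, pow_succ])

theorem tri_smul (ζ a b : ℂ) : tri ζ (ζ * a) (ζ * b) = C ζ * tri 1 a b := by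
  simp only [tri, map_mul, map_one]
  ring

theorem ap_core (D r e₀ : ℕ) (hD : Odd D) (he₀ : e₀ < 4) (A : Finset ℕ)
    (hA : ∀ M ∈ A, 0 < M ∧ 2 * M < D) (w : ℕ → ℂ)
    (h : ∀ t, ∑ M ∈ A, w M * cf ℂ D r M (e₀ + 4 * t) = 0) : ∀ M ∈ A, w M = 0 := by
  classical
  set a : ℕ → ℂ := fun M => (D : ℂ) - 2 * M with ha
  set b : ℕ → ℂ := fun M => -((M : ℂ) * (D - M)) with hb
  have hab : ∀ M, a M ^ 2 - 4 * b M = (D : ℂ) ^ 2 := fun M => by simp only [ha, hb]; ring
  have hb0 : ∀ M ∈ A, b M ≠ 0 := by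
    intro M hM
    obtain ⟨h1, h2⟩ := hA M hM
    refine neg_ne_zero.2 (mul_ne_zero (by exact_mod_cast h1.ne') (sub_ne_zero.2 ?_))
    exact_mod_cast (by omega : D ≠ M)
  have hI : ∀ j : ℕ, Complex.I ^ j ≠ 0 := fun j => pow_ne_zero _ Complex.I_ne_zero
  set S := A ×ˢ range 4 with hS
  set G : ℕ × ℕ → ℕ → PowerSeries ℂ := fun i n =>
    GG (Complex.I ^ i.2) (Complex.I ^ i.2 * a i.1) (Complex.I ^ i.2 * b i.1) n with hG
  set Δ : ℕ × ℕ → ℂ[X] := fun i =>
    Del (Complex.I ^ i.2) (Complex.I ^ i.2 * a i.1) (Complex.I ^ i.2 * b i.1) with hΔ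
  set κ : ℕ × ℕ → ℂ := fun i => w i.1 * (Complex.I ^ i.2) ^ (3 * (e₀ + r)) with hκ
  have R0 : ∑ i ∈ S, PowerSeries.C (κ i) * G i r = 0 := by
    ext N
    rw [map_sum, hS, sum_product, map_zero]
    have e1 : ∀ M ∈ A, ∑ j ∈ range 4, PowerSeries.coeff N (PowerSeries.C (κ (M, j)) * G (M, j) r) =
        (∑ j ∈ range 4, (Complex.I ^ j) ^ (3 * (e₀ + r) + N)) *
          (w M * (X ^ r * tri 1 (a M) (b M) ^ N).coeff N) := by
      intro M _
      rw [sum_mul]
      refine sum_congr rfl fun j _ => ?_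
      simp only [PowerSeries.coeff_C_mul, hκ, hG, GG, PowerSeries.coeff_mk]
      rw [tri_smul, mul_pow, ← C_pow, mul_left_comm (X ^ r), coeff_C_mul, pow_add]
      ring
    rw [sum_congr rfl e1, ← mul_sum]
    by_cases h4 : 4 ∣ 3 * (e₀ + r) + N
    · refine mul_eq_zero_of_right _ ?_
      rcases Nat.lt_or_ge N r with hN | hN
      · refine sum_eq_zero fun M _ => ?_
        rw [coeff_X_pow_mul', if_neg (by omega), mul_zero]
      · obtain ⟨t, ht⟩ : ∃ t, N = e₀ + 4 * t + r := ⟨(N - r - e₀) / 4, by omega⟩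
        rw [← h t]
        refine sum_congr rfl fun M _ => ?_
        rw [coeff_X_pow_mul', if_pos hN, ht, Nat.add_sub_cancel]
        rfl
    · rw [sum_I_pow _ h4, zero_mul]
  have hUV := fun i : ℕ × ℕ =>
    GG_closed (Complex.I ^ i.2) (Complex.I ^ i.2 * a i.1) (Complex.I ^ i.2 * b i.1) r
  choose U V hU hUV using hUV
  set Pi : ℂ[X] := ∏ i ∈ S, Δ i with hPi
  have hPi0 : Pi ≠ 0 := prod_ne_zero_iff.2 fun i _ => Del_ne_zero _ _ _
  have hR : ∀ i, ∃ R : ℂ[X], i ∈ S → Pi = Δ i * R := by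
    intro i
    by_cases hi : i ∈ S
    · obtain ⟨R, hR⟩ := dvd_prod_of_mem Δ hi
      exact ⟨R, fun _ => hR⟩
    · exact ⟨0, fun h => absurd h hi⟩
  choose R hR using hR
  set κ' : ℕ × ℕ → ℂ := fun i => κ i / (2 * (Complex.I ^ i.2 * b i.1)) ^ r with hκ'
  have hden : ∀ i ∈ S, (2 * (Complex.I ^ i.2 * b i.1)) ^ r ≠ 0 := fun i hi =>
    pow_ne_zero _ (mul_ne_zero two_ne_zero (mul_ne_zero (hI _) (hb0 _ (mem_product.1 hi).1)))
  have hsimple : ∀ i ∈ S, ∃ z, (Δ i).eval z = 0 ∧ (Δ i).rootMultiplicity z = 1 := by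
    intro i hi
    obtain ⟨h1, h2⟩ := hA _ (mem_product.1 hi).1
    refine exists_simple_root _ _ _ _ (hab _) (hI _) (by exact_mod_cast (by omega : D ≠ 0)) ?_
    intro e
    apply hb0 _ (mem_product.1 hi).1
    linear_combination (e - hab i.1) / 4
  have hone : ∀ z : ℂ, rootMultiplicity z (1 : ℂ[X]) = 0 := fun z => by
    rw [← C_1, rootMultiplicity_C]
  have key := indep_sqrt (ι := Option (ℕ × ℕ))
    (fun o => o.elim 1 fun i => (Δ i : PowerSeries ℂ) * G i 0) (fun o => o.elim 1 Δ)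
    (insertNone S) ?_ ?_ ?_
    (fun o => o.elim (-∑ i ∈ S, C (κ' i) * V i * Pi) fun i => C (κ' i) * R i * U i) ?_
  · intro M hM
    have hi : (M, 0) ∈ S := mem_product.2 ⟨hM, by simp⟩
    have h1 := key (some (M, 0)) (by simpa using hi)
    have hR0 : R (M, 0) ≠ 0 := fun e => hPi0 (by rw [hR _ hi, e, mul_zero])
    have hU0 : U (M, 0) ≠ 0 := fun e => hU (M, 0) (by rw [e, coeff_zero])
    simp only [Option.elim_some, mul_eq_zero, hR0, hU0, or_false, C_eq_zero] at h1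
    have h2 := (div_eq_zero_iff.1 h1).resolve_right (hden _ hi)
    simpa [hκ] using h2
  · rintro (_ | i) _
    · simp
    · have e := Del_mul_sq (Complex.I ^ i.2) (Complex.I ^ i.2 * a i.1) (Complex.I ^ i.2 * b i.1) (hI _)
      simp only [Option.elim_some]
      linear_combination (Δ i : PowerSeries ℂ) * e
  · rintro (_ | i) _
    · simp
    · exact Del_ne_zero _ _ _
  · rintro (_ | i) hi (_ | j) hj hij
    · exact absurd rfl hij
    · obtain ⟨z, _, hz⟩ := hsimple j (by simpa using hj)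
      exact ⟨z, by simp [hz, hone]⟩
    · obtain ⟨z, _, hz⟩ := hsimple i (by simpa using hi)
      exact ⟨z, by simp [hz, hone]⟩
    · have hi' : i ∈ S := by simpa using hi
      have hj' : j ∈ S := by simpa using hj
      obtain ⟨z, hz0, hz⟩ := hsimple i hi'
      refine ⟨z, ?_⟩
      have hj0 : (Δ j).rootMultiplicity z = 0 := by
        refine rootMultiplicity_eq_zero fun hroot => ?_
        obtain ⟨i1, i2⟩ := hA _ (mem_product.1 hi').1
        obtain ⟨j1, j2⟩ := hA _ (mem_product.1 hj').1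
        have c1 : ((D - 2 * i.1 : ℕ) : ℂ) = a i.1 := by
          rw [Nat.cast_sub i2.le]; simp [ha]
        have c2 : ((D - 2 * j.1 : ℕ) : ℂ) = a j.1 := by
          rw [Nat.cast_sub j2.le]; simp [ha]
        have p4 : ∀ n : ℕ, (Complex.I ^ n) ^ 4 = 1 := fun n => by
          rw [← pow_mul, mul_comm, pow_mul, Complex.I_pow_four, one_pow]
        obtain ⟨v, hv⟩ := hD
        refine no_common_root (D - 2 * i.1) (D - 2 * j.1) D ⟨v - i.1, by omega⟩ ⟨v - j.1, by omega⟩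
          ⟨v, hv⟩ (Complex.I ^ i.2) (Complex.I ^ j.2) z (p4 _) (p4 _) ?_ ?_ ?_
        · intro e1 e2
          apply hij
          have f2 := I_pow_inj (mem_range.1 (mem_product.1 hi').2) (mem_range.1 (mem_product.1 hj').2) e1
          have f1 : i.1 = j.1 := by omega
          rw [Prod.ext f1 f2]
        · rw [c1, ← eval_Del _ _ _ _ _ (hab _)]
          exact hz0
        · rw [c2, ← eval_Del _ _ _ _ _ (hab _)]
          exact hroot
      simp [hz, hj0]
  · rw [sum_insertNone]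
    simp only [Option.elim_none, Option.elim_some, mul_one]
    have e1 : ∀ i ∈ S, ((C (κ' i) * R i * U i : ℂ[X]) : PowerSeries ℂ) *
        ((Δ i : PowerSeries ℂ) * G i 0) = ((C (κ' i) * V i * Pi : ℂ[X]) : PowerSeries ℂ) +
          (PowerSeries.X ^ r * (Pi : PowerSeries ℂ)) * (PowerSeries.C (κ i) * G i r) := by
      intro i hi
      have e2 := hUV i
      have e3 : PowerSeries.C (κ i) = PowerSeries.C (κ' i) *
          PowerSeries.C (2 * (Complex.I ^ i.2 * b i.1)) ^ r := by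
        rw [← map_pow, ← map_mul]
        congr 1
        exact (div_mul_cancel₀ _ (hden i hi)).symm
      rw [mul_pow] at e2
      rw [e3, hR i hi]
      simp only [Polynomial.coe_mul, Polynomial.coe_C]
      linear_combination -(PowerSeries.C (κ' i) * (Δ i : PowerSeries ℂ) * (R i : PowerSeries ℂ)) * e2
    rw [sum_congr rfl e1, sum_add_distrib, ← mul_sum, R0, mul_zero, add_zero, Polynomial.coe_neg]
    have e4 := map_sum (Polynomial.coeToPowerSeries.ringHom (R := ℂ))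
      (fun i => C (κ' i) * V i * Pi) S
    simp only [Polynomial.coeToPowerSeries.ringHom_apply] at e4
    rw [e4, neg_add_cancel]

theorem cf_symm (D r M e : ℕ) (hM : M ≤ D) : cf ℂ D r (D - M) e = (-1) ^ e * cf ℂ D r M e := by
  have e1 : tri (1 : ℂ) ((D : ℂ) - 2 * ((D - M : ℕ) : ℂ))
      (-(((D - M : ℕ) : ℂ) * (D - ((D - M : ℕ) : ℂ)))) =
      (tri (1 : ℂ) ((D : ℂ) - 2 * M) (-((M : ℂ) * (D - M)))).comp (C (-1) * X) := by
    rw [Nat.cast_sub hM]
    simp only [tri, add_comp, mul_comp, C_comp, X_comp, pow_comp, map_sub, map_mul, map_neg,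
      map_one, map_ofNat, sub_comp, neg_comp, one_comp, ofNat_comp]
    ring
  rw [cf, cf, e1, ← pow_comp, comp_C_mul_X_coeff, mul_comm]

theorem ap_indep (D r e₀ : ℕ) (hD : Odd D) (he₀ : e₀ < 4) (w : ℕ → ℂ)
    (h : ∀ t, ∑ M ∈ Ioo 0 D, w M * cf ℂ D r M (e₀ + 4 * t) = 0) :
    ∀ M, 0 < M → 2 * M < D → w M + (-1) ^ e₀ * w (D - M) = 0 := by
  set A := (Ioo 0 D).filter fun M => 2 * M < D with hA
  have key := ap_core D r e₀ hD he₀ A (fun M hM => by
    simp only [hA, mem_filter, mem_Ioo] at hM; exact ⟨hM.1.1, hM.2⟩)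
    (fun M => w M + (-1) ^ e₀ * w (D - M)) ?_
  · intro M h0 h1
    exact key M (by simp only [hA, mem_filter, mem_Ioo]; omega)
  · intro t
    rw [← h t, ← sum_filter_add_sum_filter_not (Ioo 0 D) fun M => 2 * M < D]
    simp only [add_mul, sum_add_distrib]
    congr 1
    obtain ⟨v, hv⟩ := hD
    refine sum_bij' (fun M _ => D - M) (fun M _ => D - M) ?_ ?_ ?_ ?_ ?_
    · intro M hM
      simp only [hA, mem_filter, mem_Ioo] at hM ⊢
      omega
    · intro M hM
      simp only [hA, mem_filter, mem_Ioo] at hM ⊢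
      omega
    · intro M hM
      simp only [hA, mem_filter, mem_Ioo] at hM
      omega
    · intro M hM
      simp only [mem_filter, mem_Ioo] at hM
      omega
    · intro M hM
      simp only [hA, mem_filter, mem_Ioo] at hM
      rw [cf_symm D r M _ (by omega), pow_add, pow_mul]
      norm_num
      ring

end Pool.Agent.Lib.MP_234657_nt
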