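import Mathlib

namespace Pool.Agent.Lib.MP_234657_nt

open Finset Polynomial

variable {D : ℕ}

/-- Twisted divisor sum. -/
noncomputable def sg (κ : ℕ) (χ : DirichletCharacter ℂ D) (n : ℕ) : ℂ :=
  ∑ d ∈ n.divisors, χ ((n / d : ℕ) : ZMod D) * (d : ℂ) ^ κ

/-- Logarithm of `1 + w + ... + w ^ a`. -/
noncomputable def ell (w : ℂ) (a : ℕ) : ℂ := Complex.log (1 - w ^ (a + 1)) - Complex.log (1 - w)

/-- Logarithm of the normalised twisted divisor sum. -/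
noncomputable def Lam (κ : ℕ) (χ : DirichletCharacter ℂ D) (n : ℕ) : ℂ :=
  n.factorization.sum fun p a => ell (χ (p : ZMod D) / (p : ℂ) ^ κ) a

theorem sg_mul (κ : ℕ) (χ : DirichletCharacter ℂ D) {m n : ℕ} (h : Nat.Coprime m n) :
    sg κ χ (m * n) = sg κ χ m * sg κ χ n := by
  have hm := (χ.isMultiplicative_toArithmeticFunction.mul
    (ArithmeticFunction.isMultiplicative_pow (k := κ)).natCast).map_mul_of_coprime h
  have e : ∀ n, (toArithmeticFunction (fun n : ℕ => χ n) *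
      ((ArithmeticFunction.pow κ : ArithmeticFunction ℕ) : ArithmeticFunction ℂ)) n = sg κ χ n := by
    intro n
    rw [ArithmeticFunction.mul_apply, Nat.sum_divisorsAntidiagonal' (f := fun a b =>
      toArithmeticFunction (fun n : ℕ => χ n) a *
        ((ArithmeticFunction.pow κ : ArithmeticFunction ℕ) : ArithmeticFunction ℂ) b)]
    refine sum_congr rfl fun d hd => ?_
    have hd0 : d ≠ 0 := (Nat.pos_of_mem_divisors hd).ne'
    have hn0 : n / d ≠ 0 := (Nat.div_pos (Nat.divisor_le hd) (Nat.pos_of_mem_divisors hd)).ne'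
    simp [toArithmeticFunction, hd0, hn0]
  rwa [e, e, e] at hm

theorem Lam_mul (κ : ℕ) (χ : DirichletCharacter ℂ D) {m n : ℕ} (h : Nat.Coprime m n) :
    Lam κ χ (m * n) = Lam κ χ m + Lam κ χ n := by
  rw [Lam, Nat.factorization_mul_of_coprime h]
  exact Finsupp.sum_add_index_of_disjoint h.disjoint_primeFactors _

theorem Lam_prime_pow (κ : ℕ) (χ : DirichletCharacter ℂ D) {p : ℕ} (hp : p.Prime) (a : ℕ) :
    Lam κ χ (p ^ a) = ell (χ (p : ZMod D) / (p : ℂ) ^ κ) a := by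
  rw [Lam, hp.factorization_pow, Finsupp.sum_single_index (by simp [ell])]

theorem norm_w_le {κ : ℕ} (hκ : 2 ≤ κ) (χ : DirichletCharacter ℂ D) {p : ℕ} (hp : 1 ≤ p) :
    ‖χ (p : ZMod D) / (p : ℂ) ^ κ‖ ≤ ((p : ℝ) ^ 2)⁻¹ := by
  have hp' : (1 : ℝ) ≤ p := by exact_mod_cast hp
  rw [norm_div, norm_pow, Complex.norm_natCast, div_eq_mul_inv]
  calc ‖χ (p : ZMod D)‖ * ((p : ℝ) ^ κ)⁻¹ ≤ 1 * ((p : ℝ) ^ 2)⁻¹ := by
        refine mul_le_mul (χ.norm_le_one _) ?_ (by positivity) zero_le_one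
        exact inv_anti₀ (by positivity) (pow_le_pow_right₀ hp' hκ)
    _ = _ := one_mul _

theorem inv_sq_le_quarter {p : ℕ} (hp : 2 ≤ p) : ((p : ℝ) ^ 2)⁻¹ ≤ 1 / 4 := by
  have hp' : (2 : ℝ) ≤ p := by exact_mod_cast hp
  rw [one_div]
  exact inv_anti₀ (by norm_num) (by nlinarith)

theorem one_sub_ne_zero {w : ℂ} (h : ‖w‖ < 1) : 1 - w ≠ 0 := by
  intro e
  rw [← sub_eq_zero.1 e, norm_one] at h
  exact lt_irrefl _ h

theorem sg_eq_exp {κ : ℕ} (hκ : 2 ≤ κ) (χ : DirichletCharacter ℂ D) (n : ℕ) :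
    n ≠ 0 → sg κ χ n = (n : ℂ) ^ κ * Complex.exp (Lam κ χ n) := by
  induction n using Nat.recOnPosPrimePosCoprime with
  | zero => exact fun h => absurd rfl h
  | one => simp [sg, Lam]
  | coprime a b ha hb hab iha ihb =>
    intro _
    rw [sg_mul κ χ hab, Lam_mul κ χ hab, iha (by omega), ihb (by omega), Complex.exp_add]
    push_cast
    ring
  | prime_pow p a hp ha =>
    intro _
    have hw := (norm_w_le hκ χ hp.one_le).trans (inv_sq_le_quarter hp.two_le)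
    have hw1 : ‖χ (p : ZMod D) / (p : ℂ) ^ κ‖ < 1 := by linarith
    have hw2 : ‖(χ (p : ZMod D) / (p : ℂ) ^ κ) ^ (a + 1)‖ < 1 := by
      rw [norm_pow]
      exact pow_lt_one₀ (norm_nonneg _) hw1 (Nat.succ_ne_zero a)
    have n1 := one_sub_ne_zero hw1
    rw [Lam_prime_pow κ χ hp, ell, Complex.exp_sub, Complex.exp_log (one_sub_ne_zero hw2),
      Complex.exp_log n1, sg, Nat.sum_divisors_prime_pow hp]
    have e1 : ∑ i ∈ range (a + 1), χ ((p ^ a / p ^ i : ℕ) : ZMod D) * ((p ^ i : ℕ) : ℂ) ^ κ =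
        ∑ i ∈ range (a + 1), ((p : ℂ) ^ κ) ^ i * χ (p : ZMod D) ^ (a + 1 - 1 - i) := by
      refine sum_congr rfl fun i hi => ?_
      rw [Nat.pow_div (by simp only [mem_range] at hi; omega) hp.pos, Nat.add_sub_cancel]
      push_cast
      rw [map_pow]
      ring
    have e2 := geom_sum₂_mul ((p : ℂ) ^ κ) (χ (p : ZMod D)) (a + 1)
    have hP : (p : ℂ) ^ κ ≠ 0 := pow_ne_zero _ (by exact_mod_cast hp.ne_zero)
    have e3 : ((p ^ a : ℕ) : ℂ) ^ κ = ((p : ℂ) ^ κ) ^ a := by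
      push_cast
      ring
    rw [e1, e3]
    generalize (p : ℂ) ^ κ = P at e2 hP n1 ⊢
    generalize χ (p : ZMod D) = z at e2 n1 ⊢
    have n2 : P - z ≠ 0 := by
      intro e
      apply n1
      rw [← sub_eq_zero.1 e, div_self hP, sub_self]
    rw [eq_div_of_mul_eq n2 e2, div_pow]
    field_simp
    ring

theorem sum_inv_sq_le (S : Finset ℕ) (hS : ∀ i ∈ S, 2 ≤ i) :
    ∑ i ∈ S, ((i : ℝ) ^ 2)⁻¹ ≤ 3 / 4 := by
  have h1 : S ⊆ insert 2 (Ioc 2 (max 2 (S.sup id))) := by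
    intro i hi
    have h2 := hS i hi
    have h3 : i ≤ S.sup id := le_sup (f := id) hi
    simp only [mem_insert, mem_Ioc]
    omega
  have h2 := sum_Ioc_inv_sq_le_sub (α := ℝ) (k := 2) two_ne_zero (le_max_left 2 (S.sup id))
  have h3 : (0 : ℝ) ≤ ((max 2 (S.sup id) : ℕ) : ℝ)⁻¹ := by positivity
  refine (sum_le_sum_of_subset_of_nonneg h1 fun i _ _ => by positivity).trans ?_
  rw [sum_insert (by simp)]
  have e1 : (((2 : ℕ) : ℝ) ^ 2)⁻¹ = 1 / 4 := by norm_num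
  have e2 : ((2 : ℕ) : ℝ)⁻¹ = 1 / 2 := by norm_num
  linarith

theorem norm_ell_le {w : ℂ} (hw : ‖w‖ ≤ 1 / 4) {a : ℕ} (ha : a ≠ 0) :
    ‖ell w a‖ ≤ 15 / 8 * ‖w‖ := by
  have h0 := norm_nonneg w
  have h1 : ‖w ^ (a + 1)‖ ≤ ‖w‖ / 4 := by
    rw [norm_pow, pow_succ]
    have : ‖w‖ ^ a ≤ ‖w‖ ^ 1 := pow_le_pow_of_le_one h0 (by linarith) (by omega)
    nlinarith
  have h2 := Complex.norm_log_one_add_half_le_self (z := -w ^ (a + 1)) (by rw [norm_neg]; linarith)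
  have h3 := Complex.norm_log_one_add_half_le_self (z := -w) (by rw [norm_neg]; linarith)
  rw [norm_neg, ← sub_eq_add_neg] at h2 h3
  refine (norm_sub_le _ _).trans ?_
  linarith

theorem norm_Lam_le {κ : ℕ} (hκ : 2 ≤ κ) (χ : DirichletCharacter ℂ D) (n : ℕ) :
    ‖Lam κ χ n‖ ≤ 3 / 2 := by
  rw [Lam, Finsupp.sum]
  refine (norm_sum_le _ _).trans ?_
  have h1 : ∀ p ∈ n.factorization.support,
      ‖ell (χ (p : ZMod D) / (p : ℂ) ^ κ) (n.factorization p)‖ ≤ 15 / 8 * ((p : ℝ) ^ 2)⁻¹ := by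
    intro p hp
    have hp' := Nat.prime_of_mem_primeFactors (n := n) hp
    have h2 := norm_w_le hκ χ hp'.one_le
    have h3 := norm_ell_le (h2.trans (inv_sq_le_quarter hp'.two_le)) (Finsupp.mem_support_iff.1 hp)
    linarith
  refine (sum_le_sum h1).trans ?_
  rw [← mul_sum]
  have := sum_inv_sq_le n.factorization.support fun p hp =>
    (Nat.prime_of_mem_primeFactors (n := n) hp).two_le
  linarith

theorem Lam_im_eq {κ : ℕ} (hκ : 2 ≤ κ) (χ : DirichletCharacter ℂ D) {m n : ℕ} (hm : m ≠ 0)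
    (hn : n ≠ 0) (h : (starRingEnd ℂ (sg κ χ m) * sg κ χ n).im = 0) :
    (Lam κ χ n).im = (Lam κ χ m).im := by
  rw [sg_eq_exp hκ χ m hm, sg_eq_exp hκ χ n hn, map_mul, ← Complex.exp_conj, map_pow,
    Complex.conj_natCast] at h
  have e : (m : ℂ) ^ κ * Complex.exp (starRingEnd ℂ (Lam κ χ m)) *
      ((n : ℂ) ^ κ * Complex.exp (Lam κ χ n)) =
      (((m : ℝ) ^ κ * (n : ℝ) ^ κ : ℝ) : ℂ) * Complex.exp (starRingEnd ℂ (Lam κ χ m) + Lam κ χ n) := by
    rw [Complex.exp_add]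
    push_cast
    ring
  rw [e, Complex.im_ofReal_mul, Complex.exp_im] at h
  have hm' : (0 : ℝ) < m := by exact_mod_cast Nat.pos_of_ne_zero hm
  have hn' : (0 : ℝ) < n := by exact_mod_cast Nat.pos_of_ne_zero hn
  have h1 := (mul_eq_zero.1 h).resolve_left (by positivity)
  have h2 := (mul_eq_zero.1 h1).resolve_left (Real.exp_ne_zero _)
  rw [Complex.add_im, Complex.conj_im] at h2
  have a := abs_le.1 ((Complex.abs_im_le_norm _).trans (norm_Lam_le hκ χ m))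
  have b := abs_le.1 ((Complex.abs_im_le_norm _).trans (norm_Lam_le hκ χ n))
  have hpi := Real.pi_gt_three
  have h3 := (Real.sin_eq_zero_iff_of_lt_of_lt (by linarith [a.1, a.2, b.1, b.2])
    (by linarith [a.1, a.2, b.1, b.2])).1 h2
  linarith

theorem re_sg_pos {κ : ℕ} (hκ : 2 ≤ κ) (χ : DirichletCharacter ℂ D) {n : ℕ} (hn : n ≠ 0) :
    0 < (sg κ χ n).re := by
  have e : (n : ℂ) ^ κ = (((n : ℝ) ^ κ : ℝ) : ℂ) := by push_cast; rfl
  rw [sg_eq_exp hκ χ n hn, e, Complex.re_ofReal_mul, Complex.exp_re]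
  have hn' : (0 : ℝ) < n := by exact_mod_cast Nat.pos_of_ne_zero hn
  have a := abs_le.1 ((Complex.abs_im_le_norm _).trans (norm_Lam_le hκ χ n))
  have hpi := Real.pi_gt_three
  have := Real.cos_pos_of_mem_Ioo (x := (Lam κ χ n).im) ⟨by linarith [a.1], by linarith [a.2]⟩
  positivity

theorem galois_im (κ : ℕ) (χ : DirichletCharacter ℂ D) {N : ℕ} (hN : 2 ≤ N)
    (hχ : ∀ a, χ a = 0 ∨ χ a ^ N = 1) {s : ℕ} (hs : Nat.Coprime s N) (m n : ℕ)
    (h : (starRingEnd ℂ (sg κ χ m) * sg κ χ n).im = 0) :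
    (starRingEnd ℂ (sg κ (χ ^ s) m) * sg κ (χ ^ s) n).im = 0 := by
  have hN0 : N ≠ 0 := by omega
  have hs0 : s ≠ 0 := by
    rintro rfl
    rw [Nat.coprime_zero_left] at hs
    omega
  have : NeZero N := ⟨hN0⟩
  have hω := Complex.isPrimitiveRoot_exp N hN0
  generalize Complex.exp (2 * Real.pi * Complex.I / N) = ω at hω
  have hJ : ∀ a : ZMod D, ∃ J J' : ℤ[X], ∀ t, t ≠ 0 →
      aeval (ω ^ t) J = (χ ^ t) a ∧ aeval (ω ^ t) J' = starRingEnd ℂ ((χ ^ t) a) := by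
    intro a
    rcases hχ a with h0 | h1
    · refine ⟨0, 0, fun t ht => ?_⟩
      rw [χ.pow_apply' ht, h0, zero_pow ht]
      simp
    · obtain ⟨i, _, hi⟩ := hω.eq_pow_of_pow_eq_one h1
      refine ⟨X ^ i, X ^ ((N - 1) * i), fun t ht => ?_⟩
      rw [χ.pow_apply' ht, ← hi, map_pow, map_pow, aeval_X]
      refine ⟨by ring, ?_⟩
      have hn : ‖(ω ^ i) ^ t‖ = 1 := by
        rw [norm_pow, norm_pow, Complex.norm_eq_one_of_pow_eq_one hω.pow_eq_one hN0]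
        simp
      rw [← Complex.inv_eq_conj hn]
      refine eq_inv_of_mul_eq_one_left ?_
      obtain ⟨M, rfl⟩ : ∃ M, N = M + 1 := ⟨N - 1, by omega⟩
      have : (ω ^ t) ^ ((M + 1 - 1) * i) * (ω ^ i) ^ t = (ω ^ (M + 1)) ^ (i * t) := by
        rw [Nat.add_sub_cancel]
        ring
      rw [this, hω.pow_eq_one, one_pow]
  choose J J' hJ using hJ
  set A : ℕ → ℤ[X] := fun n => ∑ d ∈ n.divisors, J ((n / d : ℕ) : ZMod D) * (d : ℤ[X]) ^ κ with hA
  set B : ℕ → ℤ[X] := fun n => ∑ d ∈ n.divisors, J' ((n / d : ℕ) : ZMod D) * (d : ℤ[X]) ^ κ with hB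
  have key : ∀ t, t ≠ 0 → (aeval (ω ^ t) (B m * A n - A m * B n) = 0 ↔
      (starRingEnd ℂ (sg κ (χ ^ t) m) * sg κ (χ ^ t) n).im = 0) := by
    intro t ht
    have eA : ∀ n, aeval (ω ^ t) (A n) = sg κ (χ ^ t) n := by
      intro n
      simp only [hA, sg, map_sum, map_mul, map_pow, map_natCast, (hJ _ t ht).1]
    have eB : ∀ n, aeval (ω ^ t) (B n) = starRingEnd ℂ (sg κ (χ ^ t) n) := by
      intro n
      simp only [hB, sg, map_sum, map_mul, map_pow, map_natCast, (hJ _ t ht).2]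
    rw [map_sub, map_mul, map_mul, eA, eA, eB, eB, ← Complex.conj_eq_iff_im, map_mul,
      Complex.conj_conj, sub_eq_zero, eq_comm]
  have h1 := (key 1 one_ne_zero).2 (by rw [pow_one]; exact h)
  rw [pow_one] at h1
  refine (key s hs0).1 ?_
  have h2 := minpoly.isIntegrallyClosed_dvd (hω.isIntegral (Nat.pos_of_ne_zero hN0)) h1
  rw [hω.minpoly_eq_pow_coprime hs] at h2
  exact aeval_eq_zero_of_dvd_aeval_eq_zero h2 (minpoly.aeval _ _)

end Pool.Agent.Lib.MP_234657_nt
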