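import Pool.Agent.Lib.MP_234657_nt.Defs
import Pool.Agent.Lib.MP_234657_nt.APIndep

namespace Pool.Agent.Lib.MP_234657_nt

open Finset Polynomial

theorem iteratedDeriv_eval (p : ℂ[X]) (n : ℕ) :
    iteratedDeriv n (fun z => p.eval z) = fun z => (derivative^[n] p).eval z := by
  induction n with
  | zero => simp
  | succ n ih =>
    rw [iteratedDeriv_succ, ih, Function.iterate_succ_apply']
    funext z
    exact Polynomial.deriv _

theorem coeff_le_of_sphere (p : ℂ[X]) (e : ℕ) {R B : ℝ} (hR : 0 < R)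
    (h : ∀ z : ℂ, ‖z‖ = R → ‖p.eval z‖ ^ 2 ≤ B) : ‖p.coeff e‖ ^ 2 * (R ^ 2) ^ e ≤ B := by
  have hB : 0 ≤ B := (sq_nonneg _).trans (h (R : ℂ) (by simp [abs_of_pos hR]))
  have h1 := Complex.norm_iteratedDeriv_le_of_forall_mem_sphere_norm_le (c := 0) (C := √B)
    (f := fun z => p.eval z) e hR p.differentiable.diffContOnCl fun z hz =>
      Real.le_sqrt_of_sq_le (h z (by simpa using hz))
  rw [iteratedDeriv_eval] at h1
  simp only [← coeff_zero_eq_eval_zero, coeff_iterate_derivative, zero_add,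
    Nat.descFactorial_self, nsmul_eq_mul, norm_mul, Complex.norm_natCast] at h1
  have hf : (0 : ℝ) < e.factorial := by exact_mod_cast e.factorial_pos
  rw [mul_div_assoc, mul_le_mul_iff_right₀ hf, le_div_iff₀ (by positivity)] at h1
  have h2 : (‖p.coeff e‖ * R ^ e) ^ 2 ≤ √B ^ 2 := by gcongr
  rw [Real.sq_sqrt hB] at h2
  refine le_trans (le_of_eq ?_) h2
  ring

theorem coeff_one_add_C_mul_X_pow (c : ℂ) (n j : ℕ) :
    ((1 + C c * X) ^ n).coeff j = (n.choose j : ℂ) * c ^ j := by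
  have e : (1 + C c * X) ^ n = ((1 + X) ^ n).comp (C c * X) := by simp
  rw [e, comp_C_mul_X_coeff, coeff_one_add_X_pow]

theorem cc_eq_coeff (l k e : ℕ) (x y : ℂ) :
    cc l k e x y = ((1 + C (-x) * X) ^ (e + k - 1) * (1 + C y * X) ^ (e + l - 1)).coeff e := by
  rw [coeff_mul, Nat.sum_antidiagonal_eq_sum_range_succ_mk, cc]
  refine sum_congr rfl fun j _ => ?_
  rw [coeff_one_add_C_mul_X_pow, coeff_one_add_C_mul_X_pow, neg_pow x]
  ring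

theorem cc_smul (l k e : ℕ) (c x y : ℂ) : cc l k e (c * x) (c * y) = c ^ e * cc l k e x y := by
  rw [cc, cc, mul_sum]
  refine sum_congr rfl fun j hj => ?_
  have hj' : j ≤ e := by simp only [mem_range] at hj; omega
  have e1 : c ^ e = c ^ j * c ^ (e - j) := by rw [← pow_add, Nat.add_sub_cancel' hj']
  rw [e1, mul_pow, mul_pow]
  ring

theorem cc_eq_cf {k : ℕ} (hk : 1 ≤ k) (D M e : ℕ) :
    cc k k e (M : ℂ) ((D : ℂ) - M) = cf ℂ D (k - 1) M e := by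
  rw [cc_eq_coeff, cf, ← mul_pow, show e + k - 1 = e + (k - 1) by omega]
  congr 2
  simp only [tri, map_sub, map_mul, map_neg, map_one, map_ofNat]
  ring

theorem cc_zero_one (l k e : ℕ) : cc l k e 0 1 = ((e + l - 1).choose e : ℂ) := by
  rw [cc_eq_coeff]
  simp [coeff_one_add_X_pow]

theorem cc_one_zero (l k e : ℕ) : cc l k e 1 0 = (-1) ^ e * ((e + k - 1).choose e : ℂ) := by
  rw [cc_eq_coeff, map_zero, zero_mul, add_zero, one_pow, mul_one, coeff_one_add_C_mul_X_pow,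
    mul_comm]

theorem norm_cc_le {l k e m n : ℕ} (hl : 1 ≤ l) (hlk : l ≤ k) (hm : 1 ≤ m) (hn : 1 ≤ n) :
    ‖cc l k e (m : ℂ) (n : ℂ)‖ ≤ ((m + n : ℕ) : ℝ) ^ e * (2 * ((m + n : ℕ) : ℝ)) ^ k := by
  obtain ⟨α, rfl⟩ : ∃ α, l = α + 1 := ⟨l - 1, by omega⟩
  obtain ⟨β, rfl⟩ : ∃ β, k = β + 1 := ⟨k - 1, by omega⟩
  have hx : (1 : ℝ) ≤ m := by exact_mod_cast hm
  have hy : (1 : ℝ) ≤ n := by exact_mod_cast hn
  have hxy : (0 : ℝ) < (m : ℝ) * n := by positivity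
  set S : ℝ := ((m + n : ℕ) : ℝ) with hS
  have hS' : S = m + n := by rw [hS]; push_cast; rfl
  have hR : 0 < √((m : ℝ) * n)⁻¹ := Real.sqrt_pos.2 (inv_pos.2 hxy)
  have key := coeff_le_of_sphere ((1 + C (-(m : ℂ)) * X) ^ (e + β) * (1 + C (n : ℂ) * X) ^ (e + α))
    e (B := (S ^ 2) ^ e * (2 * S) ^ (α + β) * (((m : ℝ) * n)⁻¹) ^ e) hR ?_
  · rw [Real.sq_sqrt (inv_pos.2 hxy).le, mul_le_mul_iff_left₀ (by positivity)] at key
    rw [cc_eq_coeff, show e + (β + 1) - 1 = e + β by omega, show e + (α + 1) - 1 = e + α by omega]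
    refine (pow_le_pow_iff_left₀ (norm_nonneg _) (by positivity) two_ne_zero).1 ?_
    refine key.trans ?_
    have h1 : (2 * S) ^ (α + β) ≤ ((2 * S) ^ (β + 1)) ^ 2 := by
      rw [← pow_mul]
      exact pow_le_pow_right₀ (by linarith) (by omega)
    calc (S ^ 2) ^ e * (2 * S) ^ (α + β) ≤ (S ^ 2) ^ e * ((2 * S) ^ (β + 1)) ^ 2 := by gcongr
      _ = _ := by ring
  · intro z hz
    have hz2 : z.re ^ 2 + z.im ^ 2 = ((m : ℝ) * n)⁻¹ := by
      rw [← Real.sq_sqrt (inv_pos.2 hxy).le, ← hz, Complex.sq_norm, Complex.normSq_apply]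
      ring
    have hz3 : ((m : ℝ) * n) * (z.re ^ 2 + z.im ^ 2) = 1 := by
      rw [hz2, mul_inv_cancel₀ hxy.ne']
    set u : ℝ := ‖1 + (n : ℂ) * z‖ ^ 2 with hu
    set v : ℝ := ‖1 + -(m : ℂ) * z‖ ^ 2 with hv
    have hu0 : 0 ≤ u := sq_nonneg _
    have hv0 : 0 ≤ v := sq_nonneg _
    have huv : m * u + n * v = 2 * S := by
      rw [hu, hv, Complex.sq_norm, Complex.sq_norm, Complex.normSq_apply, Complex.normSq_apply, hS']
      simp only [Complex.add_re, Complex.one_re, Complex.mul_re, Complex.natCast_re,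
        Complex.natCast_im, Complex.add_im, Complex.one_im, Complex.mul_im, Complex.neg_re,
        Complex.neg_im]
      linear_combination ((m : ℝ) + n) * hz3
    have e1 : ‖eval z ((1 + C (-(m : ℂ)) * X) ^ (e + β) * (1 + C (n : ℂ) * X) ^ (e + α))‖ ^ 2 =
        (u * v) ^ e * (u ^ α * v ^ β) := by
      simp only [eval_mul, eval_pow, eval_add, eval_one, eval_C, eval_X, norm_mul, norm_pow, hu, hv]
      ring
    have h1 : u * v ≤ S ^ 2 * ((m : ℝ) * n)⁻¹ := by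
      rw [← div_eq_mul_inv, le_div_iff₀ hxy]
      nlinarith [sq_nonneg (m * u - n * v)]
    have h2 : u ≤ 2 * S := by nlinarith
    have h3 : v ≤ 2 * S := by nlinarith
    rw [e1]
    calc (u * v) ^ e * (u ^ α * v ^ β)
        ≤ (S ^ 2 * ((m : ℝ) * n)⁻¹) ^ e * ((2 * S) ^ α * (2 * S) ^ β) := by gcongr
      _ = _ := by rw [mul_pow, pow_add]; ring

theorem norm_sig_le {l k D d₁ d₂ m : ℕ} (φ : DirichletCharacter ℂ d₁) (ψ : DirichletCharacter ℂ d₂)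
    (hl : 1 ≤ l) (hlk : l ≤ k) (hm : 1 ≤ m) (hmD : m ≤ D) : ‖sig l φ ψ m‖ ≤ (D : ℝ) ^ k := by
  have hD : (1 : ℝ) ≤ D := by exact_mod_cast hm.trans hmD
  rw [sig, if_neg (by omega)]
  refine (norm_sum_le _ _).trans ?_
  have h1 : ∀ d ∈ m.divisors,
      ‖φ (d : ZMod d₁) * ψ ((m / d : ℕ) : ZMod d₂) * (d : ℂ) ^ (l - 1)‖ ≤ (D : ℝ) ^ (l - 1) := by
    intro d hd
    have hd' : (d : ℝ) ≤ D := by exact_mod_cast (Nat.divisor_le hd).trans hmD
    rw [norm_mul, norm_mul, norm_pow, Complex.norm_natCast]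
    calc ‖φ (d : ZMod d₁)‖ * ‖ψ ((m / d : ℕ) : ZMod d₂)‖ * (d : ℝ) ^ (l - 1)
        ≤ 1 * 1 * (D : ℝ) ^ (l - 1) := by
          gcongr
          · exact φ.norm_le_one _
          · exact ψ.norm_le_one _
      _ = _ := by ring
  refine (sum_le_card_nsmul _ _ _ h1).trans ?_
  have h2 : (m.divisors.card : ℝ) ≤ D := by exact_mod_cast (Nat.card_divisors_le_self m).trans hmD
  rw [nsmul_eq_mul]
  calc (m.divisors.card : ℝ) * (D : ℝ) ^ (l - 1) ≤ D * (D : ℝ) ^ (l - 1) := by gcongr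
    _ = (D : ℝ) ^ l := by rw [← pow_succ', Nat.sub_add_cancel hl]
    _ ≤ _ := pow_le_pow_right₀ hD hlk

theorem growth (B : ℝ) : ∃ K : ℕ, ∀ n j : ℕ, 1 ≤ n → 1 ≤ j → K ≤ n + j →
    B ^ j < n.ascFactorial j := by
  obtain ⟨j₁, hj₁⟩ := Filter.eventually_atTop.1
    ((FloorSemiring.tendsto_pow_div_factorial_atTop B).eventually (gt_mem_nhds zero_lt_one))
  obtain ⟨b, hb⟩ := exists_nat_gt |B|
  refine ⟨j₁ + b, fun n j hn hj hK => ?_⟩
  rcases Nat.lt_or_ge j j₁ with h | h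
  · have h1 : |B| < n := hb.trans_le (by exact_mod_cast (by omega : b ≤ n))
    calc B ^ j ≤ |B| ^ j := (le_abs_self _).trans (abs_pow B j).le
      _ < (n : ℝ) ^ j := pow_lt_pow_left₀ h1 (abs_nonneg _) (by omega)
      _ ≤ _ := by exact_mod_cast Nat.pow_succ_le_ascFactorial n j
  · have h1 := hj₁ j h
    have hf : (0 : ℝ) < j.factorial := by exact_mod_cast j.factorial_pos
    rw [div_lt_one hf] at h1
    refine h1.trans_le ?_
    have h2 : j.factorial ≤ n.ascFactorial j := by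
      refine Nat.le_of_dvd ?_ (Nat.factorial_dvd_ascFactorial n j)
      obtain ⟨n', rfl⟩ : ∃ n', n = n' + 1 := ⟨n - 1, by omega⟩
      exact Nat.ascFactorial_pos _ _
    exact_mod_cast h2

theorem growth' (c A : ℝ) (hA : 0 ≤ A) : ∃ K : ℕ, ∀ n j : ℕ, 1 ≤ n → 1 ≤ j → K ≤ n + j →
    c * A ^ j < n.ascFactorial j := by
  obtain ⟨K, hK⟩ := growth (max c 1 * A)
  refine ⟨K, fun n j hn hj h => lt_of_le_of_lt ?_ (hK n j hn hj h)⟩
  rw [mul_pow]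
  refine mul_le_mul_of_nonneg_right ((le_max_left c 1).trans ?_) (by positivity)
  exact le_self_pow₀ (le_max_right _ _) (by omega)

theorem series_tail (b : ℕ → ℂ) {M : ℝ} (hb : ∀ n, ‖b n‖ ≤ M) {n₀ k : ℕ} (hk : 2 ≤ k)
    (h0 : ∀ n, 1 ≤ n → n < n₀ → b n = 0) {S : ℂ} (hS : HasSum (fun n : ℕ => b n / (n : ℂ) ^ k) S) :
    ‖S - b n₀ / (n₀ : ℂ) ^ k‖ ≤ M * (((n₀ : ℝ) + 1) ^ (k - 2))⁻¹ * (5 / 3) := by
  have hM : 0 ≤ M := (norm_nonneg _).trans (hb 0)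
  have h1 := hasSum_ite_sub_hasSum hS n₀
  have h2 := hasSum_zeta_two.mul_left (M * (((n₀ : ℝ) + 1) ^ (k - 2))⁻¹)
  refine (h1.norm_le_of_bounded h2 fun n => ?_).trans ?_
  · split_ifs with hn
    · rw [norm_zero]
      positivity
    rcases Nat.eq_zero_or_pos n with rfl | hpos
    · simp [zero_pow (by omega : k ≠ 0)]
    rcases Nat.lt_or_ge n n₀ with hlt | hge
    · rw [h0 n hpos hlt, zero_div, norm_zero]
      positivity
    · have h3 : (n₀ : ℝ) + 1 ≤ n := by exact_mod_cast (by omega : n₀ + 1 ≤ n)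
      have h4 : (0 : ℝ) < n := by exact_mod_cast hpos
      have e : (n : ℝ) ^ k = (n : ℝ) ^ (k - 2) * (n : ℝ) ^ 2 := by
        rw [← pow_add, Nat.sub_add_cancel hk]
      rw [norm_div, norm_pow, Complex.norm_natCast, e, div_eq_mul_inv, mul_inv, one_div, mul_assoc]
      gcongr
      exact hb n
  · have := Real.pi_lt_d2
    have := Real.pi_pos
    have h3 : Real.pi ^ 2 / 6 ≤ 5 / 3 := by nlinarith
    gcongr

theorem series_lower (b : ℕ → ℂ) {M : ℝ} (hb : ∀ n, ‖b n‖ ≤ M) (hne : ∃ n, 1 ≤ n ∧ b n ≠ 0) :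
    ∃ (c θ : ℝ) (k₀ : ℕ), 0 < c ∧ 0 < θ ∧ ∀ k, k₀ ≤ k → ∀ S : ℂ,
      HasSum (fun n : ℕ => b n / (n : ℂ) ^ k) S → c * θ ^ k ≤ ‖S‖ := by
  classical
  obtain ⟨n₀, ⟨hn₀, hb₀⟩, hmin⟩ : ∃ n₀, (1 ≤ n₀ ∧ b n₀ ≠ 0) ∧ ∀ n, 1 ≤ n → n < n₀ → b n = 0 := by
    refine ⟨Nat.find hne, Nat.find_spec hne, fun n h1 h2 => ?_⟩
    by_contra h3
    exact Nat.find_min hne h2 ⟨h1, h3⟩
  have hM : 0 ≤ M := (norm_nonneg _).trans (hb 0)
  have hx : (0 : ℝ) < n₀ := by exact_mod_cast hn₀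
  have hc : 0 < ‖b n₀‖ := norm_pos_iff.2 hb₀
  have hr : (n₀ : ℝ) / (n₀ + 1) < 1 := by rw [div_lt_one (by linarith)]; linarith
  have ht := (tendsto_pow_atTop_nhds_zero_of_lt_one (by positivity) hr).const_mul
    (M * (n₀ : ℝ) ^ 2 * (5 / 3))
  rw [mul_zero] at ht
  obtain ⟨j₀, hj₀⟩ := Filter.eventually_atTop.1 (ht.eventually (gt_mem_nhds (half_pos hc)))
  refine ⟨‖b n₀‖ / 2, (n₀ : ℝ)⁻¹, j₀ + 2, half_pos hc, inv_pos.2 hx, fun k hk S hS => ?_⟩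
  obtain ⟨j, rfl⟩ : ∃ j, k = j + 2 := ⟨k - 2, by omega⟩
  have h1 := series_tail b hb (by omega) hmin hS
  have h2 := hj₀ j (by omega)
  rw [Nat.add_sub_cancel] at h1
  have h3 : M * (((n₀ : ℝ) + 1) ^ j)⁻¹ * (5 / 3) =
      M * (n₀ : ℝ) ^ 2 * (5 / 3) * ((n₀ : ℝ) / (n₀ + 1)) ^ j * (n₀ : ℝ)⁻¹ ^ (j + 2) := by
    rw [div_pow, inv_pow]
    field_simp
    ring
  have h4 : ‖b n₀ / (n₀ : ℂ) ^ (j + 2)‖ = ‖b n₀‖ * (n₀ : ℝ)⁻¹ ^ (j + 2) := by
    rw [norm_div, norm_pow, Complex.norm_natCast, inv_pow, div_eq_mul_inv]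
  have h5 := norm_sub_norm_le (b n₀ / (n₀ : ℂ) ^ (j + 2)) S
  rw [norm_sub_rev, h4] at h5
  have h6 : M * (n₀ : ℝ) ^ 2 * (5 / 3) * ((n₀ : ℝ) / (n₀ + 1)) ^ j * (n₀ : ℝ)⁻¹ ^ (j + 2) ≤
      ‖b n₀‖ / 2 * (n₀ : ℝ)⁻¹ ^ (j + 2) := mul_le_mul_of_nonneg_right h2.le (by positivity)
  linarith

end Pool.Agent.Lib.MP_234657_nt
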