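import Mathlib

namespace Pool.Agent.Lib.MP_234657_nt

open Finset

/-- On the `N`-th roots of unity, `f` is a combination of the powers `ξ ^ s` with `s` divisible
by no element of `P`. -/
def Four (N : ℕ) (P : Finset ℕ) (f : ℂ → ℝ) : Prop :=
  ∃ c : ℕ → ℂ, (∀ s, (∃ r ∈ P, r ∣ s) → c s = 0) ∧
    ∀ ξ : ℂ, ξ ^ N = 1 → (f ξ : ℂ) = ∑ s ∈ range N, c s * ξ ^ s

/-- On the `N`-th roots of unity, `L` is a real combination of the `Im (ξ ^ s)` with `s` coprime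
to `N`. -/
def Adm (N : ℕ) (L : ℂ → ℝ) : Prop :=
  ∃ lam : ℕ → ℝ, (∀ s, ¬ Nat.Coprime s N → lam s = 0) ∧
    ∀ ξ : ℂ, ξ ^ N = 1 → L ξ = ∑ s ∈ range N, lam s * (ξ ^ s).im

/-- Normalised, bounded and supported on the `R`-th roots of unity. -/
def Good (R : ℕ) (g : ℂ → ℝ) : Prop := g 1 = 1 ∧ (∀ u, |g u| ≤ 1) ∧ ∀ u, g u ≠ 0 → u ^ R = 1

theorem four_base {N : ℕ} (hN : N ≠ 0) : Four N ∅ fun u => if u = 1 then 1 else 0 := by
  refine ⟨fun _ => (N : ℂ)⁻¹, by simp, fun ξ hξ => ?_⟩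
  rw [← mul_sum]
  by_cases h : ξ = 1
  · subst h
    have : (N : ℂ) ≠ 0 := by exact_mod_cast hN
    simp [this]
  · rw [geom_sum_eq h, hξ]
    simp [h]

theorem Four.shift {N : ℕ} {P : Finset ℕ} {f : ℂ → ℝ} (h : Four N P f) {b : ℂ} (hb : b ^ N = 1) :
    Four N P fun u => f (u * b) := by
  obtain ⟨c, hc, hf⟩ := h
  refine ⟨fun s => c s * b ^ s, fun s hs => by simp only [hc s hs, zero_mul], fun ξ hξ => ?_⟩
  rw [hf _ (by rw [mul_pow, hξ, hb, one_mul])]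
  exact sum_congr rfl fun s _ => by rw [mul_pow]; ring

theorem Four.step {N r : ℕ} {P : Finset ℕ} {f : ℂ → ℝ} (h : Four N P f) {η : ℂ} (hr : r ∣ N)
    (hη : η ^ r = 1) : Four N (insert r P) fun u => f u - f (u * η) := by
  obtain ⟨c, hc, hf⟩ := h
  have hηN : η ^ N = 1 := by
    obtain ⟨t, rfl⟩ := hr
    rw [pow_mul, hη, one_pow]
  refine ⟨fun s => c s * (1 - η ^ s), ?_, fun ξ hξ => ?_⟩
  · rintro s ⟨r', hr', hs⟩
    rcases mem_insert.1 hr' with rfl | hr'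
    · obtain ⟨t, rfl⟩ := hs
      simp only [pow_mul, hη, one_pow, sub_self, mul_zero]
    · simp only [hc s ⟨r', hr', hs⟩, zero_mul]
  · rw [Complex.ofReal_sub, hf _ hξ, hf _ (by rw [mul_pow, hξ, hηN, one_mul]), ← sum_sub_distrib]
    exact sum_congr rfl fun s _ => by rw [mul_pow]; ring

theorem Four.adm {N : ℕ} (hN : N ≠ 0) {f : ℂ → ℝ} (h : Four N N.primeFactors f) (κ : ℝ) :
    Adm N fun u => κ * (f u - f u⁻¹) := by
  obtain ⟨c, hc, hf⟩ := h
  refine ⟨fun s => κ * (-2 * (c s).im), fun s hs => ?_, fun ξ hξ => ?_⟩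
  · obtain ⟨r, hr, h1, h2⟩ := Nat.Prime.not_coprime_iff_dvd.1 hs
    simp only [hc s ⟨r, Nat.mem_primeFactors.2 ⟨hr, h2, hN⟩, h1⟩, Complex.zero_im, mul_zero]
  · have hn : ‖ξ‖ = 1 := Complex.norm_eq_one_of_pow_eq_one hξ hN
    have h1 := congrArg Complex.re (hf ξ hξ)
    have h2 := congrArg Complex.re (hf ξ⁻¹ (by rw [inv_pow, hξ, inv_one]))
    rw [Complex.ofReal_re, Complex.re_sum] at h1 h2
    simp only
    rw [h1, h2, ← sum_sub_distrib, mul_sum]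
    refine sum_congr rfl fun s _ => ?_
    rw [Complex.inv_eq_conj hn, ← map_pow, Complex.mul_re, Complex.mul_re, Complex.conj_re,
      Complex.conj_im]
    ring

theorem pow_ne_one_of_coprime {η : ℂ} {r R : ℕ} (hr : r.Prime) (hη : IsPrimitiveRoot η r)
    (hR : Nat.Coprime r R) : η ^ R ≠ 1 := fun h =>
  (Nat.Prime.coprime_iff_not_dvd hr).1 hR (hη.dvd_of_pow_eq_one _ h)

theorem Good.step_aux {R r : ℕ} {g : ℂ → ℝ} (h : Good R g) {η : ℂ} (hr : r.Prime)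
    (hη : IsPrimitiveRoot η r) (hR : Nat.Coprime r R) :
    (g 1 - g (1 * η) = 1) ∧ (∀ u, |g u - g (u * η)| ≤ 1) ∧
      ∀ u, g u - g (u * η) ≠ 0 → u ^ R = 1 ∨ (u * η) ^ R = 1 := by
  obtain ⟨h1, h2, h3⟩ := h
  have hne := pow_ne_one_of_coprime hr hη hR
  refine ⟨?_, fun u => ?_, fun u hu => ?_⟩
  · have : g (1 * η) = 0 := by
      by_contra h0
      exact hne (by simpa using h3 _ h0)
    rw [this, h1, sub_zero]
  · by_cases h0 : g u = 0
    · rw [h0, zero_sub, abs_neg]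
      exact h2 _
    · have : g (u * η) = 0 := by
        by_contra h0'
        have e := h3 _ h0'
        rw [mul_pow, h3 _ h0, one_mul] at e
        exact hne e
      rw [this, sub_zero]
      exact h2 _
  · by_cases h0 : g u = 0
    · right
      refine h3 _ fun h0' => hu ?_
      rw [h0, h0', sub_zero]
    · exact Or.inl (h3 _ h0)

theorem Good.step {R r : ℕ} {g : ℂ → ℝ} (h : Good R g) {η : ℂ} (hr : r.Prime)
    (hη : IsPrimitiveRoot η r) (hR : Nat.Coprime r R) :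
    Good (r * R) fun u => g u - g (u * η) := by
  obtain ⟨h1, h2, h3⟩ := h.step_aux hr hη hR
  refine ⟨h1, h2, fun u hu => ?_⟩
  rcases h3 u hu with e | e
  · rw [mul_comm, pow_mul, e, one_pow]
  · have e2 : ((u * η) ^ R) ^ r = 1 := by rw [e, one_pow]
    rw [← pow_mul, mul_comm R, mul_pow, pow_mul η, hη.pow_eq_one, one_pow, mul_one] at e2
    exact e2

theorem Good.step_inv {R r : ℕ} {g : ℂ → ℝ} (h : Good R g) {η : ℂ} (hr : r.Prime) (hr2 : r ≠ 2)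
    (hη : IsPrimitiveRoot η r) (hR : Nat.Coprime r R) (hR0 : R ≠ 0)
    (hinv : ∀ u, g u ≠ 0 → g u⁻¹ ≠ 0 → u = 1) :
    ∀ u, g u - g (u * η) ≠ 0 → g u⁻¹ - g (u⁻¹ * η) ≠ 0 → u = 1 := by
  obtain ⟨_, _, h3⟩ := h
  have hne := pow_ne_one_of_coprime hr hη hR
  have hne2 := pow_ne_one_of_coprime hr hη
    (Nat.Coprime.mul_right hR ((Nat.coprime_primes hr Nat.prime_two).2 hr2))
  intro u hu hu'
  by_cases h0 : g u = 0
  · have e1 : (u * η) ^ R = 1 := h3 _ fun h0' => hu (by rw [h0, h0', sub_zero])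
    have hu0 : u ≠ 0 := by
      rintro rfl
      rw [zero_mul, zero_pow hR0] at e1
      exact zero_ne_one e1
    by_cases h0' : g u⁻¹ = 0
    · have e2 : (u⁻¹ * η) ^ R = 1 := h3 _ fun h1 => hu' (by rw [h0', h1, sub_zero])
      exfalso
      apply hne2
      have e3 : (u * η) ^ R * (u⁻¹ * η) ^ R = 1 := by rw [e1, e2, one_mul]
      rw [← mul_pow] at e3
      rw [← e3, mul_comm R 2, pow_mul]
      congr 1
      field_simp
    · have e2 := h3 _ h0'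
      exfalso
      apply hne
      have e3 : (u * η) ^ R * u⁻¹ ^ R = 1 := by rw [e1, e2, one_mul]
      rw [← mul_pow] at e3
      rw [← e3]
      congr 1
      field_simp
  · have e1 := h3 _ h0
    have hu0 : u ≠ 0 := by
      rintro rfl
      rw [zero_pow hR0] at e1
      exact zero_ne_one e1
    by_cases h0' : g u⁻¹ = 0
    · have e2 : (u⁻¹ * η) ^ R = 1 := h3 _ fun h1 => hu' (by rw [h0', h1, sub_zero])
      exfalso
      apply hne
      have e3 : u ^ R * (u⁻¹ * η) ^ R = 1 := by rw [e1, e2, one_mul]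
      rw [← mul_pow] at e3
      rw [← e3]
      congr 1
      field_simp
    · exact hinv u h0 h0'

theorem coprime_prod_of_notMem {r : ℕ} {P : Finset ℕ} (hr : r.Prime) (hP : ∀ q ∈ P, q.Prime)
    (h : r ∉ P) : Nat.Coprime r (∏ q ∈ P, q) :=
  Nat.Coprime.prod_right fun q hq => (Nat.coprime_primes hr (hP q hq)).2 fun e => h (e ▸ hq)

theorem exists_chain {N : ℕ} (hN : N ≠ 0) (P : Finset ℕ) (hP : ∀ q ∈ P, q.Prime ∧ q ∣ N) :
    ∃ g : ℂ → ℝ, Four N P g ∧ Good (∏ q ∈ P, q) g ∧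
      (2 ∉ P → ∀ u, g u ≠ 0 → g u⁻¹ ≠ 0 → u = 1) := by
  induction P using Finset.induction_on with
  | empty =>
    refine ⟨fun u => if u = 1 then 1 else 0, four_base hN, ⟨by simp, fun u => ?_, fun u hu => ?_⟩,
      fun _ u hu _ => ?_⟩
    · dsimp only
      split_ifs <;> simp
    · simp only [prod_empty, pow_one]
      by_contra h
      exact hu (if_neg h)
    · by_contra h
      exact hu (if_neg h)
  | insert r P hr ih =>
    have hP' : ∀ q ∈ P, q.Prime ∧ q ∣ N := fun q hq => hP q (mem_insert_of_mem hq)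
    obtain ⟨g, h1, h2, h3⟩ := ih hP'
    obtain ⟨hrp, hrN⟩ := hP r (mem_insert_self _ _)
    have hη := Complex.isPrimitiveRoot_exp r hrp.ne_zero
    have hc := coprime_prod_of_notMem hrp (fun q hq => (hP' q hq).1) hr
    refine ⟨_, h1.step hrN hη.pow_eq_one, ?_, fun h2P => ?_⟩
    · rw [prod_insert hr]
      exact h2.step hrp hη hc
    · rw [mem_insert, not_or] at h2P
      exact h2.step_inv hrp (Ne.symm h2P.1) hη hc
        (prod_ne_zero_iff.2 fun q hq => (hP' q hq).1.ne_zero) (h3 h2P.2)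

theorem exists_last {N r : ℕ} (hN : N ≠ 0) (hr : r ∈ N.primeFactors) {η : ℂ}
    (hη : IsPrimitiveRoot η r) :
    ∃ g : ℂ → ℝ, Four N N.primeFactors g ∧ g 1 = 1 ∧ g η⁻¹ = -1 ∧ (∀ u, |g u| ≤ 1) ∧
      ∀ u, g u ≠ 0 → u ^ (∏ q ∈ N.primeFactors.erase r, q) = 1 ∨
        (u * η) ^ (∏ q ∈ N.primeFactors.erase r, q) = 1 := by
  have hP : ∀ q ∈ N.primeFactors.erase r, q.Prime ∧ q ∣ N := fun q hq =>
    ⟨Nat.prime_of_mem_primeFactors (mem_of_mem_erase hq),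
      Nat.dvd_of_mem_primeFactors (mem_of_mem_erase hq)⟩
  obtain ⟨g, h1, h2, _⟩ := exists_chain hN _ hP
  have hrp := Nat.prime_of_mem_primeFactors hr
  have hc := coprime_prod_of_notMem hrp (fun q hq => (hP q hq).1) (notMem_erase r _)
  obtain ⟨a1, a2, a3⟩ := h2.step_aux hrp hη hc
  have h4 := h1.step (Nat.dvd_of_mem_primeFactors hr) hη.pow_eq_one
  rw [insert_erase hr] at h4
  refine ⟨_, h4, a1, ?_, a2, a3⟩
  have e1 : g η⁻¹ = 0 := by
    by_contra h0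
    exact pow_ne_one_of_coprime hrp hη.inv hc (h2.2.2 _ h0)
  rw [e1, inv_mul_cancel₀ (hη.ne_zero hrp.ne_zero), h2.1]
  norm_num

theorem caseT1 {N r : ℕ} (hN : N ≠ 0) (hr : r ∈ N.primeFactors) {ζ : ℂ} (hζ : ζ ^ N = 1)
    (hη : IsPrimitiveRoot (ζ ^ 2) r) :
    ∃ L : ℂ → ℝ, Adm N L ∧ L ζ = 1 ∧ ∀ ξ, |L ξ| ≤ 1 := by
  obtain ⟨g, h1, h2, h3, h4, _⟩ := exists_last hN hr hη
  have hζ0 : ζ ≠ 0 := by
    rintro rfl
    rw [zero_pow hN] at hζ
    exact zero_ne_one hζ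
  refine ⟨_, (h1.shift (b := ζ⁻¹) (by rw [inv_pow, hζ, inv_one])).adm hN (1 / 2), ?_, fun ξ => ?_⟩
  · rw [mul_inv_cancel₀ hζ0, h2, ← mul_inv, ← sq, h3]
    norm_num
  · have a := abs_le.1 (h4 (ξ * ζ⁻¹))
    have b := abs_le.1 (h4 (ξ⁻¹ * ζ⁻¹))
    rw [abs_le]
    constructor <;> linarith [a.1, a.2, b.1, b.2]

theorem caseT2 {N r : ℕ} (hN : N ≠ 0) (hr : r ∈ N.primeFactors) {ζ η : ℂ} (hζ : ζ ^ N = 1)
    (hη : IsPrimitiveRoot η r)
    (h0 : (ζ ^ (∏ q ∈ N.primeFactors.erase r, q)) ^ 2 ≠ 1)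
    (h1 : (ζ ^ (∏ q ∈ N.primeFactors.erase r, q)) ^ 2 ≠ η ^ (∏ q ∈ N.primeFactors.erase r, q))
    (h2 : (ζ ^ (∏ q ∈ N.primeFactors.erase r, q)) ^ 2 ≠
      (η ^ (∏ q ∈ N.primeFactors.erase r, q)) ^ 2) :
    ∃ L : ℂ → ℝ, Adm N L ∧ L ζ = 1 ∧ ∀ ξ, |L ξ| ≤ 1 := by
  obtain ⟨g, g1, g2, _, g4, g5⟩ := exists_last hN hr hη
  have hR0 : ∏ q ∈ N.primeFactors.erase r, q ≠ 0 := prod_ne_zero_iff.2 fun q hq =>
    (Nat.prime_of_mem_primeFactors (mem_of_mem_erase hq)).ne_zero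
  generalize ∏ q ∈ N.primeFactors.erase r, q = R at h0 h1 h2 g5 hR0
  have hζ0 : ζ ≠ 0 := by
    rintro rfl
    rw [zero_pow hN] at hζ
    exact zero_ne_one hζ
  have hz0 : ζ ^ R ≠ 0 := pow_ne_zero _ hζ0
  have hdis : ∀ u, g (u * ζ⁻¹) ≠ 0 → g (u⁻¹ * ζ⁻¹) ≠ 0 → False := by
    intro u hu hu'
    have a := g5 _ hu
    have b := g5 _ hu'
    have hu0 : u ^ R ≠ 0 := by
      intro e
      simp only [mul_pow, e, zero_mul, or_self] at a
      exact zero_ne_one a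
    simp only [mul_pow, inv_pow] at a b
    generalize u ^ R = U at a b hu0
    generalize ζ ^ R = z at a b h0 h1 h2 hz0
    generalize η ^ R = y at a b h1 h2
    rcases a with a | a <;> rcases b with b | b <;> field_simp at a b
    · exact h0 (by linear_combination -z * a - b)
    · exact h1 (by linear_combination -z * a - b)
    · exact h1 (by linear_combination -z * a - y * b)
    · exact h2 (by linear_combination -z * a - y * b)
  refine ⟨_, (g1.shift (b := ζ⁻¹) (by rw [inv_pow, hζ, inv_one])).adm hN 1, ?_, fun ξ => ?_⟩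
  · have e : g (ζ⁻¹ * ζ⁻¹) = 0 := by
      by_contra h
      exact hdis ζ (by rw [mul_inv_cancel₀ hζ0, g2]; exact one_ne_zero) h
    rw [mul_inv_cancel₀ hζ0, g2, e]
    norm_num
  · rw [one_mul]
    by_cases e : g (ξ * ζ⁻¹) = 0
    · rw [e, zero_sub, abs_neg]
      exact g4 _
    · have e' : g (ξ⁻¹ * ζ⁻¹) = 0 := by
        by_contra h
        exact hdis ξ e h
      rw [e', sub_zero]
      exact g4 _

theorem caseB {N : ℕ} (hN : N ≠ 0) (h12 : 12 ∣ N) {ζ : ℂ} (h6 : ζ ^ 6 = -1) (h2 : ζ ^ 2 ≠ -1) :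
    ∃ L : ℂ → ℝ, Adm N L ∧ L ζ = 1 / 2 ∧ (∀ ξ, |L ξ| ≤ 1) ∧ (∀ ξ, L ξ = 1 ∨ L ξ ≤ 1 / 2) ∧
      ∀ ξ n, L ξ ≠ 0 → L (ξ ^ (2 * n)) = 0 := by
  have hζ12 : ζ ^ 12 = 1 := by
    have : ζ ^ 12 = (ζ ^ 6) ^ 2 := by ring
    rw [this, h6]
    norm_num
  have m2 : 2 ∈ N.primeFactors := Nat.mem_primeFactors.2 ⟨Nat.prime_two, (by norm_num : 2 ∣ 12).trans h12, hN⟩
  have m3 : 3 ∈ N.primeFactors.erase 2 := mem_erase.2 ⟨by norm_num,
    Nat.mem_primeFactors.2 ⟨Nat.prime_three, (by norm_num : 3 ∣ 12).trans h12, hN⟩⟩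
  set Q := (N.primeFactors.erase 2).erase 3 with hQ
  have hP : ∀ q ∈ Q, q.Prime ∧ q ∣ N := fun q hq =>
    ⟨Nat.prime_of_mem_primeFactors (mem_of_mem_erase (mem_of_mem_erase hq)),
      Nat.dvd_of_mem_primeFactors (mem_of_mem_erase (mem_of_mem_erase hq))⟩
  have h2Q : 2 ∉ Q := fun h => notMem_erase 2 _ (mem_of_mem_erase h)
  obtain ⟨g, g1, g2, g3⟩ := exists_chain hN Q hP
  have hc3 := coprime_prod_of_notMem Nat.prime_three (fun q hq => (hP q hq).1) (notMem_erase 3 _)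
  have hc2 := coprime_prod_of_notMem Nat.prime_two (fun q hq => (hP q hq).1) h2Q
  have hR0 : ∏ q ∈ Q, q ≠ 0 := prod_ne_zero_iff.2 fun q hq => (hP q hq).1.ne_zero
  generalize ∏ q ∈ Q, q = R at g2 hc3 hc2 hR0
  have hodd : Odd (3 * R) := Odd.mul (by decide) (Nat.coprime_two_left.1 hc2)
  have hω1 : ζ ^ 8 ≠ 1 := by
    intro h
    apply h2
    have e : ζ ^ 8 = ζ ^ 6 * ζ ^ 2 := by ring
    rw [e, h6] at h
    linear_combination -h
  have hη : IsPrimitiveRoot (ζ ^ 8) 3 := by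
    have : Fact (Nat.Prime 3) := ⟨Nat.prime_three⟩
    have ho : orderOf (ζ ^ 8) = 3 := orderOf_eq_prime (by
      have : (ζ ^ 8) ^ 3 = (ζ ^ 12) ^ 2 := by ring
      rw [this, hζ12, one_pow]) hω1
    rw [← ho]
    exact IsPrimitiveRoot.orderOf _
  have hη2 : IsPrimitiveRoot (-1 : ℂ) 2 := IsPrimitiveRoot.neg_one 0 (by norm_num)
  have k1 := g2.step Nat.prime_three hη hc3
  have k2 := g2.step_inv Nat.prime_three (by norm_num) hη hc3 hR0 (g3 h2Q)
  have k0 := g1.step ((by norm_num : 3 ∣ 12).trans h12) hη.pow_eq_one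
  have v4 : g (ζ ^ 4) - g (ζ ^ 4 * ζ ^ 8) = -1 := by
    have e1 : g (ζ ^ 4) = 0 := by
      by_contra h0
      have e := g2.2.2 _ h0
      refine pow_ne_one_of_coprime Nat.prime_three hη hc3 ?_
      have : (ζ ^ 8) ^ R = ((ζ ^ 4) ^ R) ^ 2 := by ring
      rw [this, e, one_pow]
    rw [e1, ← pow_add, hζ12, g2.1]
    norm_num
  have v8 : g (ζ ^ 8) - g (ζ ^ 8 * ζ ^ 8) = 0 := by
    have e1 : g (ζ ^ 8) = 0 := by
      by_contra h0
      exact pow_ne_one_of_coprime Nat.prime_three hη hc3 (g2.2.2 _ h0)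
    have e2 : g (ζ ^ 8 * ζ ^ 8) = 0 := by
      by_contra h0
      have e := g2.2.2 _ h0
      refine pow_ne_one_of_coprime Nat.prime_three hη
        (Nat.Coprime.mul_right hc3 (by norm_num : Nat.Coprime 3 2)) ?_
      rw [← e]
      ring
    rw [e1, e2, sub_zero]
  set G : ℂ → ℝ := fun u => g u - g (u * ζ ^ 8) with hG
  have l1 := k1.step_aux Nat.prime_two hη2 (Nat.coprime_two_left.2 hodd)
  have l0 := k0.step ((by norm_num : 2 ∣ 12).trans h12) hη2.pow_eq_one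
  rw [insert_erase m3, insert_erase m2] at l0
  have hb : (ζ ^ 3) ^ N = 1 := by
    obtain ⟨t, rfl⟩ := h12
    have : (ζ ^ 3) ^ (12 * t) = (ζ ^ 12) ^ (3 * t) := by ring
    rw [this, hζ12, one_pow]
  have hζ0 : ζ ≠ 0 := by
    rintro rfl
    norm_num at h6
  have hneg : ∀ u, G u ≠ 0 → G (u * -1) = 0 := by
    intro u hu
    by_contra h0
    have e := k1.2.2 _ h0
    rw [mul_pow, k1.2.2 _ hu, hodd.neg_one_pow] at e
    norm_num at e
  have hG1 : G 1 = 1 := k1.1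
  have hGm1 : G (-1) = 0 := by simpa using hneg 1 (by rw [hG1]; exact one_ne_zero)
  have hsupp : ∀ u, G (u * ζ ^ 3) - G (u * ζ ^ 3 * -1) ≠ 0 → u ^ (2 * (3 * R)) = -1 := by
    intro u hu
    have e1 : (u * ζ ^ 3) ^ (2 * (3 * R)) = 1 := by
      rcases l1.2.2 _ hu with e | e
      · rw [mul_comm 2, pow_mul, e, one_pow]
      · have e2 : ((u * ζ ^ 3 * -1) ^ (3 * R)) ^ 2 = 1 := by rw [e, one_pow]
        rw [← e2, ← pow_mul, mul_comm (3 * R) 2, pow_mul, pow_mul (u * ζ ^ 3 * -1)]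
        congr 1
        ring
    have e3 : (ζ ^ 3) ^ (2 * (3 * R)) = -1 := by
      rw [pow_mul, ← pow_mul ζ 3 2, h6, hodd.neg_one_pow]
    rw [mul_pow, e3] at e1
    linear_combination -e1
  have hsupp' : ∀ u, -1 / 2 * ((G (u * ζ ^ 3) - G (u * ζ ^ 3 * -1)) -
      (G (u⁻¹ * ζ ^ 3) - G (u⁻¹ * ζ ^ 3 * -1))) ≠ 0 → u ^ (2 * (3 * R)) = -1 := by
    intro u hu
    by_cases e : G (u * ζ ^ 3) - G (u * ζ ^ 3 * -1) = 0
    · have e' : G (u⁻¹ * ζ ^ 3) - G (u⁻¹ * ζ ^ 3 * -1) ≠ 0 := by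
        intro e'
        apply hu
        rw [e, e']
        norm_num
      have e2 := hsupp _ e'
      rw [inv_pow] at e2
      rw [← inv_inv (u ^ (2 * (3 * R))), e2]
      norm_num
    · exact hsupp _ e
  refine ⟨_, (l0.shift hb).adm hN (-1 / 2), ?_, fun ξ => ?_, fun ξ => ?_, fun ξ n hξ => ?_⟩
  · have e1 : ζ * ζ ^ 3 = ζ ^ 4 := by ring
    have e2 : ζ⁻¹ * ζ ^ 3 * -1 = ζ ^ 8 := by
      field_simp
      linear_combination -h6
    have e3 : ζ⁻¹ * ζ ^ 3 = ζ ^ 8 * -1 := by rw [← e2]; ring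
    have w4 : G (ζ ^ 4) = -1 := v4
    have w8 : G (ζ ^ 8) = 0 := v8
    have w4' : G (ζ ^ 4 * -1) = 0 := hneg _ (by rw [w4]; norm_num)
    have w8' : G (ζ ^ 8 * -1) = 0 := by
      by_contra h0
      have e := k1.2.2 _ h0
      have e4 : (ζ ^ 8) ^ (3 * R) = 1 := by rw [pow_mul, hη.pow_eq_one, one_pow]
      rw [mul_pow, e4, hodd.neg_one_pow] at e
      norm_num at e
    change -1 / 2 * ((G (ζ * ζ ^ 3) - G (ζ * ζ ^ 3 * -1)) -
      (G (ζ⁻¹ * ζ ^ 3) - G (ζ⁻¹ * ζ ^ 3 * -1))) = 1 / 2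
    rw [e2, e1, e3, w4, w8, w4', w8']
    norm_num
  · have a := abs_le.1 (l1.2.1 (ξ * ζ ^ 3))
    have b := abs_le.1 (l1.2.1 (ξ⁻¹ * ζ ^ 3))
    change |-1 / 2 * ((G (ξ * ζ ^ 3) - G (ξ * ζ ^ 3 * -1)) -
      (G (ξ⁻¹ * ζ ^ 3) - G (ξ⁻¹ * ζ ^ 3 * -1)))| ≤ 1
    rw [abs_le]
    constructor <;> linarith [a.1, a.2, b.1, b.2]
  · have a := abs_le.1 (l1.2.1 (ξ * ζ ^ 3))
    have b := abs_le.1 (l1.2.1 (ξ⁻¹ * ζ ^ 3))
    change -1 / 2 * ((G (ξ * ζ ^ 3) - G (ξ * ζ ^ 3 * -1)) -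
      (G (ξ⁻¹ * ζ ^ 3) - G (ξ⁻¹ * ζ ^ 3 * -1))) = 1 ∨ -1 / 2 * ((G (ξ * ζ ^ 3) - G (ξ * ζ ^ 3 * -1)) -
      (G (ξ⁻¹ * ζ ^ 3) - G (ξ⁻¹ * ζ ^ 3 * -1))) ≤ 1 / 2
    by_cases e : G (ξ * ζ ^ 3) - G (ξ * ζ ^ 3 * -1) = 0
    · right
      linarith [b.2]
    by_cases e' : G (ξ⁻¹ * ζ ^ 3) - G (ξ⁻¹ * ζ ^ 3 * -1) = 0
    · right
      linarith [a.1]
    have hξ0 : ξ ≠ 0 := by
      rintro rfl
      have := hsupp _ e
      rw [zero_pow (by omega)] at this
      norm_num at this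
    have i1 : ξ⁻¹ * ζ ^ 3 * -1 = (ξ * ζ ^ 3)⁻¹ := by
      field_simp
      linear_combination -h6
    have i2 : ξ⁻¹ * ζ ^ 3 = (ξ * ζ ^ 3)⁻¹ * -1 := by rw [← i1]; ring
    rw [i1, i2] at e' ⊢
    generalize ξ * ζ ^ 3 = v at e e' ⊢
    by_cases c1 : G v = 0
    · have c1' : G (v * -1) ≠ 0 := fun h => e (by rw [c1, h, sub_zero])
      have c2 : G v⁻¹ = 0 := by
        by_contra c2
        have f1 := k1.2.2 _ c1'
        have f2 := k1.2.2 _ c2
        rw [inv_pow, inv_eq_one] at f2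
        rw [mul_pow, f2, hodd.neg_one_pow] at f1
        norm_num at f1
      have c2' : G (v⁻¹ * -1) ≠ 0 := fun h => e' (by rw [c2, h, sub_zero])
      have hv : v * -1 = 1 := k2 _ c1' (by
        have : (v * -1)⁻¹ = v⁻¹ * -1 := by rw [mul_inv]; norm_num
        rw [this]
        exact c2')
      have hv' : v = -1 := by linear_combination -hv
      left
      subst hv'
      norm_num [hG1, hGm1]
    · have c2' : G (v⁻¹ * -1) = 0 := by
        by_contra c2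
        have f1 := k1.2.2 _ c1
        have f2 := k1.2.2 _ c2
        rw [mul_pow, inv_pow, f1, hodd.neg_one_pow] at f2
        norm_num at f2
      have c2 : G v⁻¹ ≠ 0 := fun h => e' (by rw [c2', h, sub_zero])
      have hv : v = 1 := k2 _ c1 c2
      right
      subst hv
      norm_num [hG1, hGm1]
  · by_contra h0
    have f1 := hsupp' _ hξ
    have f2 := hsupp' _ h0
    rw [← pow_mul, mul_comm (2 * n), pow_mul, f1, pow_mul] at f2
    norm_num at f2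

theorem exists_functional {N : ℕ} (hN : N ≠ 0) (h12 : 12 ∣ N) {ζ : ℂ} (hζ : ζ ^ N = 1)
    (him : ζ.im ≠ 0) :
    (∃ L : ℂ → ℝ, Adm N L ∧ L ζ = 1 ∧ ∀ ξ, |L ξ| ≤ 1) ∨
    (∃ L : ℂ → ℝ, Adm N L ∧ L ζ = 1 / 2 ∧ (∀ ξ, |L ξ| ≤ 1) ∧ (∀ ξ, L ξ = 1 ∨ L ξ ≤ 1 / 2) ∧
      ∀ ξ n, L ξ ≠ 0 → L (ξ ^ (2 * n)) = 0) := by
  have m2 : 2 ∈ N.primeFactors :=
    Nat.mem_primeFactors.2 ⟨Nat.prime_two, (by norm_num : 2 ∣ 12).trans h12, hN⟩
  have m3 : 3 ∈ N.primeFactors :=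
    Nat.mem_primeFactors.2 ⟨Nat.prime_three, (by norm_num : 3 ∣ 12).trans h12, hN⟩
  have hη2 : IsPrimitiveRoot (-1 : ℂ) 2 := IsPrimitiveRoot.neg_one 0 (by norm_num)
  by_cases ha : ((ζ ^ (∏ q ∈ N.primeFactors.erase 2, q)) ^ 2) ^ 2 = 1
  swap
  · left
    refine caseT2 hN m2 hζ hη2 (fun h => ha ?_) (fun h => ha ?_) (fun h => ha ?_)
    · rw [h, one_pow]
    · rw [h, ← pow_mul, mul_comm, pow_mul]
      norm_num
    · rw [h, ← pow_mul, ← pow_mul, mul_comm, pow_mul]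
      norm_num
  by_cases hb : ∃ r ∈ N.primeFactors, 5 ≤ r ∧ (ζ ^ (∏ q ∈ N.primeFactors.erase r, q)) ^ 2 ≠ 1
  · left
    obtain ⟨r, hr, hr5, hz⟩ := hb
    have hrp := Nat.prime_of_mem_primeFactors hr
    have hω := Complex.isPrimitiveRoot_exp r hrp.ne_zero
    generalize Complex.exp (2 * Real.pi * Complex.I / r) = ω at hω
    have hc := coprime_prod_of_notMem (P := N.primeFactors.erase r) hrp
      (fun q hq => Nat.prime_of_mem_primeFactors (mem_of_mem_erase hq)) (notMem_erase r _)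
    have hω' := hω.pow_of_coprime _ hc.symm
    have hcop : ∀ i, 0 < i → i < 5 → Nat.Coprime i r := fun i h0 h1 =>
      (Nat.coprime_of_lt_prime h0.ne' (by omega) hrp).symm
    have hne : ∀ i, 0 < i → i < 5 → (ω ^ (∏ q ∈ N.primeFactors.erase r, q)) ^ i ≠ 1 :=
      fun i h0 h1 => hω'.pow_ne_one_of_pos_of_lt h0.ne' (by omega)
    have hy0 := hω'.ne_zero hrp.ne_zero
    by_contra hcon
    have key : ∀ i, 0 < i → i < 5 →
        (ζ ^ (∏ q ∈ N.primeFactors.erase r, q)) ^ 2 = (ω ^ (∏ q ∈ N.primeFactors.erase r, q)) ^ i ∨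
        (ζ ^ (∏ q ∈ N.primeFactors.erase r, q)) ^ 2 =
          ((ω ^ (∏ q ∈ N.primeFactors.erase r, q)) ^ i) ^ 2 := by
      intro i h0 h1
      by_contra h
      rw [not_or] at h
      have e : (ω ^ i) ^ (∏ q ∈ N.primeFactors.erase r, q) =
          (ω ^ (∏ q ∈ N.primeFactors.erase r, q)) ^ i := by ring
      exact hcon (caseT2 hN hr hζ (hω.pow_of_coprime i (hcop i h0 h1)) hz (e ▸ h.1) (e ▸ h.2))
    have k1 := key 1 (by norm_num) (by norm_num)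
    have k2 := key 2 (by norm_num) (by norm_num)
    have k3 := key 3 (by norm_num) (by norm_num)
    have n1 := hne 1 (by norm_num) (by norm_num)
    have n2 := hne 2 (by norm_num) (by norm_num)
    have n3 := hne 3 (by norm_num) (by norm_num)
    have n4 := hne 4 (by norm_num) (by norm_num)
    generalize ω ^ (∏ q ∈ N.primeFactors.erase r, q) = y at k1 k2 k3 n1 n2 n3 n4 hy0
    generalize (ζ ^ (∏ q ∈ N.primeFactors.erase r, q)) ^ 2 = z at k1 k2 k3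
    have hy2 : y ^ 2 ≠ 0 := pow_ne_zero _ hy0
    rcases k1 with k1 | k1
    · rcases k2 with k2 | k2
      · exact n1 (mul_left_cancel₀ hy0 (by linear_combination k1 - k2))
      · exact n3 (mul_left_cancel₀ hy0 (by linear_combination k1 - k2))
    · rcases k3 with k3 | k3
      · exact n1 (mul_left_cancel₀ hy2 (by linear_combination k1 - k3))
      · exact n4 (mul_left_cancel₀ hy2 (by linear_combination k1 - k3))
  push Not at hb
  have m3' : 3 ∈ N.primeFactors.erase 2 := mem_erase.2 ⟨by norm_num, m3⟩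
  have h12' : ζ ^ 12 = 1 := by
    have d1 : orderOf ζ ∣ 12 * ∏ q ∈ (N.primeFactors.erase 2).erase 3, q := by
      rw [orderOf_dvd_iff_pow_eq_one, ← ha, ← mul_prod_erase _ _ m3']
      ring
    rw [← orderOf_dvd_iff_pow_eq_one]
    refine Nat.Coprime.dvd_of_dvd_mul_right ?_ d1
    refine Nat.Coprime.prod_right fun r hr => ?_
    have hr' := mem_of_mem_erase (mem_of_mem_erase hr)
    have hrp := Nat.prime_of_mem_primeFactors hr'
    have hr3 : r ≠ 3 := ne_of_mem_erase hr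
    have hr2 : r ≠ 2 := ne_of_mem_erase (mem_of_mem_erase hr)
    have hr5 : 5 ≤ r := hrp.five_le_of_ne_two_of_ne_three hr2 hr3
    have d2 : orderOf ζ ∣ (∏ q ∈ N.primeFactors.erase r, q) * 2 := by
      rw [orderOf_dvd_iff_pow_eq_one, pow_mul]
      exact hb r hr' hr5
    refine Nat.Coprime.coprime_dvd_left d2 (Nat.Coprime.symm (Nat.Coprime.mul_right ?_ ?_))
    · exact coprime_prod_of_notMem hrp
        (fun q hq => Nat.prime_of_mem_primeFactors (mem_of_mem_erase hq)) (notMem_erase r _)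
    · exact (Nat.coprime_primes hrp Nat.prime_two).2 hr2
  have hy1 : ζ ^ 2 ≠ 1 := by
    intro h
    rcases (mul_self_eq_one_iff (a := ζ)).1 (by rw [← sq]; exact h) with e | e <;> simp [e] at him
  by_cases c2 : ζ ^ 2 = -1
  · left
    exact caseT1 hN m2 hζ (c2 ▸ hη2)
  by_cases c3 : ζ ^ 6 = 1
  · left
    refine caseT1 hN m3 hζ ?_
    have : Fact (Nat.Prime 3) := ⟨Nat.prime_three⟩
    have ho : orderOf (ζ ^ 2) = 3 := orderOf_eq_prime (by rw [← pow_mul]; exact c3) hy1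
    rw [← ho]
    exact IsPrimitiveRoot.orderOf _
  · right
    refine caseB hN h12 ?_ c2
    have e : (ζ ^ 6 - 1) * (ζ ^ 6 + 1) = 0 := by linear_combination h12'
    rcases mul_eq_zero.1 e with e | e
    · exact absurd (sub_eq_zero.1 e) c3
    · linear_combination e

end Pool.Agent.Lib.MP_234657_nt
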