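import Mathlib

namespace Pool.Agent.Lib.MP_234657_nt

open Finset

theorem exists_pos_component (F : ℕ → ℝ)
    (hadd : ∀ m n, m ≠ 0 → n ≠ 0 → Nat.Coprime m n → F (m * n) = F m + F n) (m : ℕ) :
    m ≠ 0 → 0 < F m → ∃ q a u, q.Prime ∧ 0 < a ∧ m = q ^ a * u ∧ Nat.Coprime (q ^ a) u ∧
      0 < F (q ^ a) := by
  induction m using Nat.recOnPosPrimePosCoprime with
  | prime_pow p n hp hn => exact fun _ h => ⟨p, n, 1, hp, hn, by simp, by simp, h⟩
  | zero => exact fun h => absurd rfl h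
  | one =>
    intro _ h
    have := hadd 1 1 one_ne_zero one_ne_zero (by simp)
    simp only [mul_one] at this
    linarith
  | coprime a b ha hb hab iha ihb =>
    intro _ h
    rw [hadd a b (by omega) (by omega) hab] at h
    by_cases h1 : 0 < F a
    · obtain ⟨q, e, u, hq, he, rfl, hc, hF⟩ := iha (by omega) h1
      exact ⟨q, e, u * b, hq, he, by ring,
        Nat.Coprime.mul_right hc (Nat.Coprime.coprime_mul_right hab), hF⟩
    · obtain ⟨q, e, u, hq, he, rfl, hc, hF⟩ := ihb (by omega) (by linarith)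
      exact ⟨q, e, u * a, hq, he, by ring,
        Nat.Coprime.mul_right hc (Nat.Coprime.coprime_mul_right hab.symm), hF⟩

/-- An additive function that is symmetric under `m ↦ D - m` cannot have a dominant prime. -/
theorem extremal (D : ℕ) (hD : Odd D) (F : ℕ → ℝ)
    (hadd : ∀ m n, m ≠ 0 → n ≠ 0 → Nat.Coprime m n → F (m * n) = F m + F n)
    (hsym : ∀ m, 0 < m → m < D → Nat.Coprime m D → F (D - m) = F m)
    (p : ℕ) (hp : p.Prime) (hpD : Nat.Coprime p D)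
    (hpos : ∃ m, 0 < m ∧ m < D ∧ Nat.Coprime m D ∧ 0 < F m)
    (hlt : ∀ q a, q.Prime → q ≠ p → 0 < a → F (q ^ a) < F p)
    (hroom : (∀ q a, q.Prime → q ≠ p → 0 < a → 0 < F (q ^ a) → p ≤ q ^ a) ∨
      ((∀ a, F (2 ^ a) = 0) ∧
        ∀ q a, q.Prime → q ≠ p → 0 < a → 0 < F (q ^ a) → p ≤ 2 * q ^ a)) : False := by
  set S := (range D).filter fun m => 0 < m ∧ Nat.Coprime m D with hS
  have hmem : ∀ m, m ∈ S ↔ 0 < m ∧ m < D ∧ Nat.Coprime m D := by
    intro m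
    simp only [hS, mem_filter, mem_range]
    tauto
  obtain ⟨m₁, h₁⟩ := hpos
  obtain ⟨m₀, hm₀, hmax⟩ := exists_max_image S F ⟨m₁, (hmem _).2 ⟨h₁.1, h₁.2.1, h₁.2.2.1⟩⟩
  have hμ : 0 < F m₀ := lt_of_lt_of_le h₁.2.2.2 (hmax _ ((hmem _).2 ⟨h₁.1, h₁.2.1, h₁.2.2.1⟩))
  have exch : ∀ ρ m, (∀ q a, q.Prime → q ≠ p → 0 < a → 0 < F (q ^ a) → p ≤ ρ * q ^ a) →
      m ∈ S → F m = F m₀ → ρ * m < D → ¬ p ∣ m → False := by
    intro ρ m hρ hm hF hroom' hpm
    obtain ⟨h0, _, hc⟩ := (hmem _).1 hm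
    obtain ⟨q, a, u, hq, ha, rfl, hcu, hFq⟩ := exists_pos_component F hadd m h0.ne' (hF ▸ hμ)
    have hqp : q ≠ p := by
      rintro rfl
      exact hpm (Dvd.dvd.mul_right (dvd_pow_self _ ha.ne') _)
    have hu0 : u ≠ 0 := by
      rintro rfl
      simp at h0
    have hpu : Nat.Coprime p u :=
      (Nat.Prime.coprime_iff_not_dvd hp).2 fun h => hpm (Dvd.dvd.mul_left h _)
    have hle := hρ q a hq hqp ha hFq
    have hmem' : p * u ∈ S := by
      refine (hmem _).2 ⟨Nat.mul_pos hp.pos (Nat.pos_of_ne_zero hu0), ?_,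
        Nat.Coprime.mul_left hpD (Nat.Coprime.coprime_mul_left hc)⟩
      calc p * u ≤ ρ * q ^ a * u := Nat.mul_le_mul_right _ hle
        _ = ρ * (q ^ a * u) := by ring
        _ < D := hroom'
    have h2 := hmax _ hmem'
    rw [hadd p u hp.ne_zero hu0 hpu, ← hF, hadd _ u (pow_ne_zero _ hq.ne_zero) hu0 hcu] at h2
    have h3 := hlt q a hq hqp ha
    linarith
  have hrefl : ∀ m ∈ S, D - m ∈ S ∧ F (D - m) = F m ∧ Nat.Coprime m (D - m) := by
    intro m hm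
    obtain ⟨h0, h1, hc⟩ := (hmem _).1 hm
    refine ⟨(hmem _).2 ⟨by omega, by omega, ?_⟩, hsym m h0 h1 hc, ?_⟩
    · exact (Nat.coprime_self_sub_left h1.le).2 hc
    · exact (Nat.coprime_sub_self_right h1.le).2 hc
  have hnot : ∀ m n, Nat.Coprime m n → ¬ p ∣ m ∨ ¬ p ∣ n := by
    intro m n hmn
    by_contra hcon
    push Not at hcon
    exact hp.one_lt.ne' (Nat.eq_one_of_dvd_coprimes hmn hcon.1 hcon.2)
  rcases hroom with hroom | ⟨h2, hroom⟩
  · obtain ⟨hr1, hr2, hr3⟩ := hrefl m₀ hm₀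
    rcases hnot _ _ hr3 with h | h
    · exact exch 1 m₀ (by simpa using hroom) hm₀ rfl (by simpa using ((hmem _).1 hm₀).2.1) h
    · exact exch 1 _ (by simpa using hroom) hr1 hr2 (by simpa using ((hmem _).1 hr1).2.1) h
  · have hodd : ∀ m ∈ S, ∃ o ∈ S, Odd o ∧ F o = F m ∧ o ∣ m ∧ (Even m → 2 * o ≤ m) := by
      intro m hm
      obtain ⟨h0, h1, hc⟩ := (hmem _).1 hm
      obtain ⟨v, o, ho, rfl⟩ := Nat.exists_eq_two_pow_mul_odd h0.ne'
      have ho0 : 0 < o := ho.pos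
      have hle : o ≤ 2 ^ v * o := Nat.le_mul_of_pos_left _ (by positivity)
      refine ⟨o, (hmem _).2 ⟨ho0, by omega, Nat.Coprime.coprime_mul_left hc⟩, ho, ?_,
        Dvd.intro_left _ rfl, fun he => ?_⟩
      · rw [hadd _ _ (by positivity) ho0.ne'
          (Nat.Coprime.pow_left _ (Nat.coprime_two_left.2 ho)), h2, zero_add]
      · cases v with
        | zero =>
          rw [pow_zero, one_mul] at he
          exact absurd he (Nat.not_even_iff_odd.2 ho)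
        | succ v =>
          rw [pow_succ']
          exact Nat.mul_le_mul_right _ (Nat.le_mul_of_pos_right _ (by positivity))
    have hnext : ∀ m ∈ S, Odd m → ∃ o ∈ S, Odd o ∧ F o = F m ∧ Nat.Coprime m o ∧ 2 * o < D := by
      intro m hm hmo
      obtain ⟨hr1, hr2, hr3⟩ := hrefl m hm
      obtain ⟨o, ho, ho1, ho2, ho3, ho4⟩ := hodd _ hr1
      obtain ⟨h0, h1, _⟩ := (hmem _).1 hm
      refine ⟨o, ho, ho1, ho2.trans hr2, Nat.Coprime.coprime_dvd_right ho3 hr3, ?_⟩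
      have := ho4 (Nat.Odd.sub_odd hD hmo)
      omega
    obtain ⟨w₀, hw₀, a₀, b₀, _⟩ := hodd m₀ hm₀
    obtain ⟨w₁, hw₁, a₁, b₁, _, d₁⟩ := hnext w₀ hw₀ a₀
    obtain ⟨w₂, hw₂, _, b₂, c₂, d₂⟩ := hnext w₁ hw₁ a₁
    rcases hnot _ _ c₂ with h | h
    · exact exch 2 w₁ hroom hw₁ (b₁.trans b₀) d₁ h
    · exact exch 2 w₂ hroom hw₂ (b₂.trans (b₁.trans b₀)) d₂ h

end Pool.Agent.Lib.MP_234657_nt
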