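import Pool.Agent.Lib.MP_234657_nt.ArgSum
import Pool.Agent.Lib.MP_234657_nt.Chain
import Pool.Agent.Lib.MP_234657_nt.Extremal

namespace Pool.Agent.Lib.MP_234657_nt

open Finset

theorem tail_bound (u : ℕ → ℝ) (hu : ∀ n, |u n| ≤ 1) {x S : ℝ} (hx0 : 0 ≤ x) (hx : x < 1)
    (h : HasSum (fun n : ℕ => u n * x ^ n / n) S) (m : ℕ) (hm : 1 ≤ m) :
    |S - ∑ n ∈ range m, u n * x ^ n / n| ≤ x ^ m / m * (1 - x)⁻¹ := by
  have h1 := (hasSum_nat_add_iff' m).2 h
  have h2 := (hasSum_geometric_of_lt_one hx0 hx).mul_left (x ^ m / m)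
  refine h1.norm_le_of_bounded h2 fun n => ?_
  have hm' : (0 : ℝ) < m := by exact_mod_cast hm
  have hnm : (m : ℝ) ≤ ((n + m : ℕ) : ℝ) := by exact_mod_cast Nat.le_add_left m n
  rw [Real.norm_eq_abs, abs_div, abs_mul, abs_of_nonneg (pow_nonneg hx0 _), Nat.abs_cast, pow_add]
  calc |u (n + m)| * (x ^ n * x ^ m) / ((n + m : ℕ) : ℝ) ≤ 1 * (x ^ n * x ^ m) / m := by
        gcongr
        exact hu _
    _ = x ^ m / m * x ^ n := by ring

theorem hasSum_phi {N : ℕ} (hN : N ≠ 0) {L : ℂ → ℝ} {lam : ℕ → ℝ}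
    (hL : ∀ ξ : ℂ, ξ ^ N = 1 → L ξ = ∑ s ∈ range N, lam s * (ξ ^ s).im) {ξ : ℂ} (hξ : ξ ^ N = 1)
    {x : ℝ} (hx0 : 0 ≤ x) (hx : x < 1) :
    HasSum (fun n : ℕ => L (ξ ^ n) * x ^ n / n)
      (∑ s ∈ range N, lam s * (-Complex.log (1 - ξ ^ s * x)).im) := by
  have hn : ‖ξ‖ = 1 := Complex.norm_eq_one_of_pow_eq_one hξ hN
  have h1 : ∀ s ∈ range N, HasSum (fun n : ℕ => lam s * ((ξ ^ s * x) ^ n / n).im)
      (lam s * (-Complex.log (1 - ξ ^ s * x)).im) := by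
    intro s _
    refine (Complex.hasSum_im (Complex.hasSum_taylorSeries_neg_log ?_)).mul_left _
    rw [norm_mul, norm_pow, hn, one_pow, one_mul, Complex.norm_real, Real.norm_eq_abs,
      abs_of_nonneg hx0]
    exact hx
  have h2 := hasSum_sum h1
  have e : (fun n : ℕ => L (ξ ^ n) * x ^ n / n) =
      fun n : ℕ => ∑ s ∈ range N, lam s * ((ξ ^ s * x) ^ n / n).im := by
    funext n
    rw [hL (ξ ^ n) (by rw [← pow_mul, mul_comm, pow_mul, hξ, one_pow]), sum_mul, sum_div]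
    refine sum_congr rfl fun s _ => ?_
    have e1 : (ξ ^ s * x) ^ n / n = (ξ ^ n) ^ s * ((x ^ n / n : ℝ) : ℂ) := by
      push_cast
      ring
    rw [e1, Complex.im_mul_ofReal]
    ring
  rw [e]
  exact h2

theorem im_log_eq_zero {w : ℂ} (h : w.im = 0) (hw : ‖w‖ < 1) : (Complex.log (1 - w)).im = 0 := by
  rw [Complex.log_im, Complex.arg_eq_zero_iff]
  have := (abs_le.1 (Complex.abs_re_le_norm w)).2
  simp only [Complex.sub_re, Complex.one_re, Complex.sub_im, Complex.one_im, h]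
  constructor <;> linarith

theorem im_pow_eq_zero {w : ℂ} (h : w.im = 0) (n : ℕ) : (w ^ n).im = 0 := by
  induction n with
  | zero => simp
  | succ n ih => rw [pow_succ, Complex.mul_im, h, ih]; simp

theorem exists_F {D κ N : ℕ} (hκ : 2 ≤ κ) (χ : DirichletCharacter ℂ D) (hN : 2 ≤ N)
    (hχ : ∀ a, χ a = 0 ∨ χ a ^ N = 1)
    (H : ∀ m, 0 < m → m < D → Nat.Coprime m D →
      (starRingEnd ℂ (sg κ χ m) * sg κ χ (D - m)).im = 0)
    {L : ℂ → ℝ} (hL : Adm N L) (hL1 : ∀ ξ, |L ξ| ≤ 1) :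
    ∃ F : ℕ → ℝ, (∀ m n, m ≠ 0 → n ≠ 0 → Nat.Coprime m n → F (m * n) = F m + F n) ∧
      (∀ m, 0 < m → m < D → Nat.Coprime m D → F (D - m) = F m) ∧
      (∀ p a : ℕ, p.Prime → (χ (p : ZMod D)).im = 0 → F (p ^ a) = 0) ∧
      ∀ p : ℕ, p.Prime → (χ (p : ZMod D)).im ≠ 0 →
        (∀ a, 0 < a → |F (p ^ a) - L (χ (p : ZMod D)) * ((p : ℝ) ^ κ)⁻¹| ≤
          7 / 4 * ((p : ℝ) ^ κ)⁻¹ ^ 2) ∧
        ((∀ n, L (χ (p : ZMod D) ^ (2 * n)) = 0) →
          |F p - L (χ (p : ZMod D)) * ((p : ℝ) ^ κ)⁻¹| ≤ 4 / 9 * ((p : ℝ) ^ κ)⁻¹ ^ 3 ∧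
          ∀ a, 0 < a → |F (p ^ a) - L (χ (p : ZMod D)) * ((p : ℝ) ^ κ)⁻¹| ≤
            3 / 2 * ((p : ℝ) ^ κ)⁻¹ ^ 3) := by
  obtain ⟨lam, hlam, hL⟩ := hL
  have hN0 : N ≠ 0 := by omega
  have hs0 : ∀ s, Nat.Coprime s N → s ≠ 0 := by
    rintro s hs rfl
    rw [Nat.coprime_zero_left] at hs
    omega
  refine ⟨fun n => ∑ s ∈ range N, lam s * (Lam κ (χ ^ s) n).im, fun m n _ _ h => ?_,
    fun m h0 h1 hc => ?_, fun p a hp him => ?_, fun p hp him => ?_⟩
  · simp only [Lam_mul κ _ h, Complex.add_im, mul_add, sum_add_distrib]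
  · refine sum_congr rfl fun s _ => ?_
    by_cases hs : Nat.Coprime s N
    · rw [Lam_im_eq hκ (χ ^ s) h0.ne' (by omega) (galois_im κ χ hN hχ hs _ _ (H m h0 h1 hc))]
    · rw [hlam s hs, zero_mul, zero_mul]
  · refine sum_eq_zero fun s _ => ?_
    by_cases hs : Nat.Coprime s N
    · have hw := (norm_w_le hκ (χ ^ s) hp.one_le).trans (inv_sq_le_quarter hp.two_le)
      have hw1 : ‖(χ ^ s) (p : ZMod D) / (p : ℂ) ^ κ‖ < 1 := by linarith
      have hw2 : ‖((χ ^ s) (p : ZMod D) / (p : ℂ) ^ κ) ^ (a + 1)‖ < 1 := by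
        rw [norm_pow]
        exact pow_lt_one₀ (norm_nonneg _) hw1 (Nat.succ_ne_zero a)
      have hi : ((χ ^ s) (p : ZMod D) / (p : ℂ) ^ κ).im = 0 := by
        have e : (p : ℂ) ^ κ = (((p : ℝ) ^ κ : ℝ) : ℂ) := by push_cast; rfl
        rw [e, Complex.div_ofReal_im, χ.pow_apply' (hs0 s hs), im_pow_eq_zero him, zero_div]
      rw [Lam_prime_pow κ _ hp, ell, Complex.sub_im, im_log_eq_zero hi hw1,
        im_log_eq_zero (im_pow_eq_zero hi _) hw2, sub_zero, mul_zero]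
    · rw [hlam s hs, zero_mul]
  · have hζ : χ (p : ZMod D) ^ N = 1 := (hχ _).resolve_left fun h => him (by rw [h]; rfl)
    have hp2 : (2 : ℝ) ≤ p := by exact_mod_cast hp.two_le
    have hx0 : 0 < ((p : ℝ) ^ κ)⁻¹ := by positivity
    have hx4 : ((p : ℝ) ^ κ)⁻¹ ≤ 1 / 4 :=
      (inv_anti₀ (by positivity) (pow_le_pow_right₀ (by linarith) hκ)).trans
        (inv_sq_le_quarter hp.two_le)
    have hF : ∀ a, ∑ s ∈ range N, lam s * (Lam κ (χ ^ s) (p ^ a)).im =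
        ∑ s ∈ range N, lam s *
          (-Complex.log (1 - χ (p : ZMod D) ^ s * ((((p : ℝ) ^ κ)⁻¹ : ℝ) : ℂ))).im -
        ∑ s ∈ range N, lam s * (-Complex.log (1 - (χ (p : ZMod D) ^ (a + 1)) ^ s *
          ((((p : ℝ) ^ κ)⁻¹ ^ (a + 1) : ℝ) : ℂ))).im := by
      intro a
      rw [← sum_sub_distrib]
      refine sum_congr rfl fun s _ => ?_
      by_cases hs : Nat.Coprime s N
      · have e1 : χ (p : ZMod D) ^ s / (p : ℂ) ^ κ =
            χ (p : ZMod D) ^ s * ((((p : ℝ) ^ κ)⁻¹ : ℝ) : ℂ) := by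
          push_cast
          rw [div_eq_mul_inv]
        have e2 : (χ (p : ZMod D) ^ s * ((((p : ℝ) ^ κ)⁻¹ : ℝ) : ℂ)) ^ (a + 1) =
            (χ (p : ZMod D) ^ (a + 1)) ^ s * ((((p : ℝ) ^ κ)⁻¹ ^ (a + 1) : ℝ) : ℂ) := by
          push_cast
          ring
        rw [Lam_prime_pow κ _ hp, ell, χ.pow_apply' (hs0 s hs), e1, e2, Complex.sub_im,
          Complex.neg_im, Complex.neg_im]
        ring
      · rw [hlam s hs, zero_mul, zero_mul, zero_mul, sub_zero]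
    have hF1 := hF 1
    rw [pow_one] at hF1
    simp only
    simp only [hF, hF1]
    generalize ((p : ℝ) ^ κ)⁻¹ = x at hx0 hx4 ⊢
    generalize χ (p : ZMod D) = ζ at hζ ⊢
    have s1 := hasSum_phi hN0 hL hζ hx0.le (by linarith : x < 1)
    have s2 : ∀ a : ℕ, HasSum (fun n : ℕ => L ((ζ ^ (a + 1)) ^ n) * (x ^ (a + 1)) ^ n / n)
        (∑ s ∈ range N, lam s * (-Complex.log (1 - (ζ ^ (a + 1)) ^ s *
          ((x ^ (a + 1) : ℝ) : ℂ))).im) := fun a =>
      hasSum_phi hN0 hL (by rw [← pow_mul, mul_comm, pow_mul, hζ, one_pow]) (by positivity)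
        (pow_lt_one₀ hx0.le (by linarith) (Nat.succ_ne_zero a))
    generalize ∑ s ∈ range N, lam s * (-Complex.log (1 - ζ ^ s * (x : ℂ))).im = Φ at s1 ⊢
    have t2 := tail_bound _ (fun n => hL1 _) hx0.le (by linarith) s1 2 (by norm_num)
    have t3 := tail_bound _ (fun n => hL1 _) hx0.le (by linarith) s1 3 (by norm_num)
    simp only [sum_range_succ, range_zero, sum_empty, Nat.cast_zero, div_zero, add_zero, zero_add,
      pow_one, Nat.cast_one, div_one, Nat.cast_ofNat] at t2 t3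
    have i1 : (1 - x)⁻¹ ≤ 4 / 3 := by
      rw [inv_le_comm₀ (by linarith) (by norm_num)]
      linarith
    have t1 : ∀ a j : ℕ, j ≤ a + 1 → ∀ c : ℝ, x ^ j ≤ c → c < 1 →
        |∑ s ∈ range N, lam s * (-Complex.log (1 - (ζ ^ (a + 1)) ^ s *
          ((x ^ (a + 1) : ℝ) : ℂ))).im| ≤ x ^ j * (1 - c)⁻¹ := by
      intro a j hj c hc hc1
      have hy : x ^ (a + 1) ≤ x ^ j := pow_le_pow_of_le_one hx0.le (by linarith) hj
      have := tail_bound _ (fun n => hL1 _) (by positivity) (by linarith) (s2 a) 1 le_rfl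
      simp only [sum_range_succ, range_zero, sum_empty, Nat.cast_zero, div_zero, add_zero,
        pow_one, Nat.cast_one, div_one, sub_zero] at this
      refine this.trans (mul_le_mul hy (inv_anti₀ (by linarith) (by linarith))
        (inv_nonneg.2 (by linarith)) (by positivity))
    have x2 : x ^ 2 ≤ 1 / 16 := by nlinarith
    have x3 : x ^ 3 ≤ 1 / 64 := by nlinarith
    have p2 : 0 ≤ x ^ 2 := by positivity
    have p3 : 0 ≤ x ^ 3 := by positivity
    refine ⟨fun a ha => ?_, fun hev => ?_⟩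
    · have b1 := abs_le.1 (t1 a 2 (by omega) (1 / 16) x2 (by norm_num))
      have b2 := abs_le.1 (t2.trans (mul_le_mul_of_nonneg_left i1 (by positivity)))
      rw [show (1 - 1 / 16 : ℝ)⁻¹ = 16 / 15 by norm_num] at b1
      rw [abs_le]
      constructor <;> linarith [b1.1, b1.2, b2.1, b2.2]
    · have hz : ∀ a, Odd a → ∑ s ∈ range N, lam s * (-Complex.log (1 - (ζ ^ (a + 1)) ^ s *
          ((x ^ (a + 1) : ℝ) : ℂ))).im = 0 := by
        rintro a ⟨b, rfl⟩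
        refine (s2 (2 * b + 1)).unique ?_
        have e : (fun n : ℕ => L ((ζ ^ (2 * b + 1 + 1)) ^ n) * (x ^ (2 * b + 1 + 1)) ^ n / n) =
            fun _ => 0 := by
          funext n
          have e1 : (ζ ^ (2 * b + 1 + 1)) ^ n = ζ ^ (2 * ((b + 1) * n)) := by ring
          rw [e1, hev, zero_mul, zero_div]
        rw [e]
        exact hasSum_zero
      have h2 := hev 1
      rw [mul_one] at h2
      rw [h2, zero_mul, zero_div, add_zero] at t3
      have b2 := abs_le.1 (t3.trans (mul_le_mul_of_nonneg_left i1 (by positivity)))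
      refine ⟨?_, fun a ha => ?_⟩
      · rw [hz 1 odd_one, sub_zero, abs_le]
        constructor <;> linarith [b2.1, b2.2]
      · rcases Nat.even_or_odd a with he | ho
        · have ha2 : 3 ≤ a + 1 := by
            obtain ⟨b, rfl⟩ := he
            omega
          have b1 := abs_le.1 (t1 a 3 ha2 (1 / 64) x3 (by norm_num))
          rw [show (1 - 1 / 64 : ℝ)⁻¹ = 64 / 63 by norm_num] at b1
          rw [abs_le]
          constructor <;> linarith [b1.1, b1.2, b2.1, b2.2]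
        · rw [hz a ho, sub_zero, abs_le]
          constructor <;> linarith [b2.1, b2.2]

end Pool.Agent.Lib.MP_234657_nt
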