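import Pool.Agent.Lib.MP_234657_nt.Lfun
import Pool.Agent.Lib.MP_234657_nt.ArgSum

namespace Pool.Agent.Lib.MP_234657_nt

open Finset

variable {D : ℕ} {χ : DirichletCharacter ℂ D} {comp : (d : ℕ) → DirichletCharacter ℂ d}

theorem modOne_apply (φ : DirichletCharacter ℂ 1) (a : ZMod 1) : φ a = 1 := by
  rw [Subsingleton.elim a 1, map_one]

theorem IsDecomp.comp_eq [NeZero D] (h : IsDecomp χ comp) : comp D = χ := by
  ext a
  have h1 := h D 1 (mul_one D) (a : ZMod D).val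
  rw [modOne_apply, mul_one, ZMod.natCast_zmod_val] at h1
  exact h1.symm

theorem cast_pred_eq_neg_one {d n : ℕ} (hn : n ≠ 0) (h : d ∣ n) :
    ((n - 1 : ℕ) : ZMod d) = -1 := by
  rw [Nat.cast_sub (Nat.pos_of_ne_zero hn), (ZMod.natCast_eq_zero_iff n d).2 h]
  simp

theorem IsDecomp.parity (h : IsDecomp χ comp) (hD : D ≠ 0) {d₁ d₂ : ℕ} (hd : d₁ * d₂ = D) :
    comp d₁ (-1) * comp d₂ (-1) = χ (-1) := by
  have h1 := h d₁ d₂ hd (D - 1)
  rw [cast_pred_eq_neg_one hD dvd_rfl, cast_pred_eq_neg_one hD (Dvd.intro _ hd),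
    cast_pred_eq_neg_one hD (Dvd.intro_left _ hd)] at h1
  exact h1.symm

theorem star_neg_one {d : ℕ} (φ : DirichletCharacter ℂ d) : (star φ) (-1) = φ (-1) := by
  rw [MulChar.star_apply]
  rcases φ.even_or_odd with h | h
  · rw [h, star_one]
  · rw [h, star_neg, star_one]

theorem IsDecomp.unique {comp' : (d : ℕ) → DirichletCharacter ℂ d} (h : IsDecomp χ comp)
    (h' : IsDecomp χ comp') (hD : Squarefree D) {d : ℕ} (hd : d ∣ D) : comp d = comp' d := by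
  obtain ⟨d', rfl⟩ := hd
  have hc : Nat.Coprime d d' := Nat.coprime_of_squarefree_mul hD
  have : NeZero d := ⟨left_ne_zero_of_mul hD.ne_zero⟩
  ext a
  obtain ⟨n, h1, h2⟩ := Nat.chineseRemainder hc (a : ZMod d).val 1
  have e1 : (n : ZMod d) = a := by
    rw [(ZMod.natCast_eq_natCast_iff _ _ _).2 h1, ZMod.natCast_zmod_val]
  have e2 : (n : ZMod d') = 1 := by
    rw [(ZMod.natCast_eq_natCast_iff _ _ _).2 h2, Nat.cast_one]
  have a1 := h d d' rfl n
  have a2 := h' d d' rfl n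
  rw [e1, e2, map_one, mul_one] at a1 a2
  rw [← a1, ← a2]

theorem aa_congr {comp' : (d : ℕ) → DirichletCharacter ℂ d} (h : ∀ d, d ∣ D → comp d = comp' d)
    (l k e n : ℕ) : aa D comp l k e n = aa D comp' l k e n := by
  refine sum_congr rfl fun p hp => ?_
  have hp' := (Nat.mem_divisorsAntidiagonal.1 hp).1
  rw [h p.1 (Dvd.intro _ hp'), h p.2 (Dvd.intro_left _ hp')]

/-- The part of `a(1)` without constant terms. -/
noncomputable def err (D : ℕ) (comp : (d : ℕ) → DirichletCharacter ℂ d) (l k e : ℕ) : ℂ :=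
  ∑ p ∈ D.divisorsAntidiagonal, star (comp p.2) (-1) * ((p.2 : ℂ) ^ e)⁻¹ *
    ∑ m ∈ Ioo 0 p.2, sig l (comp p.1) (star (comp p.2)) m *
      sig k (star (comp p.1)) (comp p.2) (p.2 - m) * cc l k e (m : ℂ) ((p.2 - m : ℕ) : ℂ)

theorem sum_range_split (f : ℕ → ℂ) {n : ℕ} (hn : 1 ≤ n) :
    ∑ m ∈ range (n + 1), f m = (f 0 + f n) + ∑ m ∈ Ioo 0 n, f m := by
  have e : range (n + 1) = insert 0 (insert n (Ioo 0 n)) := by
    ext m
    simp only [mem_range, mem_insert, mem_Ioo]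
    omega
  rw [e, sum_insert (by simp only [mem_insert, mem_Ioo]; omega), sum_insert (by simp), add_assoc]

theorem aa_eq [NeZero D] (h : IsDecomp χ comp) {l k : ℕ} (hl : 2 ≤ l) (hk : 2 ≤ k)
    (hpl : χ (-1) = (-1) ^ l) (hpk : χ (-1) = (-1) ^ k) (e : ℕ) :
    aa D comp l k e 1 = ((e + l - 1).choose e : ℂ) * (χ.LFunction (1 - l) / 2) +
      (-1) ^ e * ((e + k - 1).choose e : ℂ) * (χ⁻¹.LFunction (1 - k) / 2) + err D comp l k e := by
  have hD := NeZero.ne D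
  rw [aa, err]
  simp only [one_mul]
  have e1 : ∀ p ∈ D.divisorsAntidiagonal, star (comp p.2) (-1) * ((p.2 : ℂ) ^ e)⁻¹ *
      ∑ m ∈ range (p.2 + 1), sig l (comp p.1) (star (comp p.2)) m *
        sig k (star (comp p.1)) (comp p.2) (p.2 - m) * cc l k e (m : ℂ) ((p.2 - m : ℕ) : ℂ) =
      star (comp p.2) (-1) * ((p.2 : ℂ) ^ e)⁻¹ * (sig l (comp p.1) (star (comp p.2)) 0 *
        sig k (star (comp p.1)) (comp p.2) p.2 * cc l k e 0 (p.2 : ℂ) +
        sig l (comp p.1) (star (comp p.2)) p.2 *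
        sig k (star (comp p.1)) (comp p.2) 0 * cc l k e (p.2 : ℂ) 0) +
      star (comp p.2) (-1) * ((p.2 : ℂ) ^ e)⁻¹ *
      ∑ m ∈ Ioo 0 p.2, sig l (comp p.1) (star (comp p.2)) m *
        sig k (star (comp p.1)) (comp p.2) (p.2 - m) * cc l k e (m : ℂ) ((p.2 - m : ℕ) : ℂ) := by
    intro p hp
    rw [sum_range_split _ (Nat.pos_of_ne_zero (Nat.right_ne_zero_of_mem_divisorsAntidiagonal hp)),
      mul_add, Nat.sub_zero, Nat.sub_self, Nat.cast_zero]
  rw [sum_congr rfl e1, sum_add_distrib]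
  congr 1
  rw [sum_eq_single (D, 1)]
  · simp only
    rw [h.comp_eq, modOne_apply, sig_one, sig_one, sig_zero_modOne, sig_zero_modOne, Nat.cast_one,
      cc_zero_one, cc_one_zero, MulChar.star_eq_inv]
    simp only [one_pow, inv_one, mul_one, one_mul]
    ring
  · intro p hp hne
    have hp' := (Nat.mem_divisorsAntidiagonal.1 hp).1
    have h1 := Nat.left_ne_zero_of_mem_divisorsAntidiagonal hp
    have h2 := Nat.right_ne_zero_of_mem_divisorsAntidiagonal hp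
    have h3 : p.2 ≠ 1 := by
      intro h3
      apply hne
      rw [h3, mul_one] at hp'
      exact Prod.ext hp' h3
    have h4 := h.parity hD hp'
    rw [sig_zero_eq_zero (comp p.1) (star (comp p.2)) h1 h2 h3 hl (by rw [star_neg_one, h4, hpl]),
      sig_zero_eq_zero (star (comp p.1)) (comp p.2) h1 h2 h3 hk (by rw [star_neg_one, h4, hpk])]
    simp
  · intro hne
    exact absurd (Nat.mem_divisorsAntidiagonal.2 ⟨mul_one D, hD⟩) hne

theorem norm_err_le (hD : D ≠ 0) (comp : (d : ℕ) → DirichletCharacter ℂ d) {l k : ℕ} (hl : 1 ≤ l)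
    (hlk : l ≤ k) (e : ℕ) : ‖err D comp l k e‖ ≤ (2 * (D : ℝ) ^ 5) ^ k := by
  have hD' : (1 : ℝ) ≤ D := by exact_mod_cast Nat.pos_of_ne_zero hD
  have h1 : ∀ p ∈ D.divisorsAntidiagonal, ‖star (comp p.2) (-1) * ((p.2 : ℂ) ^ e)⁻¹ *
      ∑ m ∈ Ioo 0 p.2, sig l (comp p.1) (star (comp p.2)) m *
        sig k (star (comp p.1)) (comp p.2) (p.2 - m) * cc l k e (m : ℂ) ((p.2 - m : ℕ) : ℂ)‖ ≤
      D * ((D : ℝ) ^ k * (D : ℝ) ^ k * (2 * (D : ℝ)) ^ k) := by
    intro p hp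
    have hp2 : p.2 ≤ D := Nat.le_of_dvd (Nat.pos_of_ne_zero hD)
      (Dvd.intro_left _ (Nat.mem_divisorsAntidiagonal.1 hp).1)
    have hp2' : (p.2 : ℝ) ≤ D := by exact_mod_cast hp2
    have hp0 : (0 : ℝ) < p.2 := by
      exact_mod_cast Nat.pos_of_ne_zero (Nat.right_ne_zero_of_mem_divisorsAntidiagonal hp)
    have h2 : ∀ m ∈ Ioo 0 p.2, ‖sig l (comp p.1) (star (comp p.2)) m *
        sig k (star (comp p.1)) (comp p.2) (p.2 - m) * cc l k e (m : ℂ) ((p.2 - m : ℕ) : ℂ)‖ ≤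
        (D : ℝ) ^ k * (D : ℝ) ^ k * ((p.2 : ℝ) ^ e * (2 * (D : ℝ)) ^ k) := by
      intro m hm
      obtain ⟨a, b⟩ := mem_Ioo.1 hm
      have c := norm_cc_le (e := e) (m := m) (n := p.2 - m) hl hlk a (by omega)
      rw [Nat.add_sub_cancel' b.le] at c
      rw [norm_mul, norm_mul]
      gcongr
      · exact norm_sig_le _ _ hl hlk a (by omega)
      · exact norm_sig_le _ _ (hl.trans hlk) le_rfl (by omega) (by omega)
      · refine c.trans ?_
        gcongr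
    have h3 := (norm_sum_le _ _).trans (sum_le_card_nsmul _ _ _ h2)
    have h4 : ((Ioo 0 p.2).card : ℝ) ≤ D := by
      rw [Nat.card_Ioo]
      exact_mod_cast (by omega : p.2 - 0 - 1 ≤ D)
    rw [nsmul_eq_mul] at h3
    rw [norm_mul, norm_mul, norm_inv, norm_pow, Complex.norm_natCast]
    calc _ ≤ 1 * ((p.2 : ℝ) ^ e)⁻¹ *
          (D * ((D : ℝ) ^ k * (D : ℝ) ^ k * ((p.2 : ℝ) ^ e * (2 * (D : ℝ)) ^ k))) := by
          gcongr
          · exact (star (comp p.2)).norm_le_one _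
          · refine h3.trans ?_
            gcongr
      _ = _ := by field_simp
  refine (norm_sum_le _ _).trans ((sum_le_sum h1).trans ?_)
  rw [Nat.sum_divisorsAntidiagonal
    (f := fun _ _ => D * ((D : ℝ) ^ k * (D : ℝ) ^ k * (2 * (D : ℝ)) ^ k)), sum_const, nsmul_eq_mul]
  have h2 : (D.divisors.card : ℝ) ≤ D := by exact_mod_cast Nat.card_divisors_le_self D
  have h3 : (D : ℝ) ≤ (D : ℝ) ^ k := le_self_pow₀ hD' (by omega)
  calc _ ≤ (D : ℝ) ^ k * ((D : ℝ) ^ k * ((D : ℝ) ^ k * (D : ℝ) ^ k * (2 * (D : ℝ)) ^ k)) := by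
        gcongr
        exact h2.trans h3
    _ = _ := by ring

/-- The weight of `M / D`. -/
noncomputable def wt (D : ℕ) (comp : (d : ℕ) → DirichletCharacter ℂ d) (k M : ℕ) : ℂ :=
  ∑ p ∈ D.divisorsAntidiagonal, if p.1 ∣ M then star (comp p.2) (-1) *
    (sig k (comp p.1) (star (comp p.2)) (M / p.1) *
      sig k (star (comp p.1)) (comp p.2) (p.2 - M / p.1)) else 0

theorem err_eq (comp : (d : ℕ) → DirichletCharacter ℂ d) {k : ℕ} (hk : 1 ≤ k) (e : ℕ) :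
    (D : ℂ) ^ e * err D comp k k e = ∑ M ∈ Ioo 0 D, wt D comp k M * cf ℂ D (k - 1) M e := by
  simp only [err, wt, sum_mul]
  rw [sum_comm, mul_sum]
  refine sum_congr rfl fun p hp => ?_
  obtain ⟨d₁, d₂⟩ := p
  have hp' : d₁ * d₂ = D := (Nat.mem_divisorsAntidiagonal.1 hp).1
  have h1 : d₁ ≠ 0 := Nat.left_ne_zero_of_mem_divisorsAntidiagonal hp
  have h2 : d₂ ≠ 0 := Nat.right_ne_zero_of_mem_divisorsAntidiagonal hp
  have h1' : 0 < d₁ := Nat.pos_of_ne_zero h1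
  have h2' : (d₂ : ℂ) ^ e ≠ 0 := pow_ne_zero _ (by exact_mod_cast h2)
  simp only [ite_mul, zero_mul]
  rw [← sum_filter, mul_sum, mul_sum]
  subst hp'
  refine sum_bij (fun m _ => d₁ * m) ?_ ?_ ?_ ?_
  · intro m hm
    obtain ⟨a, b⟩ := mem_Ioo.1 hm
    exact mem_filter.2 ⟨mem_Ioo.2 ⟨Nat.mul_pos h1' a, Nat.mul_lt_mul_of_pos_left b h1'⟩,
      Dvd.intro _ rfl⟩
  · intro a _ b _ hab
    exact Nat.eq_of_mul_eq_mul_left h1' hab
  · intro M hM
    obtain ⟨hM1, m, rfl⟩ := mem_filter.1 hM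
    obtain ⟨a, b⟩ := mem_Ioo.1 hM1
    exact ⟨m, mem_Ioo.2 ⟨Nat.pos_of_mul_pos_left a, Nat.lt_of_mul_lt_mul_left b⟩, rfl⟩
  · intro m hm
    obtain ⟨a, b⟩ := mem_Ioo.1 hm
    have e1 := cc_smul k k e (d₁ : ℂ) (m : ℂ) ((d₂ - m : ℕ) : ℂ)
    have e2 : (d₁ : ℂ) * ((d₂ - m : ℕ) : ℂ) = ((d₁ * d₂ : ℕ) : ℂ) - ((d₁ * m : ℕ) : ℂ) := by
      rw [Nat.cast_sub b.le]
      push_cast
      ring
    rw [e2, ← Nat.cast_mul, cc_eq_cf hk] at e1
    rw [Nat.mul_div_cancel_left _ h1', e1, Nat.cast_mul, mul_pow]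
    field_simp

theorem sig_modOne {k : ℕ} (φ : DirichletCharacter ℂ 1) (ψ : DirichletCharacter ℂ D) {n : ℕ}
    (hn : n ≠ 0) : sig k φ ψ n = sg (k - 1) ψ n := by
  rw [sig, if_neg hn, sg]
  exact sum_congr rfl fun d _ => by rw [modOne_apply, one_mul]

theorem sg_star (κ : ℕ) (χ : DirichletCharacter ℂ D) (n : ℕ) :
    sg κ (star χ) n = starRingEnd ℂ (sg κ χ n) := by
  simp only [sg, map_sum, map_mul, map_pow, Complex.conj_natCast, MulChar.star_apply]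
  rfl

theorem wt_coprime [NeZero D] (h : IsDecomp χ comp) (k : ℕ) {M : ℕ} (h0 : 0 < M) (h1 : M < D)
    (hc : Nat.Coprime M D) :
    wt D comp k M = χ (-1) * (starRingEnd ℂ (sg (k - 1) χ M) * sg (k - 1) χ (D - M)) := by
  rw [wt, sum_eq_single (1, D)]
  · simp only [one_dvd, if_true, Nat.div_one]
    rw [h.comp_eq, star_neg_one, sig_modOne _ _ h0.ne', sig_modOne _ _ (by omega), sg_star]
  · intro p hp hne
    rw [if_neg]
    intro hd
    have hp' := (Nat.mem_divisorsAntidiagonal.1 hp).1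
    have h2 : p.1 = 1 := Nat.eq_one_of_dvd_coprimes hc hd (Dvd.intro _ hp')
    apply hne
    rw [h2, one_mul] at hp'
    exact Prod.ext h2 hp'
  · intro hne
    exact absurd (Nat.mem_divisorsAntidiagonal.2 ⟨one_mul D, NeZero.ne D⟩) hne

end Pool.Agent.Lib.MP_234657_nt
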