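import Mathlib

namespace Pool.Agent.Lib.MP_234657_nt

open Finset

/-- The value `L(s, φ)` of the analytically continued Dirichlet L-function (Mathlib's
`DirichletCharacter.LFunction`; for modulus `1` it is the Riemann zeta function).
The modulus `0` never occurs. -/
noncomputable def Lval {d : ℕ} (φ : DirichletCharacter ℂ d) (s : ℂ) : ℂ :=
  if h : d = 0 then 0 else
    haveI : NeZero d := ⟨h⟩
    φ.LFunction s

/-- `σ_{l-1, φ, ψ}(n)`. -/
noncomputable def sig (l : ℕ) {d₁ d₂ : ℕ} (φ : DirichletCharacter ℂ d₁)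
    (ψ : DirichletCharacter ℂ d₂) (n : ℕ) : ℂ :=
  if n = 0 then -Lval φ (1 - (l : ℂ)) * Lval ψ 0
  else ∑ d ∈ n.divisors, φ (d : ZMod d₁) * ψ ((n / d : ℕ) : ZMod d₂) * (d : ℂ) ^ (l - 1)

/-- `c_e(x, y)` for the weights `l`, `k`. -/
noncomputable def cc (l k e : ℕ) (x y : ℂ) : ℂ :=
  ∑ j ∈ range (e + 1), (-1) ^ j * ((e + l - 1).choose (e - j) : ℂ) *
    ((e + k - 1).choose j : ℂ) * x ^ j * y ^ (e - j)

/-- `comp d` is a character modulo `d`, and `χ = comp D₁ * comp D₂` for every factorisation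
`D = D₁ D₂`. -/
def IsDecomp {D : ℕ} (χ : DirichletCharacter ℂ D)
    (comp : (d : ℕ) → DirichletCharacter ℂ d) : Prop :=
  ∀ D₁ D₂ : ℕ, D₁ * D₂ = D → ∀ n : ℕ,
    χ (n : ZMod D) = comp D₁ (n : ZMod D₁) * comp D₂ (n : ZMod D₂)

/-- `a_{D,l,k,e}(n; χ)`, where `χ₁ = comp D₁`, `χ₂ = comp D₂` and `star` is complex
conjugation of characters. -/
noncomputable def aa (D : ℕ) (comp : (d : ℕ) → DirichletCharacter ℂ d) (l k e n : ℕ) : ℂ :=
  ∑ p ∈ D.divisorsAntidiagonal, star (comp p.2) (-1) * ((p.2 : ℂ) ^ e)⁻¹ *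
    ∑ m ∈ range (n * p.2 + 1), sig l (comp p.1) (star (comp p.2)) m *
      sig k (star (comp p.1)) (comp p.2) (n * p.2 - m) *
        cc l k e (m : ℂ) ((n * p.2 - m : ℕ) : ℂ)

end Pool.Agent.Lib.MP_234657_nt
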