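import Pool.Agent.Lib.MP_234657_nt.Final

namespace Pool.Agent.Lib.MP_234657_nt

theorem exists_component {D d d' : ℕ} (hd : d * d' = D) (hc : Nat.Coprime d d')
    (χ : DirichletCharacter ℂ D) : ∃ φ : DirichletCharacter ℂ d,
      ∀ n : ℕ, (n : ZMod d') = 1 → φ (n : ZMod d) = χ (n : ZMod D) := by
  subst hd
  set e := ZMod.chineseRemainder hc with he
  refine ⟨⟨⟨⟨fun a => χ (e.symm (a, 1)), ?_⟩, fun a b => ?_⟩, fun a ha => ?_⟩, fun n hn => ?_⟩
  · change χ (e.symm 1) = 1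
    rw [map_one, map_one]
  · change χ (e.symm (a * b, 1)) = χ (e.symm (a, 1)) * χ (e.symm (b, 1))
    rw [← map_mul, ← map_mul, Prod.mk_mul_mk, mul_one]
  · refine χ.map_nonunit fun hu => ha ?_
    have h1 := (hu.map e).map (RingHom.fst (ZMod d) (ZMod d'))
    simpa using h1
  · change χ (e.symm ((n : ZMod d), 1)) = χ (n : ZMod (d * d'))
    congr 1
    rw [RingEquiv.symm_apply_eq, map_natCast, ← hn]
    rfl

theorem IsDecomp.isPrimitive {D : ℕ} {χ : DirichletCharacter ℂ D}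
    {comp : (d : ℕ) → DirichletCharacter ℂ d} (h : IsDecomp χ comp) (hD : D ≠ 0)
    (hχ : χ.IsPrimitive) {d : ℕ} (hd : d ∣ D) : (comp d).IsPrimitive := by
  obtain ⟨d', rfl⟩ := hd
  have : NeZero (d * d') := ⟨hD⟩
  have : NeZero d := ⟨left_ne_zero_of_mul hD⟩
  have : NeZero d' := ⟨right_ne_zero_of_mul hD⟩
  have e : χ = DirichletCharacter.changeLevel (Dvd.intro _ rfl) (comp d) *
      DirichletCharacter.changeLevel (Dvd.intro_left _ rfl) (comp d') := by
    ext a
    have h1 := h d d' rfl (a : ZMod (d * d')).val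
    rw [ZMod.natCast_zmod_val, ZMod.natCast_val, ZMod.natCast_val] at h1
    rw [MulChar.mul_apply, DirichletCharacter.changeLevel_eq_cast_of_dvd,
      DirichletCharacter.changeLevel_eq_cast_of_dvd, h1]
  have h1 := DirichletCharacter.conductor_mul_dvd_lcm_conductor
    (DirichletCharacter.changeLevel (Dvd.intro _ rfl : d ∣ d * d') (comp d))
    (DirichletCharacter.changeLevel (Dvd.intro_left _ rfl : d' ∣ d * d') (comp d'))
  rw [← e, DirichletCharacter.conductor_changeLevel, DirichletCharacter.conductor_changeLevel,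
    hχ] at h1
  have h2 : d * d' ∣ (comp d).conductor * d' :=
    (h1.trans (Nat.lcm_dvd_mul _ _)).trans (Nat.mul_dvd_mul_left _ (comp d').conductor_dvd_level)
  exact Nat.dvd_antisymm (comp d).conductor_dvd_level
    (Nat.dvd_of_mul_dvd_mul_right (Nat.pos_of_ne_zero (NeZero.ne d')) h2)

theorem exists_decomp {D : ℕ} (hD : Squarefree D) (χ : DirichletCharacter ℂ D) :
    ∃ comp : (d : ℕ) → DirichletCharacter ℂ d, IsDecomp χ comp := by
  have h1 : ∀ d : ℕ, ∃ φ : DirichletCharacter ℂ d, ∀ d', d * d' = D →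
      ∀ n : ℕ, (n : ZMod d') = 1 → φ (n : ZMod d) = χ (n : ZMod D) := by
    intro d
    by_cases hd : ∃ d', d * d' = D
    · obtain ⟨d', hd'⟩ := hd
      obtain ⟨φ, hφ⟩ := exists_component hd' (Nat.coprime_of_squarefree_mul (hd' ▸ hD)) χ
      refine ⟨φ, fun d'' hd'' => ?_⟩
      have hd0 : 0 < d := Nat.pos_of_ne_zero (left_ne_zero_of_mul (hd' ▸ hD.ne_zero))
      obtain rfl : d'' = d' := Nat.eq_of_mul_eq_mul_left hd0 (hd''.trans hd'.symm)
      exact hφ
    · exact ⟨1, fun d' hd' => absurd ⟨d', hd'⟩ hd⟩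
  choose comp hcomp using h1
  refine ⟨comp, fun d d' hd n => ?_⟩
  have hc : Nat.Coprime d d' := Nat.coprime_of_squarefree_mul (hd ▸ hD)
  obtain ⟨a, a1, a2⟩ := Nat.chineseRemainder hc n 1
  obtain ⟨b, b1, b2⟩ := Nat.chineseRemainder hc 1 n
  have e1 := hcomp d d' hd a (by rw [(ZMod.natCast_eq_natCast_iff _ _ _).2 a2, Nat.cast_one])
  have e2 := hcomp d' d (by rw [mul_comm, hd]) b
    (by rw [(ZMod.natCast_eq_natCast_iff _ _ _).2 b1, Nat.cast_one])
  have e3 : a * b ≡ n [MOD D] := by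
    rw [← hd, ← Nat.modEq_and_modEq_iff_modEq_mul hc]
    exact ⟨by simpa using a1.mul b1, by simpa using a2.mul b2⟩
  rw [← (ZMod.natCast_eq_natCast_iff _ _ _).2 a1, ← (ZMod.natCast_eq_natCast_iff _ _ _).2 b2, e1, e2,
    ← map_mul, ← Nat.cast_mul, (ZMod.natCast_eq_natCast_iff _ _ _).2 e3]

end Pool.Agent.Lib.MP_234657_nt
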