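import Pool.Agent.Lib.MP_234657_nt.Comb

namespace Pool.Agent.Lib.MP_234657_nt

open Finset

theorem pow_gap {κ p q : ℕ} (hκ : 2 ≤ κ) (hq : 2 ≤ q) (h : q < p) : q ^ κ + 5 ≤ p ^ κ := by
  induction κ, hκ using Nat.le_induction with
  | base => nlinarith
  | succ κ _ ih =>
    rw [pow_succ, pow_succ]
    nlinarith [pow_pos (by omega : 0 < q) κ]

theorem two_mul_two_pow_le {κ : ℕ} (hκ : 2 ≤ κ) : 2 * 2 ^ κ ≤ 3 ^ κ := by
  induction κ, hκ using Nat.le_induction with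
  | base => norm_num
  | succ κ _ ih =>
    rw [pow_succ, pow_succ]
    omega

theorem inv_rel {P Q a b : ℝ} (hP : 0 < P) (hQ : 0 < Q) (h : a * Q + b ≤ P) :
    P⁻¹ * (a + b * Q⁻¹) ≤ Q⁻¹ := by
  have e : P⁻¹ * (a + b * Q⁻¹) = (a * Q + b) / (P * Q) := by field_simp
  have e2 : Q⁻¹ = P / (P * Q) := by field_simp
  rw [e]
  conv_rhs => rw [e2]
  gcongr

theorem ineqA {x y : ℝ} (hx0 : 0 < x) (hx : x ≤ 1 / 4) (hy0 : 0 < y) (h : y * (1 + 5 * x) ≤ x) :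
    y + 7 / 4 * y ^ 2 < x - 7 / 4 * x ^ 2 := by
  obtain ⟨w, hw⟩ : ∃ w : ℝ, w * (1 + 5 * x) = 1 := ⟨(1 + 5 * x)⁻¹, inv_mul_cancel₀ (by linarith)⟩
  have hw0 : 0 < w := by nlinarith
  have hw1 : w ≤ 1 := by nlinarith
  have hw2 : 4 / 9 ≤ w := by nlinarith
  have hy : y ≤ x * w := by
    have : y * (1 + 5 * x) * w ≤ x * w := by gcongr
    nlinarith
  have h1 : y ^ 2 ≤ (x * w) ^ 2 := by gcongr
  have h2 : x - x * w = 5 * x ^ 2 * w := by linear_combination (-x) * hw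
  have h3 : 0 < 5 * w - 7 / 4 - 7 / 4 * w ^ 2 := by nlinarith
  have h4 : 0 < x ^ 2 * (5 * w - 7 / 4 - 7 / 4 * w ^ 2) := by positivity
  nlinarith

theorem ineqB0 {x y : ℝ} (hx0 : 0 < x) (hx : x ≤ 1 / 4) (hy0 : 0 < y) (h : y * (1 + 5 * x) ≤ x) :
    7 / 4 * y ^ 2 < 1 / 2 * x - 4 / 9 * x ^ 3 ∧
      1 / 2 * y + 3 / 2 * y ^ 3 < 1 / 2 * x - 4 / 9 * x ^ 3 := by
  have hyx : y ≤ x := by nlinarith
  have hx2 : x ^ 2 ≤ x / 4 := by nlinarith
  have hx3 : x ^ 3 ≤ x ^ 2 / 4 := by nlinarith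
  have hx20 : 0 < x ^ 2 := by positivity
  have hy2 : y ^ 2 ≤ x ^ 2 := by gcongr
  have hy3 : y ^ 3 ≤ x ^ 3 := by gcongr
  refine ⟨by nlinarith, ?_⟩
  have h1 : x - y ≥ 2 * x ^ 2 := by
    by_contra hc
    have h2 : x - 2 * x ^ 2 < y := by linarith
    have h3 : (x - 2 * x ^ 2) * (1 + 5 * x) < y * (1 + 5 * x) := by gcongr
    nlinarith
  nlinarith

theorem ineqB1 {x y : ℝ} (hx0 : 0 < x) (hx : x ≤ 1 / 4) (hy0 : 0 < y) (h : y * (2 + 1 * x) ≤ x) :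
    1 * y + 3 / 2 * y ^ 3 < 1 / 2 * x - 4 / 9 * x ^ 3 := by
  have hyx : y ≤ x / 2 := by nlinarith
  have hx3 : x ^ 3 ≤ x ^ 2 / 4 := by nlinarith
  have hx20 : 0 < x ^ 2 := by positivity
  have hy3 : y ^ 3 ≤ (x / 2) ^ 3 := by gcongr
  have h1 : y ≤ x / 2 - 2 / 9 * x ^ 2 := by
    by_contra hc
    have h2 : x / 2 - 2 / 9 * x ^ 2 < y := by linarith
    have h3 : (x / 2 - 2 / 9 * x ^ 2) * (2 + x) < y * (2 + x) := by gcongr
    nlinarith
  nlinarith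

theorem ineqB2 {x y z : ℝ} (hx0 : 0 < x) (hx : x ≤ 1 / 9) (hy0 : 0 < y) (hz0 : 0 < z)
    (hyx : y ≤ x) (hzx : z ≤ x) (h : x * (1 / 2 + 1 / 2 * z) ≤ z) :
    7 / 4 * y ^ 2 < 1 * z - 4 / 9 * z ^ 3 ∧ 1 / 2 * y + 3 / 2 * y ^ 3 < 1 * z - 4 / 9 * z ^ 3 := by
  have hx2 : x ^ 2 ≤ x / 9 := by nlinarith
  have hx3 : x ^ 3 ≤ x ^ 2 / 9 := by nlinarith
  have hx20 : 0 < x ^ 2 := by positivity
  have hy2 : y ^ 2 ≤ x ^ 2 := by gcongr
  have hy3 : y ^ 3 ≤ x ^ 3 := by gcongr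
  have hz3 : z ^ 3 ≤ x ^ 3 := by gcongr
  have h1 : x / 2 ≤ z := by nlinarith
  have h2 : x / 2 + x ^ 2 / 4 ≤ z := by nlinarith
  constructor <;> nlinarith

theorem ineqB3 {y z : ℝ} (hz0 : 0 < z) (hz : z ≤ 1 / 4) (hy0 : 0 < y) (h : y * (1 + 5 * z) ≤ z) :
    1 * y + 3 / 2 * y ^ 3 < 1 * z - 4 / 9 * z ^ 3 := by
  have h1 := ineqA hz0 hz hy0 h
  have hyz : y ≤ z := by nlinarith
  have h2 : y ^ 3 ≤ y ^ 2 := by nlinarith [sq_nonneg y]
  have h3 : z ^ 3 ≤ z ^ 2 := by nlinarith [sq_nonneg z]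
  nlinarith [sq_nonneg y, sq_nonneg z]

theorem exists_nonreal_prime {D : ℕ} (χ : DirichletCharacter ℂ D) (n : ℕ) :
    n ≠ 0 → (χ (n : ZMod D)).im ≠ 0 → ∃ p : ℕ, p.Prime ∧ p ≤ n ∧ (χ (p : ZMod D)).im ≠ 0 := by
  induction n using induction_on_primes with
  | zero => exact fun h => absurd rfl h
  | one => intro _ h; simp at h
  | prime_mul p a hp ih =>
    intro h0 h
    have ha : a ≠ 0 := by
      rintro rfl
      simp at h0
    by_cases h1 : (χ (p : ZMod D)).im = 0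
    · have h2 : (χ (a : ZMod D)).im ≠ 0 := by
        intro h2
        apply h
        rw [Nat.cast_mul, map_mul, Complex.mul_im, h1, h2]
        simp
      obtain ⟨q, hq, hqa, hq'⟩ := ih ha h2
      exact ⟨q, hq, hqa.trans (Nat.le_mul_of_pos_left _ hp.pos), hq'⟩
    · exact ⟨p, hp, Nat.le_mul_of_pos_right _ (Nat.pos_of_ne_zero ha), h1⟩

/-- For a non-real character, the numbers `conj σ(m) * σ(D - m)` are not all real. -/
theorem exists_nonreal {D κ : ℕ} (hD : Odd D) (hκ : 2 ≤ κ) (χ : DirichletCharacter ℂ D)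
    (hχ : ∃ a, (χ a).im ≠ 0) : ∃ m, 0 < m ∧ m < D ∧ Nat.Coprime m D ∧
      (starRingEnd ℂ (sg κ χ m) * sg κ χ (D - m)).im ≠ 0 := by
  classical
  by_contra hcon
  push Not at hcon
  have hD0 : D ≠ 0 := hD.pos.ne'
  have : NeZero D := ⟨hD0⟩
  have hφ : 0 < D.totient := Nat.totient_pos.2 hD.pos
  have hN : 2 ≤ 12 * D.totient := by omega
  have hχN : ∀ a, χ a = 0 ∨ χ a ^ (12 * D.totient) = 1 := by
    intro a
    by_cases ha : IsUnit a
    · right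
      obtain ⟨u, rfl⟩ := ha
      rw [mul_comm, pow_mul, ← map_pow, ← Units.val_pow_eq_pow_val, ZMod.pow_totient]
      simp
    · exact Or.inl (χ.map_nonunit ha)
  have hcop : ∀ p : ℕ, (χ (p : ZMod D)).im ≠ 0 → Nat.Coprime p D := by
    intro p hp
    rw [← ZMod.isUnit_iff_coprime]
    by_contra h
    exact hp (by rw [χ.map_nonunit h]; rfl)
  have hex : ∃ p : ℕ, p.Prime ∧ p < D ∧ (χ (p : ZMod D)).im ≠ 0 := by
    obtain ⟨a, ha⟩ := hχ
    have ha' : (χ (a.val : ZMod D)).im ≠ 0 := by rwa [ZMod.natCast_zmod_val]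
    have h0 : a.val ≠ 0 := by
      intro h0
      have h1 := hcop _ ha'
      rw [h0, Nat.coprime_zero_left] at h1
      subst h1
      rw [Subsingleton.elim a 1, map_one] at ha
      exact ha rfl
    obtain ⟨p, hp, hle, hp'⟩ := exists_nonreal_prime χ _ h0 ha'
    exact ⟨p, hp, hle.trans_lt (ZMod.val_lt a), hp'⟩
  have hex' : ∃ p : ℕ, p.Prime ∧ (χ (p : ZMod D)).im ≠ 0 := by
    obtain ⟨p, h1, _, h2⟩ := hex
    exact ⟨p, h1, h2⟩
  obtain ⟨q, ⟨hq, hqi⟩, hmin⟩ : ∃ q : ℕ, (q.Prime ∧ (χ (q : ZMod D)).im ≠ 0) ∧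
      ∀ p : ℕ, p.Prime → (χ (p : ZMod D)).im ≠ 0 → q ≤ p :=
    ⟨Nat.find hex', Nat.find_spec hex', fun p h1 h2 => Nat.find_min' hex' ⟨h1, h2⟩⟩
  have hqD : q < D := by
    obtain ⟨p, h1, h2, h3⟩ := hex
    exact (hmin p h1 h3).trans_lt h2
  have hpos : ∀ p : ℕ, p.Prime → (0 : ℝ) < (p : ℝ) ^ κ := fun p hp => by
    have : (0 : ℝ) < p := by exact_mod_cast hp.pos
    positivity
  have hx0 : ∀ p : ℕ, p.Prime → (0 : ℝ) < ((p : ℝ) ^ κ)⁻¹ := fun p hp => inv_pos.2 (hpos p hp)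
  have hx4 : ∀ p : ℕ, p.Prime → ((p : ℝ) ^ κ)⁻¹ ≤ 1 / 4 := fun p hp => by
    have hp2 : (2 : ℝ) ≤ p := by exact_mod_cast hp.two_le
    exact (inv_anti₀ (by positivity) (pow_le_pow_right₀ (by linarith) hκ)).trans
      (inv_sq_le_quarter hp.two_le)
  have hgap : ∀ p r : ℕ, p.Prime → r.Prime → r < p →
      ((p : ℝ) ^ κ)⁻¹ * (1 + 5 * ((r : ℝ) ^ κ)⁻¹) ≤ ((r : ℝ) ^ κ)⁻¹ := by
    intro p r hp hr h
    refine inv_rel (hpos p hp) (hpos r hr) ?_
    rw [one_mul]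
    exact_mod_cast pow_gap hκ hr.two_le h
  have hmono : ∀ p r : ℕ, r.Prime → r ≤ p → ((p : ℝ) ^ κ)⁻¹ ≤ ((r : ℝ) ^ κ)⁻¹ := by
    intro p r hr h
    exact inv_anti₀ (hpos r hr) (by exact_mod_cast Nat.pow_le_pow_left h κ)
  have hζ := (hχN (q : ZMod D)).resolve_left fun h => hqi (by rw [h]; rfl)
  rcases exists_functional (by omega) (Dvd.intro _ rfl) hζ hqi with
    ⟨L, hL, hLq, hL1⟩ | ⟨L, hL, hLq, hL1, hL2, hL3⟩
  · obtain ⟨F, hadd, hsym, hreal, hF⟩ := exists_F hκ χ hN hχN hcon hL hL1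
    have hroom : ∀ p a : ℕ, p.Prime → 0 < a → 0 < F (p ^ a) → q ≤ p ^ a := by
      intro p a hp ha h
      exact (hmin p hp fun e => h.ne' (hreal p a hp e)).trans (Nat.le_self_pow ha.ne' p)
    have b := abs_le.1 ((hF q hq hqi).1 1 one_pos)
    rw [pow_one, hLq] at b
    have x0 := hx0 q hq
    have x4 := hx4 q hq
    have hFq : 0 < F q := by nlinarith [b.1]
    refine extremal D hD F hadd hsym q hq (hcop q hqi) ⟨q, hq.pos, hqD, hcop q hqi, hFq⟩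
      (fun p a hp hpq ha => ?_) (Or.inl fun p a hp _ ha h => hroom p a hp ha h)
    by_cases e : (χ (p : ZMod D)).im = 0
    · rw [hreal p a hp e]
      exact hFq
    · have c := abs_le.1 ((hF p hp e).1 a ha)
      have hlt : q < p := lt_of_le_of_ne (hmin p hp e) (Ne.symm hpq)
      have i := ineqA x0 x4 (hx0 p hp) (hgap p q hp hq hlt)
      have l := mul_le_mul_of_nonneg_right (abs_le.1 (hL1 (χ (p : ZMod D)))).2 (hx0 p hp).le
      linarith [b.1, c.2]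
  · obtain ⟨F, hadd, hsym, hreal, hF⟩ := exists_F hκ χ hN hχN hcon hL hL1
    have hroom : ∀ p a : ℕ, p.Prime → 0 < a → 0 < F (p ^ a) → q ≤ p ^ a := by
      intro p a hp ha h
      exact (hmin p hp fun e => h.ne' (hreal p a hp e)).trans (Nat.le_self_pow ha.ne' p)
    have b := abs_le.1 ((hF q hq hqi).2 fun n => hL3 _ n (by rw [hLq]; norm_num)).1
    rw [hLq] at b
    have x0 := hx0 q hq
    have x4 := hx4 q hq
    have hFq : 0 < F q := by
      have : ((q : ℝ) ^ κ)⁻¹ ^ 3 ≤ ((q : ℝ) ^ κ)⁻¹ := by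
        nlinarith [sq_nonneg ((q : ℝ) ^ κ)⁻¹]
      linarith [b.1]
    have hcomp : ∀ p a : ℕ, p.Prime → (χ (p : ZMod D)).im ≠ 0 → 0 < a →
        F (p ^ a) ≤ 7 / 4 * ((p : ℝ) ^ κ)⁻¹ ^ 2 ∨
        F (p ^ a) ≤ 1 / 2 * ((p : ℝ) ^ κ)⁻¹ + 3 / 2 * ((p : ℝ) ^ κ)⁻¹ ^ 3 ∨
        (L (χ (p : ZMod D)) = 1 ∧
          F (p ^ a) ≤ 1 * ((p : ℝ) ^ κ)⁻¹ + 3 / 2 * ((p : ℝ) ^ κ)⁻¹ ^ 3) := by
      intro p a hp e ha
      by_cases h0 : L (χ (p : ZMod D)) = 0
      · left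
        have c := abs_le.1 ((hF p hp e).1 a ha)
        rw [h0] at c
        linarith [c.2]
      · right
        have c := abs_le.1 (((hF p hp e).2 fun n => hL3 _ n h0).2 a ha)
        rcases hL2 (χ (p : ZMod D)) with h1 | h1
        · right
          rw [h1] at c
          exact ⟨h1, by linarith [c.2]⟩
        · left
          have l := mul_le_mul_of_nonneg_right h1 (hx0 p hp).le
          linarith [c.2]
    by_cases hopt : ∃ p : ℕ, p.Prime ∧ (χ (p : ZMod D)).im ≠ 0 ∧ L (χ (p : ZMod D)) = 1 ∧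
        p ^ κ < 2 * q ^ κ
    · obtain ⟨r, ⟨hr, hri, hrL, hrlt⟩, hrmin⟩ : ∃ r : ℕ, (r.Prime ∧ (χ (r : ZMod D)).im ≠ 0 ∧
          L (χ (r : ZMod D)) = 1 ∧ r ^ κ < 2 * q ^ κ) ∧ ∀ p : ℕ, p.Prime →
            (χ (p : ZMod D)).im ≠ 0 → L (χ (p : ZMod D)) = 1 → r ≤ p := by
        refine ⟨Nat.find hopt, Nat.find_spec hopt, fun p h1 h2 h3 => ?_⟩
        by_contra hlt
        have h4 := Nat.pow_le_pow_left (not_le.1 hlt).le κ
        exact hlt (Nat.find_min' hopt ⟨h1, h2, h3, h4.trans_lt (Nat.find_spec hopt).2.2.2⟩)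
      have hqr : q < r := lt_of_le_of_ne (hmin r hr hri) fun e => by
        rw [← e, hLq] at hrL
        norm_num at hrL
      have hq3 : 3 ≤ q := by
        by_contra hlt
        obtain rfl : q = 2 := by have := hq.two_le; omega
        have h1 := two_mul_two_pow_le hκ
        have h2 := Nat.pow_le_pow_left (show 3 ≤ r from hqr) κ
        omega
      have h2real : (χ ((2 : ℕ) : ZMod D)).im = 0 := by
        by_contra e
        have := hmin 2 Nat.prime_two e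
        omega
      have hr2q : r ≤ 2 * q := by
        by_contra hlt
        have h1 := Nat.pow_le_pow_left (not_le.1 hlt).le κ
        have h2 : 2 ≤ 2 ^ κ := Nat.le_self_pow (by omega) 2
        rw [mul_pow] at h1
        have h3 := Nat.mul_le_mul_right (q ^ κ) h2
        omega
      have x9 : ((q : ℝ) ^ κ)⁻¹ ≤ 1 / 9 := by
        have hq3' : (3 : ℝ) ≤ q := by exact_mod_cast hq3
        rw [one_div]
        refine inv_anti₀ (by norm_num) (le_trans (by nlinarith) (pow_le_pow_right₀ (by linarith) hκ))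
      have hz : ((q : ℝ) ^ κ)⁻¹ * (1 / 2 + 1 / 2 * ((r : ℝ) ^ κ)⁻¹) ≤ ((r : ℝ) ^ κ)⁻¹ := by
        refine inv_rel (hpos q hq) (hpos r hr) ?_
        have : ((r : ℝ)) ^ κ + 1 ≤ 2 * (q : ℝ) ^ κ := by exact_mod_cast hrlt
        linarith
      have c := abs_le.1 ((hF r hr hri).2 fun n => hL3 _ n (by rw [hrL]; norm_num)).1
      rw [hrL] at c
      refine extremal D hD F hadd hsym r hr (hcop r hri) ⟨q, hq.pos, hqD, hcop q hqi, hFq⟩
        (fun p a hp hpr ha => ?_) (Or.inr ⟨fun a => hreal 2 a Nat.prime_two h2real,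
          fun p a hp _ ha h => hr2q.trans (Nat.mul_le_mul_left 2 (hroom p a hp ha h))⟩)
      by_cases e : (χ (p : ZMod D)).im = 0
      · have i := ineqB2 x0 x9 x0 (hx0 r hr) le_rfl (hmono r q hq hqr.le) hz
        have : 0 ≤ ((q : ℝ) ^ κ)⁻¹ ^ 2 := by positivity
        rw [hreal p a hp e]
        linarith [i.1, c.1]
      · have i := ineqB2 x0 x9 (hx0 p hp) (hx0 r hr) (hmono p q hq (hmin p hp e))
          (hmono r q hq hqr.le) hz
        rcases hcomp p a hp e ha with d | d | ⟨d1, d⟩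
        · linarith [i.1, c.1]
        · linarith [i.2, c.1]
        · have hlt : r < p := lt_of_le_of_ne (hrmin p hp e d1) (Ne.symm hpr)
          have j := ineqB3 (hx0 r hr) (hx4 r hr) (hx0 p hp) (hgap p r hp hr hlt)
          linarith [c.1]
    · push Not at hopt
      refine extremal D hD F hadd hsym q hq (hcop q hqi) ⟨q, hq.pos, hqD, hcop q hqi, hFq⟩
        (fun p a hp hpq ha => ?_) (Or.inl fun p a hp _ ha h => hroom p a hp ha h)
      by_cases e : (χ (p : ZMod D)).im = 0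
      · rw [hreal p a hp e]
        exact hFq
      · have hlt : q < p := lt_of_le_of_ne (hmin p hp e) (Ne.symm hpq)
        have i := ineqB0 x0 x4 (hx0 p hp) (hgap p q hp hq hlt)
        rcases hcomp p a hp e ha with d | d | ⟨d1, d⟩
        · linarith [i.1, b.1]
        · linarith [i.2, b.1]
        · have h1 := hopt p hp e d1
          have hodd : Odd (p ^ κ) := (hp.odd_of_ne_two (by have := hq.two_le; omega)).pow
          have h2 : 2 * q ^ κ + 1 ≤ p ^ κ := by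
            obtain ⟨t, ht⟩ := hodd
            omega
          have h3 : ((p : ℝ) ^ κ)⁻¹ * (2 + 1 * ((q : ℝ) ^ κ)⁻¹) ≤ ((q : ℝ) ^ κ)⁻¹ :=
            inv_rel (hpos p hp) (hpos q hq) (by exact_mod_cast h2)
          have j := ineqB1 x0 x4 (hx0 p hp) h3
          linarith [b.1]

end Pool.Agent.Lib.MP_234657_nt
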