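import Mathlib

namespace Pool.Agent.Lib.MP_234657_nt

open Finset Polynomial

theorem exists_odd_factorial_dvd (M : ℕ) :
    ∃ O : ℕ, Odd O ∧ ∀ j ≤ M, j.factorial ∣ O * 2 ^ j := by
  induction M with
  | zero =>
    refine ⟨1, odd_one, fun j hj => ?_⟩
    obtain rfl : j = 0 := by omega
    simp
  | succ M ih =>
    obtain ⟨O, hO, h⟩ := ih
    obtain ⟨v, o, ho, hv⟩ := Nat.exists_eq_two_pow_mul_odd (Nat.factorial_ne_zero (M + 1))
    have hle : v ≤ M + 1 := by
      have h1 : 2 ^ v ∣ (M + 1).factorial := ⟨o, hv⟩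
      have h2 := (padicValNat_dvd_iff_le (p := 2) (Nat.factorial_ne_zero (M + 1))).1 h1
      exact h2.trans (padicValNat_factorial_le 2 (M + 1))
    refine ⟨O * o, hO.mul ho, fun j hj => ?_⟩
    rcases Nat.lt_or_ge j (M + 1) with hlt | hge
    · refine (h j (by omega)).trans ⟨o, by ring⟩
    · obtain rfl : j = M + 1 := by omega
      rw [hv]
      obtain ⟨u, hu⟩ := Nat.exists_eq_add_of_le hle
      refine ⟨O * 2 ^ u, ?_⟩
      rw [hu, pow_add]
      ring

/-- A `2`-adic Skolem Mahler Lech lemma. -/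
theorem hansel (γ f : ℕ → ℤ)
    (hf : ∀ n, f n = ∑ j ∈ range (n + 1), (n.choose j : ℤ) * 4 ^ j * γ j)
    (hinf : {n | f n = 0}.Infinite) (t : ℕ) : f t = 0 := by
  have key : ∀ r : ℕ, (2 : ℤ) ^ r ∣ f t := by
    intro r
    obtain ⟨s, hs, hcard⟩ := hinf.exists_subset_card_eq r
    set M := max t (s.sup id) with hM
    obtain ⟨O, hO, hdvd⟩ := exists_odd_factorial_dvd M
    set c : ℕ → ℤ := fun j => ((O * 2 ^ j / j.factorial : ℕ) : ℤ) * 2 ^ j * γ j with hc
    set Pi : ℤ[X] := ∏ n ∈ s, (X - C (n : ℤ)) with hPi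
    have hmon : Pi.Monic := monic_prod_of_monic _ _ fun n _ => monic_X_sub_C _
    have hdeg : Pi.natDegree = r := by
      rw [hPi, natDegree_prod_of_monic _ _ fun n _ => monic_X_sub_C _]
      rw [sum_congr rfl fun (n : ℕ) _ => natDegree_X_sub_C (n : ℤ)]
      simp [hcard]
    set P : ℤ[X] := ∑ j ∈ range (M + 1), C (c j) * descPochhammer ℤ j with hP
    set Q : ℤ[X] := ∑ j ∈ range (M + 1), C (c j) * (descPochhammer ℤ j /ₘ Pi) with hQ
    set R : ℤ[X] := ∑ j ∈ range (M + 1), C (c j) * (descPochhammer ℤ j %ₘ Pi) with hR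
    have hPQR : P = R + Pi * Q := by
      rw [hP, hQ, hR, mul_sum, ← sum_add_distrib]
      refine sum_congr rfl fun j _ => ?_
      conv_lhs => rw [← modByMonic_add_div (descPochhammer ℤ j) Pi]
      ring
    have heval : ∀ n ≤ M, P.eval (n : ℤ) = O * f n := by
      intro n hn
      have e1 : f n = ∑ j ∈ range (M + 1), (n.choose j : ℤ) * 4 ^ j * γ j := by
        rw [hf n]
        refine sum_subset (by intro j hj; simp only [mem_range] at hj ⊢; omega) ?_
        intro j _ hj
        simp only [mem_range, not_lt] at hj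
        rw [Nat.choose_eq_zero_of_lt (by omega)]
        simp
      rw [e1, hP, eval_finsetSum, mul_sum]
      refine sum_congr rfl fun j hj => ?_
      have hj' : j ≤ M := by simp only [mem_range] at hj; omega
      rw [eval_mul, eval_C, descPochhammer_eval_eq_descFactorial, Nat.descFactorial_eq_factorial_mul_choose]
      have h1 : ((O * 2 ^ j / j.factorial : ℕ) : ℤ) * (j.factorial : ℤ) = O * 2 ^ j := by
        exact_mod_cast Nat.div_mul_cancel (hdvd j hj')
      have h4 : (4 : ℤ) ^ j = 2 ^ j * 2 ^ j := by rw [← mul_pow]; norm_num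
      simp only [hc]
      push_cast at h1 ⊢
      rw [h4]
      linear_combination (2 ^ j * γ j * (n.choose j : ℤ)) * h1
    have hPi0 : ∀ n ∈ s, Pi.eval (n : ℤ) = 0 := by
      intro n hn
      rw [hPi, eval_prod]
      exact prod_eq_zero hn (by simp)
    have hR0 : R = 0 := by
      refine eq_zero_of_degree_lt_of_eval_finset_eq_zero (s.image fun n : ℕ => (n : ℤ)) ?_ ?_
      · rw [card_image_of_injective _ Nat.cast_injective, hcard]
        have hd : Pi.degree = r := by rw [degree_eq_natDegree hmon.ne_zero, hdeg]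
        rw [← hd]
        refine (degree_sum_le _ _).trans_lt ?_
        rw [Finset.sup_lt_iff (by rw [hd]; exact WithBot.bot_lt_coe _)]
        intro j _
        refine lt_of_le_of_lt ?_ (degree_modByMonic_lt (descPochhammer ℤ j) hmon)
        rw [← smul_eq_C_mul]
        exact degree_smul_le _ _
      · intro x hx
        obtain ⟨n, hn, rfl⟩ := mem_image.1 hx
        have h1 := heval n (le_max_of_le_right (le_sup (f := id) hn))
        have h2 : f n = 0 := hs hn
        rw [hPQR, eval_add, eval_mul, hPi0 n hn, h2] at h1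
        simpa using h1
    have hQd : (2 : ℤ) ^ r ∣ Q.eval (t : ℤ) := by
      rw [hQ, eval_finsetSum]
      refine dvd_sum fun j _ => ?_
      rw [eval_mul, eval_C]
      rcases Nat.lt_or_ge j r with hlt | hge
      · have : descPochhammer ℤ j /ₘ Pi = 0 := by
          rw [divByMonic_eq_zero_iff hmon, degree_eq_natDegree hmon.ne_zero, hdeg,
            degree_eq_natDegree (monic_descPochhammer ℤ j).ne_zero, descPochhammer_natDegree]
          exact_mod_cast hlt
        rw [this]
        simp
      · refine Dvd.dvd.mul_right ?_ _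
        exact Dvd.dvd.mul_right (Dvd.dvd.mul_left (pow_dvd_pow 2 hge) _) _
    have h1 := heval t (le_max_left _ _)
    rw [hPQR, hR0, zero_add, eval_mul] at h1
    have h2 : (2 : ℤ) ^ r ∣ O * f t := h1 ▸ Dvd.dvd.mul_left hQd _
    have hcop : IsCoprime ((2 : ℤ) ^ r) (O : ℤ) := by
      refine IsCoprime.pow_left ?_
      have : IsCoprime ((2 : ℕ) : ℤ) (O : ℤ) :=
        Nat.isCoprime_iff_coprime.2 (Nat.coprime_two_left.2 hO)
      simpa using this
    exact hcop.dvd_of_dvd_mul_left h2
  by_contra h0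
  have h1 := Int.le_of_dvd (abs_pos.2 h0) ((dvd_abs _ _).2 (key (f t).natAbs))
  have h2 : ((f t).natAbs : ℤ) < 2 ^ (f t).natAbs := by exact_mod_cast Nat.lt_two_pow_self
  rw [Int.natCast_natAbs] at h2
  omega

end Pool.Agent.Lib.MP_234657_nt
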