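import Pool.Agent.Lib.MP_234657_nt.APIndep
import Pool.Agent.Lib.MP_234657_nt.Hansel

namespace Pool.Agent.Lib.MP_234657_nt

open Finset Polynomial

theorem map_tri {R S : Type} [CommRing R] [CommRing S] (f : R →+* S) (c a b : R) :
    (tri c a b).map f = tri (f c) (f a) (f b) := by
  simp [tri, Polynomial.map_add, Polynomial.map_mul, Polynomial.map_pow]

theorem cf_cast (R : Type) [CommRing R] (D r M e : ℕ) : cf R D r M e = ((cf ℤ D r M e : ℤ) : R) := by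
  have h := coeff_map (p := tri (1 : ℤ) ((D : ℤ) - 2 * M) (-((M : ℤ) * (D - M))) ^ (e + r))
    (Int.castRingHom R) e
  rw [Polynomial.map_pow, map_tri] at h
  simp only [eq_intCast, Int.cast_one, Int.cast_sub, Int.cast_natCast, Int.cast_mul,
    Int.cast_ofNat, Int.cast_neg] at h
  exact h

theorem mahler_tri (a' b' : ℤ) (r e₀ : ℕ) : ∃ γ : ℕ → ℤ, ∀ t : ℕ,
    2 ^ r * (tri (1 : ℤ) (2 * a' + 1) (2 * b') ^ (e₀ + 4 * t + r)).coeff (e₀ + 4 * t) =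
      ∑ j ∈ range (t + 1), (t.choose j : ℤ) * 4 ^ j * γ j := by
  set π : ℤ√2 := Zsqrtd.sqrtd with hπ
  have hππ : π * π = 2 := by
    rw [hπ, Zsqrtd.dmuld]
    norm_num
  have hC : (C π : (ℤ√2)[X]) * C π = 2 := by
    rw [← C_mul, hππ]
    rfl
  set T : (ℤ√2)[X] := tri π (2 * (a' : ℤ√2) + 1) ((b' : ℤ√2) * π) with hT
  set V : (ℤ√2)[X] := (2 * C (a' : ℤ√2) ^ 2 + 2 * C (a' : ℤ√2)) * X ^ 2 +
    (2 * C (a' : ℤ√2) + 1) * C π * X * (1 + C (b' : ℤ√2) * X ^ 2) + (1 + C (b' : ℤ√2) * X ^ 2) ^ 2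
    with hV
  set U : (ℤ√2)[X] := X ^ 2 * V + V ^ 2 with hU
  have hT2 : T ^ 2 = X ^ 2 + 2 * V := by
    simp only [hT, hV, tri, map_add, map_mul, map_ofNat, map_one]
    linear_combination (1 + C (b' : ℤ√2) * X ^ 2) ^ 2 * hC
  have hT4 : T ^ 4 = 4 * U + X ^ 4 := by
    have : T ^ 4 = (T ^ 2) ^ 2 := by ring
    rw [this, hT2, hU]
    ring
  set T₀ : ℤ[X] := tri (1 : ℤ) (2 * a' + 1) (2 * b') with hT₀
  have hcomp : T.comp (C π * X) = C π * T₀.map (Int.castRingHom (ℤ√2)) := by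
    rw [hT₀, map_tri]
    simp only [hT, tri, add_comp, mul_comp, C_comp, X_comp, pow_comp, eq_intCast, map_add, map_mul, map_ofNat, map_one,
      one_comp, ofNat_comp]
    linear_combination (C (b' : ℤ√2) * C π * X ^ 2) * hC
  refine ⟨fun j => (π ^ r * (T ^ (e₀ + r) * U ^ j).coeff (e₀ + 4 * j)).re, fun t => ?_⟩
  have h1 : (T ^ (e₀ + 4 * t + r)).coeff (e₀ + 4 * t) * π ^ (e₀ + 4 * t) =
      π ^ (e₀ + 4 * t + r) * (((T₀ ^ (e₀ + 4 * t + r)).coeff (e₀ + 4 * t) : ℤ) : ℤ√2) := by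
    rw [← comp_C_mul_X_coeff, pow_comp, hcomp, mul_pow, ← C_pow, coeff_C_mul, ← Polynomial.map_pow,
      coeff_map, eq_intCast]
  have h2 : (T ^ (e₀ + 4 * t + r)).coeff (e₀ + 4 * t) =
      ∑ j ∈ range (t + 1), (((t.choose j : ℤ) * 4 ^ j : ℤ) : ℤ√2) *
        (T ^ (e₀ + r) * U ^ j).coeff (e₀ + 4 * j) := by
    have e1 : T ^ (e₀ + 4 * t + r) = T ^ (e₀ + r) * (T ^ 4) ^ t := by ring
    rw [e1, hT4, add_pow, mul_sum, finsetSum_coeff]
    refine sum_congr rfl fun j hj => ?_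
    have hj' : j ≤ t := by simp only [mem_range] at hj; omega
    have e2 : T ^ (e₀ + r) * ((4 * U) ^ j * (X ^ 4) ^ (t - j) * (t.choose j : (ℤ√2)[X])) =
        C ((((t.choose j : ℤ) * 4 ^ j : ℤ) : ℤ√2)) * ((T ^ (e₀ + r) * U ^ j) * X ^ (4 * (t - j))) := by
      simp only [Int.cast_mul, Int.cast_natCast, Int.cast_pow, Int.cast_ofNat, map_mul, map_natCast,
        map_pow, map_ofNat, pow_mul, mul_pow]
      ring
    have e3 : e₀ + 4 * t = e₀ + 4 * j + 4 * (t - j) := by omega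
    rw [e2, coeff_C_mul]
    congr 1
    rw [e3, coeff_mul_X_pow]
  have h3 : ((2 ^ (e₀ + 4 * t) : ℤ) : ℤ√2) * (π ^ r * (T ^ (e₀ + 4 * t + r)).coeff (e₀ + 4 * t)) =
      ((2 ^ (e₀ + 4 * t) * (2 ^ r * (T₀ ^ (e₀ + 4 * t + r)).coeff (e₀ + 4 * t)) : ℤ) : ℤ√2) := by
    push_cast
    rw [← hππ, mul_pow, mul_pow]
    linear_combination (π ^ r * π ^ (e₀ + 4 * t)) * h1
  have h4 := congrArg Zsqrtd.re h3
  rw [Zsqrtd.re_smul, Zsqrtd.re_intCast] at h4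
  have h5 := mul_left_cancel₀ (pow_ne_zero _ two_ne_zero) h4
  rw [← h5, h2, mul_sum]
  have hre : ∀ (s : Finset ℕ) (g : ℕ → ℤ√2), (∑ j ∈ s, g j).re = ∑ j ∈ s, (g j).re := by
    intro s g
    induction s using Finset.induction_on with
    | empty => simp
    | insert i s hi ih => rw [sum_insert hi, sum_insert hi, Zsqrtd.re_add, ih]
  rw [hre]
  refine sum_congr rfl fun j _ => ?_
  rw [mul_left_comm, Zsqrtd.re_smul]

theorem mahler_cf (D r M e₀ : ℕ) (hD : Odd D) : ∃ γ : ℕ → ℤ, ∀ t : ℕ,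
    2 ^ r * cf ℤ D r M (e₀ + 4 * t) = ∑ j ∈ range (t + 1), (t.choose j : ℤ) * 4 ^ j * γ j := by
  obtain ⟨v, hv⟩ := hD
  have hb : ∃ b' : ℤ, -((M : ℤ) * (D - M)) = 2 * b' := by
    rcases Nat.even_or_odd' M with ⟨u, hu | hu⟩
    · exact ⟨-(u * (D - M)), by rw [hu]; push_cast; ring⟩
    · exact ⟨-(M * (v - u)), by rw [hv, hu]; push_cast; ring⟩
  obtain ⟨b', hb⟩ := hb
  have ha : (D : ℤ) - 2 * M = 2 * ((v : ℤ) - M) + 1 := by rw [hv]; push_cast; ring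
  obtain ⟨γ, hγ⟩ := mahler_tri ((v : ℤ) - M) b' r e₀
  refine ⟨γ, fun t => ?_⟩
  rw [cf, ha, hb]
  exact hγ t

theorem sml_int (D r e₀ : ℕ) (hD : Odd D) (A : Finset ℕ) (w : ℕ → ℤ)
    (hinf : {t | ∑ M ∈ A, w M * cf ℤ D r M (e₀ + 4 * t) = 0}.Infinite) (t : ℕ) :
    ∑ M ∈ A, w M * cf ℤ D r M (e₀ + 4 * t) = 0 := by
  choose γ hγ using fun M => mahler_cf D r M e₀ hD
  have h := hansel (fun j => ∑ M ∈ A, w M * γ M j)
    (fun t => 2 ^ r * ∑ M ∈ A, w M * cf ℤ D r M (e₀ + 4 * t)) ?_ ?_ t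
  · exact (mul_eq_zero.1 h).resolve_left (pow_ne_zero _ two_ne_zero)
  · intro n
    simp only [mul_sum]
    rw [sum_comm]
    refine sum_congr rfl fun M _ => ?_
    rw [mul_left_comm, hγ, mul_sum]
    exact sum_congr rfl fun j _ => by ring
  · refine hinf.mono fun t ht => ?_
    simp only [Set.mem_ofPred_eq] at ht ⊢
    rw [ht, mul_zero]

theorem sml_complex (D r e₀ : ℕ) (hD : Odd D) (A : Finset ℕ) (w : ℕ → ℂ)
    (hinf : {t | ∑ M ∈ A, w M * cf ℂ D r M (e₀ + 4 * t) = 0}.Infinite) (t : ℕ) :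
    ∑ M ∈ A, w M * cf ℂ D r M (e₀ + 4 * t) = 0 := by
  rw [← Module.forall_dual_apply_eq_zero_iff ℚ]
  intro φ
  have hφ : ∀ t, φ (∑ M ∈ A, w M * cf ℂ D r M (e₀ + 4 * t)) =
      ∑ M ∈ A, φ (w M) * (cf ℤ D r M (e₀ + 4 * t) : ℚ) := by
    intro t
    rw [map_sum]
    refine sum_congr rfl fun M _ => ?_
    rw [cf_cast ℂ, mul_comm, ← zsmul_eq_mul, map_zsmul, zsmul_eq_mul, mul_comm]
  obtain ⟨d, hd⟩ := IsLocalization.exist_integer_multiples (nonZeroDivisors ℤ) A fun M => φ (w M)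
  have hz : ∀ M, ∃ z : ℤ, M ∈ A → (z : ℚ) = (d : ℤ) * φ (w M) := by
    intro M
    by_cases hM : M ∈ A
    · obtain ⟨z, hz⟩ := hd M hM
      exact ⟨z, fun _ => by simpa using hz⟩
    · exact ⟨0, fun h => absurd h hM⟩
  choose z hz using hz
  have hd0 : ((d : ℤ) : ℚ) ≠ 0 := by exact_mod_cast nonZeroDivisors.coe_ne_zero d
  have hzs : ∀ t, ((∑ M ∈ A, z M * cf ℤ D r M (e₀ + 4 * t) : ℤ) : ℚ) =
      (d : ℤ) * φ (∑ M ∈ A, w M * cf ℂ D r M (e₀ + 4 * t)) := by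
    intro t
    rw [hφ, mul_sum]
    push_cast
    exact sum_congr rfl fun M hM => by rw [hz M hM]; ring
  have h := sml_int D r e₀ hD A z (hinf.mono fun t ht => ?_) t
  · have h1 := hzs t
    rw [h, Int.cast_zero] at h1
    exact (mul_eq_zero.1 h1.symm).resolve_left hd0
  · simp only [Set.mem_ofPred_eq] at ht ⊢
    have h1 := hzs t
    rw [ht, map_zero, mul_zero] at h1
    exact_mod_cast h1

/-- If the weights do not cancel, the weighted sum vanishes for finitely many `e` only. -/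
theorem finite_zeros (D r ε : ℕ) (hD : Odd D) (w : ℕ → ℂ) (M : ℕ) (h0 : 0 < M) (h1 : 2 * M < D)
    (hw : w M + (-1) ^ ε * w (D - M) ≠ 0) :
    {e | e % 2 = ε % 2 ∧ ∑ M ∈ Ioo 0 D, w M * cf ℂ D r M e = 0}.Finite := by
  have key : ∀ e₀ < 4, e₀ % 2 = ε % 2 →
      {t | ∑ M ∈ Ioo 0 D, w M * cf ℂ D r M (e₀ + 4 * t) = 0}.Finite := by
    intro e₀ he₀ hpar
    by_contra hinf
    have h2 := ap_indep D r e₀ hD he₀ w (sml_complex D r e₀ hD _ w hinf) M h0 h1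
    rw [neg_one_pow_eq_pow_mod_two, hpar, ← neg_one_pow_eq_pow_mod_two] at h2
    exact hw h2
  refine Set.Finite.subset (((key (ε % 2) (by omega) (by omega)).image fun t => ε % 2 + 4 * t).union
    ((key (ε % 2 + 2) (by omega) (by omega)).image fun t => ε % 2 + 2 + 4 * t)) ?_
  rintro e ⟨he, hs⟩
  rcases (by omega : e = ε % 2 + 4 * (e / 4) ∨ e = ε % 2 + 2 + 4 * (e / 4)) with h | h
  · left
    refine ⟨e / 4, ?_, h.symm⟩
    simp only [Set.mem_ofPred_eq]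
    rw [← h]
    exact hs
  · right
    refine ⟨e / 4, ?_, h.symm⟩
    simp only [Set.mem_ofPred_eq]
    rw [← h]
    exact hs

end Pool.Agent.Lib.MP_234657_nt
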