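import Pool.Agent.Lib.MP_234657_nt.Decomp
import Pool.Agent.Lib.MP_234657_nt.LemmaC
import Pool.Agent.Lib.MP_234657_nt.TwoAdic

namespace Pool.Agent.Lib.MP_234657_nt

open Finset

variable {D : ℕ} {χ : DirichletCharacter ℂ D} {comp : (d : ℕ) → DirichletCharacter ℂ d}

theorem err_small (A c θ : ℝ) (hA : 0 ≤ A) (hc : 0 < c) (hθ : 0 < θ) : ∃ K : ℕ, ∀ k e : ℕ, 2 ≤ k →
    K ≤ e + k → A ^ k < c * θ ^ k * ((e + 1).ascFactorial (k - 1) : ℕ) := by
  obtain ⟨K, hK⟩ := growth' (A / (c * θ)) (A / θ) (by positivity)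
  refine ⟨K, fun k e hk h => ?_⟩
  obtain ⟨j, rfl⟩ : ∃ j, k = j + 1 := ⟨k - 1, by omega⟩
  have h1 := hK (e + 1) j (by omega) (by omega) (by omega)
  have e1 : A ^ (j + 1) = c * θ ^ (j + 1) * (A / (c * θ) * (A / θ) ^ j) := by
    rw [div_pow]
    field_simp
    ring
  rw [e1, Nat.add_sub_cancel]
  gcongr

theorem choose_mul_factorial {k : ℕ} (hk : 1 ≤ k) (e : ℕ) :
    (((e + k - 1).choose e : ℕ) : ℝ) * (k - 1).factorial = ((e + 1).ascFactorial (k - 1) : ℕ) := by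
  rw [Nat.ascFactorial_eq_factorial_mul_choose, show e + k - 1 = e + (k - 1) by omega,
    Nat.choose_symm_add]
  push_cast
  ring

theorem ne_zero_of_norm_lt {a b : ℂ} (h : ‖b‖ < ‖a‖) : a + b ≠ 0 := by
  intro e
  rw [eq_neg_of_add_eq_zero_left e, norm_neg] at h
  exact lt_irrefl _ h

theorem inv_eq_of_real [NeZero D] (h : ∀ a, (χ a).im = 0) : χ⁻¹ = χ := by
  rw [← MulChar.star_eq_inv]
  ext a
  rw [MulChar.star_apply]
  exact Complex.conj_eq_iff_im.2 (h _)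

theorem finite_err [NeZero D] (hD : Odd D) (h : IsDecomp χ comp) (hχ : ∃ a, (χ a).im ≠ 0)
    {k : ℕ} (hk : 3 ≤ k) (ε : ℕ) : {e | e % 2 = ε % 2 ∧ err D comp k k e = 0}.Finite := by
  have hκ : 2 ≤ k - 1 := by omega
  have hs : χ (-1) ≠ 0 := by
    rcases χ.even_or_odd with h1 | h1 <;> rw [h1] <;> norm_num
  have hw : ∃ M, 0 < M ∧ 2 * M < D ∧ wt D comp k M + (-1) ^ ε * wt D comp k (D - M) ≠ 0 := by
    obtain ⟨m, h0, h1, hc, him⟩ := exists_nonreal hD hκ χ hχ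
    have hform : ∀ M, 0 < M → M < D → Nat.Coprime M D →
        wt D comp k M + (-1) ^ ε * wt D comp k (D - M) =
          χ (-1) * (starRingEnd ℂ (sg (k - 1) χ M) * sg (k - 1) χ (D - M) + (-1) ^ ε *
            starRingEnd ℂ (starRingEnd ℂ (sg (k - 1) χ M) * sg (k - 1) χ (D - M))) := by
      intro M a b c
      rw [wt_coprime h k a b c, wt_coprime h k (by omega) (by omega)
        ((Nat.coprime_self_sub_left b.le).2 c), Nat.sub_sub_self b.le, map_mul, Complex.conj_conj]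
      ring
    rcases Nat.even_or_odd ε with he | he
    · obtain ⟨v, hv⟩ := hD
      refine ⟨1, one_pos, by omega, ?_⟩
      rw [hform 1 one_pos (by omega) (Nat.coprime_one_left D), he.neg_one_pow, one_mul,
        Complex.add_conj]
      refine mul_ne_zero hs ?_
      have e1 : sg (k - 1) χ 1 = 1 := by simp [sg]
      have := re_sg_pos hκ χ (n := D - 1) (by omega)
      rw [e1, map_one, one_mul]
      exact_mod_cast (by linarith : 2 * (sg (k - 1) χ (D - 1)).re ≠ 0)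
    · have key : ∀ M, 0 < M → M < D → Nat.Coprime M D →
          (starRingEnd ℂ (sg (k - 1) χ M) * sg (k - 1) χ (D - M)).im ≠ 0 →
          wt D comp k M + (-1) ^ ε * wt D comp k (D - M) ≠ 0 := by
        intro M a b c d
        rw [hform M a b c, he.neg_one_pow, neg_one_mul, ← sub_eq_add_neg]
        refine mul_ne_zero hs fun e => d ?_
        exact Complex.conj_eq_iff_im.1 (sub_eq_zero.1 e).symm
      obtain ⟨v, hv⟩ := hD
      rcases Nat.lt_or_ge (2 * m) D with h2 | h2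
      · exact ⟨m, h0, h2, key m h0 h1 hc him⟩
      · refine ⟨D - m, by omega, by omega, key _ (by omega) (by omega)
          ((Nat.coprime_self_sub_left h1.le).2 hc) fun e => him ?_⟩
        rw [Nat.sub_sub_self h1.le] at e
        rw [← neg_eq_zero, ← Complex.conj_im, map_mul, Complex.conj_conj, mul_comm]
        exact e
  obtain ⟨M, h0, h1, h2⟩ := hw
  refine (finite_zeros D (k - 1) ε hD (wt D comp k) M h0 h1 h2).subset ?_
  rintro e ⟨he, h3⟩
  refine ⟨he, ?_⟩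
  rw [← err_eq comp (by omega), h3, mul_zero]

theorem main_lt [NeZero D] (hχ : χ.IsPrimitive) (h : IsDecomp χ comp) :
    ∃ K : ℕ, ∀ l k e : ℕ, 3 ≤ l → l < k → χ (-1) = (-1) ^ l → χ (-1) = (-1) ^ k → K ≤ e + k →
      aa D comp l k e 1 ≠ 0 := by
  obtain ⟨u, c, ρ, hc, hρ, hu, hfe⟩ := func_eq D
  have hχ' : χ⁻¹.IsPrimitive := by
    rw [DirichletCharacter.isPrimitive_def, DirichletCharacter.conductor_inv]
    exact hχ
  have hW := norm_pos_iff.2 (rootNumber_ne_zero hχ')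
  obtain ⟨K₁, hK₁⟩ := err_small (2 * (D : ℝ) ^ 5) (c * ‖χ⁻¹.rootNumber‖ / 24) ρ (by positivity)
    (by positivity) hρ
  obtain ⟨K₂, hK₂⟩ := growth' (24 * ‖χ.rootNumber‖ / ‖χ⁻¹.rootNumber‖) ρ⁻¹ (by positivity)
  refine ⟨max K₁ K₂, fun l k e hl hlk hpl hpk hK => ?_⟩
  have h1 := hK₁ k e (by omega) (le_of_max_le_left hK)
  have h2 := hK₂ (e + l) (k - l) (by omega) (by omega) ((le_of_max_le_right hK).trans (by omega))
  have h3 := norm_err_le (NeZero.ne D) comp (by omega : 1 ≤ l) hlk.le e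
  have h4 : (((e + 1).ascFactorial (k - 1) : ℕ) : ℝ) =
      ((e + 1).ascFactorial (l - 1) : ℕ) * ((e + l).ascFactorial (k - l) : ℕ) := by
    have := Nat.ascFactorial_mul_ascFactorial (e + 1) (l - 1) (k - l)
    rw [show e + 1 + (l - 1) = e + l by omega, show l - 1 + (k - l) = k - 1 by omega] at this
    exact_mod_cast this.symm
  have h5 : ρ ^ k = ρ ^ l * ρ ^ (k - l) := by rw [← pow_add, Nat.add_sub_cancel' hlk.le]
  have b1 := (LFunction_bounds χ⁻¹ hl).2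
  have b2 := (LFunction_bounds χ (by omega : 3 ≤ k)).1
  have hRl : (0 : ℝ) < ((e + 1).ascFactorial (l - 1) : ℕ) := by
    exact_mod_cast Nat.ascFactorial_pos _ _
  have hRk : (0 : ℝ) < ((e + 1).ascFactorial (k - 1) : ℕ) := by
    exact_mod_cast Nat.ascFactorial_pos _ _
  rw [aa_eq h (by omega) (by omega) hpl hpk, hfe χ l hχ (by omega) hpl,
    hfe χ⁻¹ k hχ' (by omega) (by rw [inv_neg_one, hpk]), inv_inv, add_comm (_ * (_ / 2)), add_assoc]
  refine ne_zero_of_norm_lt ((norm_add_le _ _).trans_lt ?_)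
  have n1 : ‖((e + l - 1).choose e : ℂ) * (u l * χ.rootNumber * χ⁻¹.LFunction l / 2)‖ =
      c * ρ ^ l * ((e + 1).ascFactorial (l - 1) : ℕ) * ‖χ.rootNumber‖ * ‖χ⁻¹.LFunction l‖ / 2 := by
    rw [norm_mul, norm_div, norm_mul, norm_mul, hu l (by omega), Complex.norm_natCast,
      ← choose_mul_factorial (by omega : 1 ≤ l), Complex.norm_two]
    ring
  have n2 : ‖(-1) ^ e * ((e + k - 1).choose e : ℂ) * (u k * χ⁻¹.rootNumber * χ.LFunction k / 2)‖ =
      c * ρ ^ k * ((e + 1).ascFactorial (k - 1) : ℕ) * ‖χ⁻¹.rootNumber‖ * ‖χ.LFunction k‖ / 2 := by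
    rw [norm_mul, norm_mul, norm_pow, norm_neg, norm_one, one_pow, norm_div, norm_mul, norm_mul,
      hu k (by omega), Complex.norm_natCast, ← choose_mul_factorial (by omega : 1 ≤ k),
      Complex.norm_two]
    ring
  rw [n1, n2]
  have m1 : c * ρ ^ l * ((e + 1).ascFactorial (l - 1) : ℕ) * ‖χ.rootNumber‖ * ‖χ⁻¹.LFunction l‖ / 2 ≤
      c * ρ ^ l * ((e + 1).ascFactorial (l - 1) : ℕ) * ‖χ.rootNumber‖ * 2 / 2 := by gcongr
  have m2 : c * ρ ^ k * ((e + 1).ascFactorial (k - 1) : ℕ) * ‖χ⁻¹.rootNumber‖ * (1 / 6) / 2 ≤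
      c * ρ ^ k * ((e + 1).ascFactorial (k - 1) : ℕ) * ‖χ⁻¹.rootNumber‖ * ‖χ.LFunction k‖ / 2 := by
    gcongr
  have m3 : c * ρ ^ l * ((e + 1).ascFactorial (l - 1) : ℕ) * ‖χ.rootNumber‖ ≤
      c * ‖χ⁻¹.rootNumber‖ / 24 * ρ ^ k * ((e + 1).ascFactorial (k - 1) : ℕ) := by
    have e1 : c * ρ ^ l * ((e + 1).ascFactorial (l - 1) : ℕ) * ‖χ.rootNumber‖ =
        c * ‖χ⁻¹.rootNumber‖ / 24 * ρ ^ k * (((e + 1).ascFactorial (l - 1) : ℕ) *
          (24 * ‖χ.rootNumber‖ / ‖χ⁻¹.rootNumber‖ * ρ⁻¹ ^ (k - l))) := by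
      rw [h5, inv_pow]
      field_simp
    rw [e1, h4]
    gcongr
  linarith

theorem main_eq [NeZero D] (hD : Odd D) (hχ : χ.IsPrimitive) (h : IsDecomp χ comp) (ε : ℕ)
    (hnd : ¬ ((∀ a, (χ a).im = 0) ∧ Odd ε)) :
    ∃ K : ℕ, ∀ k e : ℕ, 3 ≤ k → χ (-1) = (-1) ^ k → e % 2 = ε % 2 → K ≤ e + k →
      aa D comp k k e 1 ≠ 0 := by
  obtain ⟨u, c, ρ, hc, hρ, hu, hfe⟩ := func_eq D
  have hχ' : χ⁻¹.IsPrimitive := by
    rw [DirichletCharacter.isPrimitive_def, DirichletCharacter.conductor_inv]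
    exact hχ
  have hW := rootNumber_ne_zero hχ
  set S : ℕ → ℂ := fun k => χ.rootNumber * χ⁻¹.LFunction k +
    (-1) ^ ε * χ⁻¹.rootNumber * χ.LFunction k with hS
  have hmain : ∀ k e : ℕ, 3 ≤ k → χ (-1) = (-1) ^ k → e % 2 = ε % 2 → aa D comp k k e 1 =
      ((e + k - 1).choose e : ℂ) * u k * S k / 2 + err D comp k k e := by
    intro k e hk hp he
    rw [aa_eq h (by omega) (by omega) hp hp, hfe χ k hχ (by omega) hp,
      hfe χ⁻¹ k hχ' (by omega) (by rw [inv_neg_one, hp]), inv_inv,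
      neg_one_pow_eq_pow_mod_two e, he, ← neg_one_pow_eq_pow_mod_two]
    simp only [hS]
    ring
  have hne : ∀ (k e : ℕ) (x : ℝ), 3 ≤ k → χ (-1) = (-1) ^ k → e % 2 = ε % 2 → x ≤ ‖S k‖ →
      (2 * (D : ℝ) ^ 5) ^ k < c * x / 2 * ρ ^ k * ((e + 1).ascFactorial (k - 1) : ℕ) →
      aa D comp k k e 1 ≠ 0 := by
    intro k e x hk hp he hx hlt
    rw [hmain k e hk hp he]
    refine ne_zero_of_norm_lt ((norm_err_le (NeZero.ne D) comp (by omega) le_rfl e).trans_lt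
      (hlt.trans_le ?_))
    rw [norm_div, norm_mul, norm_mul, hu k (by omega), Complex.norm_natCast,
      ← choose_mul_factorial (by omega : 1 ≤ k), Complex.norm_two]
    calc _ ≤ c * ‖S k‖ / 2 * ρ ^ k * ((((e + k - 1).choose e : ℕ) : ℝ) * (k - 1).factorial) := by
          gcongr
      _ = _ := by ring
  have hreal : (∀ a, (χ a).im = 0) → χ⁻¹ = χ ∧ (-1 : ℂ) ^ ε = 1 := fun hr =>
    ⟨inv_eq_of_real hr, (Nat.not_odd_iff_even.1 fun ho => hnd ⟨hr, ho⟩).neg_one_pow⟩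
  obtain ⟨c', θ, k₀, hc', hθ, hlow⟩ := series_lower
    (fun n : ℕ => χ.rootNumber * χ⁻¹ (n : ZMod D) + (-1) ^ ε * χ⁻¹.rootNumber * χ (n : ZMod D))
    (M := ‖χ.rootNumber‖ + ‖χ⁻¹.rootNumber‖) (fun n => by
      refine (norm_add_le _ _).trans (add_le_add ?_ ?_)
      · rw [norm_mul]
        exact mul_le_of_le_one_right (norm_nonneg _) (χ⁻¹.norm_le_one _)
      · rw [norm_mul, norm_mul, norm_pow, norm_neg, norm_one, one_pow, one_mul]
        exact mul_le_of_le_one_right (norm_nonneg _) (χ.norm_le_one _)) (by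
      by_contra hcon
      push Not at hcon
      have h1 := hcon 1 le_rfl
      simp only [Nat.cast_one, map_one, mul_one] at h1
      by_cases hr : ∀ a, (χ a).im = 0
      · obtain ⟨e1, e2⟩ := hreal hr
        rw [e1, e2] at h1
        exact hW (by linear_combination h1 / 2)
      · push Not at hr
        obtain ⟨a, ha⟩ := hr
        have h2 := hcon (a.val + D) (by have := hD.pos; omega)
        rw [Nat.cast_add, ZMod.natCast_zmod_val, ZMod.natCast_self, add_zero,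
          ← MulChar.star_apply'] at h2
        have h3 : χ.rootNumber * (star (χ a) - χ a) = 0 := by linear_combination h2 - χ a * h1
        exact ha (Complex.conj_eq_iff_im.1 (sub_eq_zero.1 ((mul_eq_zero.1 h3).resolve_left hW))))
  have hlow' : ∀ k, 3 ≤ k → k₀ ≤ k → c' * θ ^ k ≤ ‖S k‖ := by
    intro k hk hk0
    refine hlow k hk0 _ ?_
    have h1 := ((hasSum_LFunction χ⁻¹ (by omega : 2 ≤ k)).mul_left χ.rootNumber).add
      ((hasSum_LFunction χ (by omega : 2 ≤ k)).mul_left ((-1) ^ ε * χ⁻¹.rootNumber))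
    simpa only [add_div, mul_div_assoc] using h1
  obtain ⟨K₁, hK₁⟩ := err_small (2 * (D : ℝ) ^ 5) (c * c' / 2) (θ * ρ) (by positivity)
    (by positivity) (by positivity)
  have hfix : ∀ k : ℕ, ∃ E : ℕ, ∀ e, 3 ≤ k → χ (-1) = (-1) ^ k → e % 2 = ε % 2 → E ≤ e →
      aa D comp k k e 1 ≠ 0 := by
    intro k
    by_cases hk : 3 ≤ k
    swap
    · exact ⟨0, fun e hk' => absurd hk' hk⟩
    by_cases h0 : S k = 0
    · have hnr : ∃ a, (χ a).im ≠ 0 := by
        by_contra hr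
        push Not at hr
        obtain ⟨e1, e2⟩ := hreal hr
        simp only [hS, e1, e2] at h0
        have h1 : χ.rootNumber * χ.LFunction k = 0 := by linear_combination h0 / 2
        have h2 := (LFunction_bounds χ hk).1
        rw [(mul_eq_zero.1 h1).resolve_left hW, norm_zero] at h2
        norm_num at h2
      obtain ⟨E, hE⟩ := (finite_err hD h hnr hk ε).bddAbove
      refine ⟨E + 1, fun e _ hp he hEe h1 => ?_⟩
      rw [hmain k e hk hp he, h0, mul_zero, zero_div, zero_add] at h1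
      have := hE ⟨he, h1⟩
      omega
    · obtain ⟨K, hK⟩ := err_small (2 * (D : ℝ) ^ 5) (c * ‖S k‖ / 2) ρ (by positivity)
        (by have := norm_pos_iff.2 h0; positivity) hρ
      exact ⟨K, fun e _ hp he hEe => hne k e _ hk hp he le_rfl (hK k e (by omega) (by omega))⟩
  choose E hE using hfix
  refine ⟨max K₁ (k₀ + (range k₀).sup E), fun k e hk hp he hK => ?_⟩
  rcases Nat.lt_or_ge k k₀ with hlt | hge
  · have h1 : E k ≤ (range k₀).sup E := le_sup (f := E) (mem_range.2 hlt)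
    have h2 := le_of_max_le_right hK
    exact hE k e hk hp he (by omega)
  · refine hne k e _ hk hp he (hlow' k hk hge) ?_
    refine (hK₁ k e (by omega) (le_of_max_le_left hK)).trans_eq ?_
    rw [mul_pow]
    ring

theorem main_fixed [NeZero D] (hD : Odd D) (hχ : χ.IsPrimitive) (h : IsDecomp χ comp) :
    ∃ K : ℕ, ∀ l k e : ℕ, 3 ≤ l → l ≤ k → l % 2 = k % 2 → χ (-1) = (-1) ^ l →
      ¬ (l = k ∧ (∀ a, (χ a).im = 0) ∧ Odd e) → K ≤ k + l + 2 * e → aa D comp l k e 1 ≠ 0 := by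
  obtain ⟨K₁, hK₁⟩ := main_lt hχ h
  have h2 : ∀ ε : ℕ, ∃ K : ℕ, ¬ ((∀ a, (χ a).im = 0) ∧ Odd ε) → ∀ k e : ℕ, 3 ≤ k →
      χ (-1) = (-1) ^ k → e % 2 = ε % 2 → K ≤ e + k → aa D comp k k e 1 ≠ 0 := by
    intro ε
    by_cases hnd : (∀ a, (χ a).im = 0) ∧ Odd ε
    · exact ⟨0, fun h => absurd hnd h⟩
    · obtain ⟨K, hK⟩ := main_eq hD hχ h ε hnd
      exact ⟨K, fun _ => hK⟩
  choose K₂ hK₂ using h2
  refine ⟨2 * (K₁ + K₂ 0 + K₂ 1), fun l k e hl hlk hpar hp hnd hK => ?_⟩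
  rcases hlk.lt_or_eq with hlt | rfl
  · refine hK₁ l k e hl hlt hp ?_ (by omega)
    rw [hp, neg_one_pow_eq_pow_mod_two, hpar, ← neg_one_pow_eq_pow_mod_two]
  · rcases Nat.mod_two_eq_zero_or_one e with he | he
    · exact hK₂ 0 (fun h => absurd h.2 (by decide)) l e hl hp he (by omega)
    · exact hK₂ 1 (fun h => hnd ⟨rfl, h.1, Nat.odd_iff.2 he⟩) l e hl hp he (by omega)

theorem main_theorem (D : ℕ) (hodd : Odd D) (hsq : Squarefree D) :
    ∃ K₀ : ℕ, ∀ (χ : DirichletCharacter ℂ D) (comp : (d : ℕ) → DirichletCharacter ℂ d)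
      (l k e : ℕ), χ.IsPrimitive → IsDecomp χ comp → 3 ≤ l → l ≤ k → l % 2 = k % 2 →
      χ (-1) = (-1) ^ l → ¬ (l = k ∧ (∀ a, (χ a).im = 0) ∧ Odd e) → K₀ ≤ k + l + 2 * e →
      aa D comp l k e 1 ≠ 0 := by
  have : NeZero D := ⟨hodd.pos.ne'⟩
  have h1 : ∀ χ : DirichletCharacter ℂ D, ∃ K : ℕ, ∀ (comp : (d : ℕ) → DirichletCharacter ℂ d)
      (l k e : ℕ), χ.IsPrimitive → IsDecomp χ comp → 3 ≤ l → l ≤ k → l % 2 = k % 2 →
      χ (-1) = (-1) ^ l → ¬ (l = k ∧ (∀ a, (χ a).im = 0) ∧ Odd e) → K ≤ k + l + 2 * e →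
      aa D comp l k e 1 ≠ 0 := by
    intro χ
    by_cases hex : χ.IsPrimitive ∧ ∃ comp, IsDecomp χ comp
    · obtain ⟨hχ, comp₀, h₀⟩ := hex
      obtain ⟨K, hK⟩ := main_fixed hodd hχ h₀
      refine ⟨K, fun comp l k e _ h => ?_⟩
      rw [aa_congr fun d hd => h.unique h₀ hsq hd]
      exact hK l k e
    · exact ⟨0, fun comp l k e hχ h => absurd ⟨hχ, comp, h⟩ hex⟩
  choose K hK using h1
  obtain ⟨K₀, hK₀⟩ := Finite.bddAbove_range K
  refine ⟨K₀, fun χ comp l k e a b c d f g i j => hK χ comp l k e a b c d f g i ?_⟩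
  exact (hK₀ ⟨χ, rfl⟩).trans j

end Pool.Agent.Lib.MP_234657_nt
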