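import Pool.Agent.Lib.MP_234657_nt.Bounds

namespace Pool.Agent.Lib.MP_234657_nt

open Finset

theorem hasSum_LFunction {D : ℕ} [NeZero D] (χ : DirichletCharacter ℂ D) {k : ℕ} (hk : 2 ≤ k) :
    HasSum (fun n : ℕ => χ (n : ZMod D) / (n : ℂ) ^ k) (χ.LFunction k) := by
  have hs : 1 < (k : ℂ).re := by
    rw [Complex.natCast_re]
    exact_mod_cast hk
  rw [χ.LFunction_eq_LSeries hs]
  have h := (DirichletCharacter.LSeriesSummable_of_one_lt_re χ hs).hasSum
  have e : LSeries.term (fun n : ℕ => χ (n : ZMod D)) (k : ℂ) =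
      fun n : ℕ => χ (n : ZMod D) / (n : ℂ) ^ k := by
    funext n
    rcases Nat.eq_zero_or_pos n with rfl | hn
    · simp [zero_pow (by omega : k ≠ 0)]
    · rw [LSeries.term_of_ne_zero hn.ne', Complex.cpow_natCast]
  rw [e] at h
  rw [LSeries, e]
  exact h

theorem LFunction_bounds {D : ℕ} [NeZero D] (χ : DirichletCharacter ℂ D) {k : ℕ} (hk : 3 ≤ k) :
    1 / 6 ≤ ‖χ.LFunction k‖ ∧ ‖χ.LFunction k‖ ≤ 2 := by
  have h := series_tail (fun n : ℕ => χ (n : ZMod D)) (M := 1) (n₀ := 1) (fun n => χ.norm_le_one _)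
    (by omega : 2 ≤ k) (fun n h1 h2 => by omega) (hasSum_LFunction χ (by omega))
  simp only [Nat.cast_one, map_one, one_pow, div_one, one_mul] at h
  have h1 : (((1 : ℝ) + 1) ^ (k - 2))⁻¹ ≤ 1 / 2 := by
    rw [one_div]
    exact inv_anti₀ (by norm_num) (le_trans (by norm_num) (le_self_pow₀ (by norm_num) (by omega)))
  have h2 := norm_sub_norm_le (χ.LFunction k) 1
  have h3 := norm_sub_norm_le 1 (χ.LFunction k)
  rw [norm_sub_rev] at h3
  rw [norm_one] at h2 h3
  constructor <;> linarith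

theorem even_of_parity {D k : ℕ} {χ : DirichletCharacter ℂ D} (h : χ (-1) = (-1) ^ k)
    (hk : Even k) : χ.Even := by
  rw [hk.neg_one_pow] at h
  exact h

theorem odd_of_parity {D k : ℕ} {χ : DirichletCharacter ℂ D} (h : χ (-1) = (-1) ^ k)
    (hk : Odd k) : χ.Odd := by
  rw [hk.neg_one_pow] at h
  exact h

theorem inv_neg_one {D : ℕ} (χ : DirichletCharacter ℂ D) : χ⁻¹ (-1) = χ (-1) := by
  rw [MulChar.inv_apply_eq_inv']
  rcases χ.even_or_odd with h | h
  · rw [h, inv_one]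
  · rw [h, inv_neg, inv_one]

theorem rootNumber_ne_zero {D : ℕ} [NeZero D] {χ : DirichletCharacter ℂ D} (hχ : χ.IsPrimitive) :
    χ.rootNumber ≠ 0 := by
  intro h0
  have h1 := hχ.completedLFunction_one_sub (1 - ((3 : ℕ) : ℂ))
  rw [h0, mul_zero, zero_mul, sub_sub_cancel] at h1
  have h2 := χ.LFunction_eq_completed_div_gammaFactor ((3 : ℕ) : ℂ) (Or.inl (by norm_num))
  have h3 := (LFunction_bounds χ (le_refl 3)).1
  rw [h2, h1, zero_div, norm_zero] at h3
  norm_num at h3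

theorem func_eq (D : ℕ) [NeZero D] : ∃ (u : ℕ → ℂ) (c ρ : ℝ), 0 < c ∧ 0 < ρ ∧
    (∀ k, 2 ≤ k → ‖u k‖ = c * ρ ^ k * (k - 1).factorial) ∧
    ∀ (χ : DirichletCharacter ℂ D) (k : ℕ), χ.IsPrimitive → 2 ≤ k → χ (-1) = (-1) ^ k →
      χ.LFunction (1 - k) = u k * χ.rootNumber * χ⁻¹.LFunction k := by
  have hD : 0 < D := Nat.pos_of_ne_zero (NeZero.ne D)
  have hD' : (0 : ℝ) < D := by exact_mod_cast hD
  have hpi := Real.pi_pos
  refine ⟨fun k => (D : ℂ) ^ ((k : ℂ) - 1 / 2) * Complex.Gammaℂ k *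
      if Even k then Complex.cos (Real.pi * k / 2) else Complex.sin (Real.pi * k / 2),
    2 / (D : ℝ) ^ (1 / 2 : ℝ), D / (2 * Real.pi), by positivity, by positivity, fun k hk => ?_,
    fun χ k hχ hk hpar => ?_⟩
  · have e1 : ‖(D : ℂ) ^ ((k : ℂ) - 1 / 2)‖ = (D : ℝ) ^ k / (D : ℝ) ^ (1 / 2 : ℝ) := by
      rw [Complex.norm_natCast_cpow_of_pos hD, ← Real.rpow_natCast, ← Real.rpow_sub hD']
      congr 1
      simp
    have e2 : ‖Complex.Gammaℂ k‖ = 2 * ((2 * Real.pi) ^ k)⁻¹ * (k - 1).factorial := by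
      have e : (k : ℂ) = ((k - 1 : ℕ) : ℂ) + 1 := by
        rw [Nat.cast_sub (by omega)]
        simp
      have e' : Complex.Gamma k = (k - 1).factorial := by
        rw [e, Complex.Gamma_nat_eq_factorial]
      rw [Complex.Gammaℂ_def, e', Complex.cpow_neg, Complex.cpow_natCast]
      simp [abs_of_pos hpi]
    have e3 : ‖if Even k then Complex.cos (Real.pi * k / 2) else Complex.sin (Real.pi * k / 2)‖ = 1 := by
      split_ifs with h
      · obtain ⟨n, rfl⟩ := h
        have e : (Real.pi : ℂ) * ((n + n : ℕ) : ℂ) / 2 = ((n * Real.pi : ℝ) : ℂ) := by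
          push_cast
          ring
        rw [e, ← Complex.ofReal_cos, Real.cos_nat_mul_pi]
        simp
      · obtain ⟨n, rfl⟩ := Nat.not_even_iff_odd.1 h
        have e : (Real.pi : ℂ) * ((2 * n + 1 : ℕ) : ℂ) / 2 = ((n * Real.pi + Real.pi / 2 : ℝ) : ℂ) := by
          push_cast
          ring
        rw [e, ← Complex.ofReal_sin, Real.sin_add_pi_div_two, Real.cos_nat_mul_pi]
        simp
    simp only [norm_mul]
    rw [e1, e2, e3, div_pow]
    field_simp
  · have hk0 : (k : ℂ) ≠ 0 := by exact_mod_cast (by omega : k ≠ 0)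
    have hk1 : 1 - (k : ℂ) ≠ 0 := by
      rw [sub_ne_zero]
      exact_mod_cast (by omega : 1 ≠ k)
    have hneg : ∀ n : ℕ, (k : ℂ) ≠ -n := by
      intro n h
      have h1 : ((k + n : ℕ) : ℂ) = 0 := by push_cast; rw [h]; ring
      have h2 : k + n = 0 := by exact_mod_cast h1
      omega
    have hpar' : χ⁻¹ (-1) = (-1) ^ k := by rw [inv_neg_one, hpar]
    rw [χ.LFunction_eq_completed_div_gammaFactor _ (Or.inl hk1), hχ.completedLFunction_one_sub,
      χ⁻¹.LFunction_eq_completed_div_gammaFactor _ (Or.inl hk0)]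
    rcases Nat.even_or_odd k with h | h
    · rw [(even_of_parity hpar h).gammaFactor_def, (even_of_parity hpar' h).gammaFactor_def,
        div_eq_mul_inv _ (Complex.Gammaℝ _), Complex.inv_Gammaℝ_one_sub hneg]
      simp only [if_pos h]
      ring
    · rw [(odd_of_parity hpar h).gammaFactor_def, (odd_of_parity hpar' h).gammaFactor_def,
        div_eq_mul_inv _ (Complex.Gammaℝ _), show 1 - (k : ℂ) + 1 = 2 - k by ring,
        Complex.inv_Gammaℝ_two_sub hneg]
      simp only [if_neg (Nat.not_even_iff_odd.2 h)]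
      ring

theorem Lval_eq {d : ℕ} [NeZero d] (φ : DirichletCharacter ℂ d) (s : ℂ) :
    Lval φ s = φ.LFunction s := by
  rw [Lval, dif_neg (NeZero.ne d)]

theorem sig_zero_eq_zero {l d₁ d₂ : ℕ} (φ : DirichletCharacter ℂ d₁) (ψ : DirichletCharacter ℂ d₂)
    (h₁ : d₁ ≠ 0) (h₂ : d₂ ≠ 0) (h₂' : d₂ ≠ 1) (hl : 2 ≤ l) (hpar : φ (-1) * ψ (-1) = (-1) ^ l) :
    sig l φ ψ 0 = 0 := by
  have : NeZero d₁ := ⟨h₁⟩
  have : NeZero d₂ := ⟨h₂⟩
  rw [sig, if_pos rfl, Lval_eq, Lval_eq]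
  rcases ψ.even_or_odd with hψ | hψ
  · have e : ψ.LFunction 0 = 0 := by
      rw [DirichletCharacter.LFunction, ZMod.LFunction_apply_zero_of_even hψ.to_fun,
        ψ.map_zero' h₂']
      simp
    rw [e, mul_zero]
  · have e : φ.LFunction (1 - l) = 0 := by
      rw [hψ] at hpar
      rcases Nat.even_or_odd l with h | h
      · have hφ : φ.Odd := by
          rw [h.neg_one_pow] at hpar
          change φ (-1) = -1
          linear_combination -hpar
        obtain ⟨n, rfl⟩ : ∃ n, l = 2 * n + 2 := by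
          obtain ⟨t, rfl⟩ := h
          exact ⟨t - 1, by omega⟩
        have e : 1 - ((2 * n + 2 : ℕ) : ℂ) = -(2 * n) - 1 := by push_cast; ring
        rw [e, hφ.LFunction_neg_two_mul_nat_sub_one]
      · have hφ : φ.Even := by
          rw [h.neg_one_pow] at hpar
          change φ (-1) = 1
          linear_combination -hpar
        obtain ⟨n, rfl⟩ : ∃ n, l = 2 * n + 3 := by
          obtain ⟨t, rfl⟩ := h
          exact ⟨t - 1, by omega⟩
        have e : 1 - ((2 * n + 3 : ℕ) : ℂ) = -(2 * (n + 1)) := by push_cast; ring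
        rw [e, hφ.LFunction_neg_two_mul_nat_add_one]
    rw [e, neg_zero, zero_mul]

theorem sig_zero_modOne {l D : ℕ} [NeZero D] (φ : DirichletCharacter ℂ D)
    (ψ : DirichletCharacter ℂ 1) : sig l φ ψ 0 = φ.LFunction (1 - l) / 2 := by
  rw [sig, if_pos rfl, Lval_eq, Lval_eq, DirichletCharacter.LFunction_modOne_eq, riemannZeta_zero]
  ring

theorem sig_one {l d₁ d₂ : ℕ} (φ : DirichletCharacter ℂ d₁) (ψ : DirichletCharacter ℂ d₂) :
    sig l φ ψ 1 = 1 := by
  simp [sig]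

end Pool.Agent.Lib.MP_234657_nt
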