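import Mathlib

namespace Pool.Agent.Lib.MP_234657_nt

open Finset Polynomial

/-- The trinomial `c + a X + b X ^ 2`. -/
noncomputable def tri {R : Type} [CommRing R] (c a b : R) : R[X] := C c + C a * X + C b * X ^ 2

theorem coeff_mul_tri {R : Type} [CommRing R] (c a b : R) (p : R[X]) (n : ℕ) :
    (p * tri c a b).coeff (n + 1) =
      c * p.coeff (n + 1) + a * p.coeff n + b * (X * p).coeff n := by
  have e : p * tri c a b = C c * p + C a * (X * p) + C b * (X * (X * p)) := by
    unfold tri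
    ring
  rw [e, coeff_add, coeff_add, coeff_C_mul, coeff_C_mul, coeff_C_mul, coeff_X_mul, coeff_X_mul]

theorem tri_symm {R : Type} [CommRing R] (c a b : R) (N : ℕ) : ∀ r : ℕ,
    c ^ r * (tri c a b ^ N).coeff (N + r) = b ^ r * (X ^ r * tri c a b ^ N).coeff N := by
  induction N with
  | zero =>
    intro r
    cases r with
    | zero => simp
    | succ r => simp [coeff_one, coeff_X_pow]
  | succ N ih =>
    intro r
    cases r with
    | zero => simp
    | succ r =>
      have e1 : N + 1 + (r + 1) = N + (r + 1) + 1 := by ring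
      have e2 : (X * tri c a b ^ N).coeff (N + (r + 1)) = (tri c a b ^ N).coeff (N + r) := by
        rw [← add_assoc, coeff_X_mul]
      have e3 : (X ^ (r + 1) * tri c a b ^ N).coeff (N + 1) = (X ^ r * tri c a b ^ N).coeff N := by
        rw [pow_succ', mul_assoc, coeff_X_mul]
      have e4 : X * (X ^ (r + 1) * tri c a b ^ N) = X ^ (r + 2) * tri c a b ^ N := by ring
      have e5 : N + (r + 1) + 1 = N + (r + 2) := by ring
      rw [pow_succ (tri c a b), ← mul_assoc (X ^ (r + 1)), e1, coeff_mul_tri, coeff_mul_tri, e2, e3,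
        e4, e5]
      linear_combination ih (r + 2) + a * ih (r + 1) + b * c * ih r

/-- Generating function of the coefficients of `X ^ (N - r)` in the `N`-th power. -/
noncomputable def GG (c a b : ℂ) (r : ℕ) : PowerSeries ℂ :=
  PowerSeries.mk fun N => (X ^ r * tri c a b ^ N).coeff N

theorem GG_zero (c a b : ℂ) : GG c a b 0 = 1 + PowerSeries.X *
    (PowerSeries.C a * GG c a b 0 + PowerSeries.C (2 * b) * GG c a b 1) := by
  ext N
  cases N with
  | zero => simp [GG]
  | succ N =>
    have h := tri_symm c a b N 1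
    simp only [pow_one] at h
    rw [map_add, PowerSeries.coeff_succ_X_mul, map_add, PowerSeries.coeff_C_mul,
      PowerSeries.coeff_C_mul, PowerSeries.coeff_one, if_neg (Nat.succ_ne_zero N)]
    simp only [GG, PowerSeries.coeff_mk, pow_zero, one_mul, pow_one]
    rw [pow_succ, coeff_mul_tri]
    linear_combination h

theorem GG_succ (c a b : ℂ) (r : ℕ) : GG c a b (r + 1) = PowerSeries.X *
    (PowerSeries.C c * GG c a b r + PowerSeries.C a * GG c a b (r + 1) +
      PowerSeries.C b * GG c a b (r + 2)) := by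
  ext N
  cases N with
  | zero => simp [GG]
  | succ N =>
    rw [PowerSeries.coeff_succ_X_mul, map_add, map_add, PowerSeries.coeff_C_mul,
      PowerSeries.coeff_C_mul, PowerSeries.coeff_C_mul]
    simp only [GG, PowerSeries.coeff_mk]
    have e3 : (X ^ (r + 1) * tri c a b ^ N).coeff (N + 1) = (X ^ r * tri c a b ^ N).coeff N := by
      rw [pow_succ', mul_assoc, coeff_X_mul]
    have e4 : X * (X ^ (r + 1) * tri c a b ^ N) = X ^ (r + 2) * tri c a b ^ N := by ring
    rw [pow_succ (tri c a b), ← mul_assoc (X ^ (r + 1)), coeff_mul_tri, e3, e4]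

theorem X_pow_dvd_GG (c a b : ℂ) (r : ℕ) : PowerSeries.X ^ r ∣ GG c a b r := by
  rw [PowerSeries.X_pow_dvd_iff]
  intro m hm
  simp only [GG, PowerSeries.coeff_mk]
  rw [coeff_X_pow_mul', if_neg (by omega)]

theorem GG_casoratian (c a b : ℂ) (hc : c ≠ 0) :
    GG c a b 1 ^ 2 = GG c a b 0 * GG c a b 2 := by
  set H : ℕ → PowerSeries ℂ := fun r => GG c a b (r + 1) ^ 2 - GG c a b r * GG c a b (r + 2) with hH
  have step : ∀ r, PowerSeries.C c * H r = PowerSeries.C b * H (r + 1) := by
    intro r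
    refine mul_left_cancel₀ PowerSeries.X_ne_zero ?_
    have e1 := GG_succ c a b r
    have e2 := GG_succ c a b (r + 1)
    simp only [hH]
    linear_combination GG c a b (r + 1 + 1) * e1 - GG c a b (r + 1) * e2
  have iter : ∀ r, PowerSeries.C c ^ r * H 0 = PowerSeries.C b ^ r * H r := by
    intro r
    induction r with
    | zero => simp
    | succ r ih =>
      linear_combination PowerSeries.C c * ih + PowerSeries.C b ^ r * step r
  have hdvd : ∀ r, PowerSeries.X ^ r ∣ H r := by
    intro r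
    simp only [hH]
    refine dvd_sub ?_ (Dvd.dvd.mul_right (X_pow_dvd_GG c a b r) _)
    rw [sq]
    exact Dvd.dvd.mul_right ((pow_dvd_pow _ (Nat.le_succ r)).trans (X_pow_dvd_GG c a b (r + 1))) _
  have h0 : H 0 = 0 := by
    ext n
    have h1 : PowerSeries.X ^ (n + 1) ∣ PowerSeries.C c ^ (n + 1) * H 0 := by
      rw [iter]
      exact Dvd.dvd.mul_left (hdvd _) _
    have h2 := PowerSeries.X_pow_dvd_iff.1 h1 n (Nat.lt_succ_self n)
    rw [← map_pow, PowerSeries.coeff_C_mul] at h2
    simpa [hc] using h2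
  exact sub_eq_zero.1 h0

theorem coe_two : ((2 : ℂ[X]) : PowerSeries ℂ) = 2 :=
  map_ofNat (Polynomial.coeToPowerSeries.ringHom (R := ℂ)) 2

theorem coe_four : ((4 : ℂ[X]) : PowerSeries ℂ) = 4 :=
  map_ofNat (Polynomial.coeToPowerSeries.ringHom (R := ℂ)) 4

/-- The discriminant polynomial. -/
noncomputable def Del (c a b : ℂ) : ℂ[X] := (1 - C a * X) ^ 2 - C (4 * b * c) * X ^ 2

theorem Del_mul_sq (c a b : ℂ) (hc : c ≠ 0) :
    (Del c a b : PowerSeries ℂ) * GG c a b 0 ^ 2 = 1 := by
  have e0 := GG_zero c a b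
  have e1 := GG_succ c a b 0
  have e2 := GG_casoratian c a b hc
  simp only [Del, Polynomial.coe_sub, Polynomial.coe_mul, Polynomial.coe_pow, Polynomial.coe_C,
    Polynomial.coe_X, Polynomial.coe_one, map_mul, map_ofNat, zero_add, coe_four] at e0 e1 ⊢
  set t : PowerSeries ℂ := PowerSeries.X
  set G0 := GG c a b 0
  set G1 := GG c a b 1
  set G2 := GG c a b 2
  set A := PowerSeries.C a
  set B := PowerSeries.C b
  set Cc := PowerSeries.C c
  have f0 : (1 - A * t) * G0 - 1 = 2 * t * B * G1 := by linear_combination e0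
  have f1 : t * B * G1 ^ 2 = (1 - A * t) * G1 * G0 - t * Cc * G0 ^ 2 := by
    linear_combination t * B * e2 - G0 * e1
  linear_combination (1 + (1 - A * t) * G0 - 2 * t * B * G1) * f0 - 4 * t * B * f1

theorem GG_closed (c a b : ℂ) (r : ℕ) : ∃ U V : ℂ[X], U.coeff 0 ≠ 0 ∧
    (PowerSeries.C (2 * b) * PowerSeries.X) ^ r * GG c a b r =
      (U : PowerSeries ℂ) * GG c a b 0 - (V : PowerSeries ℂ) := by
  have key : ∀ r : ℕ, (∃ U V : ℂ[X], U.coeff 0 ≠ 0 ∧
      (PowerSeries.C (2 * b) * PowerSeries.X) ^ r * GG c a b r =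
        (U : PowerSeries ℂ) * GG c a b 0 - (V : PowerSeries ℂ)) ∧ (∃ U V : ℂ[X], U.coeff 0 ≠ 0 ∧
      (PowerSeries.C (2 * b) * PowerSeries.X) ^ (r + 1) * GG c a b (r + 1) =
        (U : PowerSeries ℂ) * GG c a b 0 - (V : PowerSeries ℂ)) := by
    intro r
    induction r with
    | zero =>
      refine ⟨⟨1, 0, by simp, by simp⟩, ⟨1 - C a * X, 1, by simp, ?_⟩⟩
      have e0 := GG_zero c a b
      simp only [Polynomial.coe_sub, Polynomial.coe_mul, Polynomial.coe_C,
        Polynomial.coe_X, Polynomial.coe_one, zero_add, pow_one]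
      linear_combination -e0
    | succ r ih =>
      obtain ⟨⟨U0, V0, h0, e0⟩, ⟨U1, V1, h1, e1⟩⟩ := ih
      refine ⟨⟨U1, V1, h1, e1⟩, ⟨C 2 * (1 - C a * X) * U1 - C (4 * b * c) * X ^ 2 * U0,
        C 2 * (1 - C a * X) * V1 - C (4 * b * c) * X ^ 2 * V0, ?_, ?_⟩⟩
      · simpa [coeff_zero_eq_eval_zero] using h1
      · have e2 := GG_succ c a b r
        simp only [Polynomial.coe_sub, Polynomial.coe_mul, Polynomial.coe_pow, Polynomial.coe_C,
          Polynomial.coe_X, Polynomial.coe_one, map_mul, map_ofNat, coe_two, coe_four] at e0 e1 ⊢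
        linear_combination (2 * (1 - PowerSeries.C a * PowerSeries.X)) * e1 -
          (4 * PowerSeries.C b * PowerSeries.C c * PowerSeries.X ^ 2) * e0 -
          2 * (2 * PowerSeries.C b * PowerSeries.X) ^ (r + 1) * e2
  exact (key r).1

end Pool.Agent.Lib.MP_234657_nt
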